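import Mathlib

set_option autoImplicit false

/-! Small intervals which contain no large atom have small measure, uniformly. -/

namespace Pool.Agent.K7.H96.HDG

open MeasureTheory Filter Topology
open scoped ENNReal

lemma atoms_gap (μ : Measure ℝ) [IsProbabilityMeasure μ] {p0 : ℝ} (hp0 : 0 < p0) :
    ∃ ps : ℝ, 0 < ps ∧ ps < p0 ∧ ∀ v : ℝ, μ {v} < ENNReal.ofReal p0 → μ {v} ≤ ENNReal.ofReal ps := by
  have hfin : Set.Finite {v : ℝ | ENNReal.ofReal (p0 / 2) ≤ μ {v}} := by
    refine Measure.finite_const_le_meas_of_disjoint_iUnion μ (As := fun v : ℝ => {v})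
      (by simpa using hp0) (fun v => measurableSet_singleton v) ?_ (measure_ne_top _ _)
    intro a b hab
    simpa using hab
  set T : Set ℝ := insert (p0 / 2) ((fun v : ℝ => (μ {v}).toReal) ''
    {v : ℝ | ENNReal.ofReal (p0 / 2) ≤ μ {v} ∧ μ {v} < ENNReal.ofReal p0}) with hT
  have hTfin : T.Finite := by
    refine (Set.Finite.image _ (hfin.subset ?_)).insert _
    intro v hv
    exact hv.1
  have hTne : T.Nonempty := ⟨p0 / 2, Set.mem_insert _ _⟩
  obtain ⟨m, hmT, hm⟩ := Set.exists_max_image T id hTfin hTne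
  have h1 : ∀ x ∈ T, x < p0 := by
    intro x hx
    rw [hT, Set.mem_insert_iff] at hx
    rcases hx with rfl | ⟨v, hv, rfl⟩
    · linarith
    · exact (ENNReal.lt_ofReal_iff_toReal_lt (measure_ne_top _ _)).1 hv.2
  refine ⟨m, ?_, h1 m hmT, fun v hv => ?_⟩
  · have := hm (p0 / 2) (Set.mem_insert _ _)
    simp only [id] at this
    linarith
  · by_cases h2 : ENNReal.ofReal (p0 / 2) ≤ μ {v}
    · have h3 := hm (μ {v}).toReal (Set.mem_insert_of_mem _ ⟨v, ⟨h2, hv⟩, rfl⟩)
      exact (ENNReal.le_ofReal_iff_toReal_le (measure_ne_top _ _) (by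
        have := hm (p0 / 2) (Set.mem_insert _ _)
        simp only [id] at this
        linarith)).2 h3
    · rw [not_le] at h2
      refine h2.le.trans (ENNReal.ofReal_le_ofReal ?_)
      exact hm (p0 / 2) (Set.mem_insert _ _)

lemma small_punctured (μ : Measure ℝ) [IsProbabilityMeasure μ] (v : ℝ) {c : ℝ≥0∞} (hc : 0 < c) :
    ∃ δ : ℝ, 0 < δ ∧ μ (Metric.closedBall v δ \ {v}) ≤ c := by
  have h1 : Tendsto (fun n : ℕ => μ (Metric.closedBall v (1 / ((n : ℝ) + 1)) \ {v})) atTop
      (𝓝 (μ (⋂ n : ℕ, Metric.closedBall v (1 / ((n : ℝ) + 1)) \ {v}))) := by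
    refine tendsto_measure_iInter_atTop (fun n => ?_) ?_ ⟨0, measure_ne_top _ _⟩
    · exact (Metric.isClosed_closedBall.measurableSet.diff (measurableSet_singleton v)).nullMeasurableSet
    · intro m n hmn
      refine Set.sdiff_subset_sdiff_left (Metric.closedBall_subset_closedBall ?_)
      exact Nat.one_div_le_one_div hmn
  have h2 : ⋂ n : ℕ, Metric.closedBall v (1 / ((n : ℝ) + 1)) \ {v} = ∅ := by
    ext x
    simp only [Set.mem_iInter, Set.mem_sdiff, Metric.mem_closedBall, Set.mem_singleton_iff,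
      Set.mem_empty_iff_false, iff_false, not_forall]
    by_contra hcon
    push Not at hcon
    have h3 : dist x v ≤ 0 := by
      refine ge_of_tendsto tendsto_one_div_add_atTop_nhds_zero_nat (Eventually.of_forall fun n => ?_)
      exact (hcon n).1
    exact (hcon 0).2 (dist_le_zero.1 h3)
  rw [h2, measure_empty] at h1
  obtain ⟨n, hn⟩ := ((tendsto_order.1 h1).2 c hc).exists
  exact ⟨1 / ((n : ℝ) + 1), by positivity, hn.le⟩

/-- small intervals without large atoms have small measure -/
theorem atoms (μ : Measure ℝ) [IsProbabilityMeasure μ] {R : ℝ} (hR : ∀ᵐ v ∂μ, |v| ≤ R) {p0 : ℝ}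
    (hp0 : 0 < p0) : ∃ p1 : ℝ, 0 < p1 ∧ p1 < p0 ∧ ∃ δ : ℝ, 0 < δ ∧ ∀ w r : ℝ, r < δ →
      (∀ v : ℝ, ENNReal.ofReal p0 ≤ μ {v} → r < |v - w|) →
        μ (Metric.closedBall w r) ≤ ENNReal.ofReal p1 := by
  obtain ⟨ps, hps0, hps, hgap⟩ := atoms_gap μ hp0
  have hc : (0 : ℝ≥0∞) < ENNReal.ofReal ((p0 - ps) / 2) := by
    rw [ENNReal.ofReal_pos]
    linarith
  choose δ hδ0 hδ using fun v : ℝ => small_punctured μ v hc
  obtain ⟨δ', hδ'0, hδ'⟩ := lebesgue_number_lemma_of_metric (s := Set.Icc (-R) R)
    (c := fun v : ℝ => Metric.ball v (δ v)) isCompact_Icc (fun v => Metric.isOpen_ball)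
    (fun v _ => Set.mem_iUnion.2 ⟨v, Metric.mem_ball_self (hδ0 v)⟩)
  refine ⟨(p0 + ps) / 2, by linarith, by linarith, δ' / 2, by linarith, fun w r hr hbig => ?_⟩
  have hI : μ (Metric.closedBall w r) = μ (Metric.closedBall w r ∩ Set.Icc (-R) R) := by
    refine measure_congr ?_
    filter_upwards [hR] with v hv
    have hv' : v ∈ Set.Icc (-R) R := abs_le.1 hv
    refine propext ⟨fun h => ⟨h, hv'⟩, fun h => h.1⟩
  by_cases hne : (Metric.closedBall w r ∩ Set.Icc (-R) R).Nonempty
  · obtain ⟨x, hx1, hx2⟩ := hne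
    obtain ⟨v, hv⟩ := hδ' x hx2
    have hsub : Metric.closedBall w r ⊆ Metric.closedBall v (δ v) := by
      intro y hy
      refine Metric.ball_subset_closedBall (hv ?_)
      rw [Metric.mem_ball]
      rw [Metric.mem_closedBall] at hy hx1
      calc dist y x ≤ dist y w + dist x w := dist_triangle_right _ _ _
        _ < δ' := by linarith
    have h1 : μ (Metric.closedBall w r) ≤ μ (Metric.closedBall w r \ {v}) +
        μ (Metric.closedBall w r ∩ {v}) := by
      rw [add_comm]
      exact measure_le_inter_add_sdiff _ _ _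
    have h2 : μ (Metric.closedBall w r \ {v}) ≤ ENNReal.ofReal ((p0 - ps) / 2) :=
      (measure_mono (Set.sdiff_subset_sdiff_left hsub)).trans (hδ v)
    have h3 : μ (Metric.closedBall w r ∩ {v}) ≤ ENNReal.ofReal ps := by
      by_cases hvI : v ∈ Metric.closedBall w r
      · have h4 : μ {v} < ENNReal.ofReal p0 := by
          by_contra hcon
          rw [not_lt] at hcon
          have h5 := hbig v hcon
          rw [Metric.mem_closedBall, Real.dist_eq] at hvI
          linarith
        exact (measure_mono Set.inter_subset_right).trans (hgap v h4)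
      · have : Metric.closedBall w r ∩ {v} = ∅ := by
          ext y
          simp only [Set.mem_inter_iff, Set.mem_singleton_iff, Set.mem_empty_iff_false, iff_false,
            not_and]
          rintro hy rfl
          exact hvI hy
        rw [this, measure_empty]
        exact zero_le
    refine h1.trans ((add_le_add h2 h3).trans ?_)
    rw [← ENNReal.ofReal_add (by linarith) hps0.le]
    refine ENNReal.ofReal_le_ofReal ?_
    linarith
  · rw [Set.not_nonempty_iff_eq_empty] at hne
    rw [hI, hne, measure_empty]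
    exact zero_le

end Pool.Agent.K7.H96.HDG
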