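import Pool.Agent.K7.H96.HDG.Msa

set_option autoImplicit false

/-! The set of good energies and the Borel-Cantelli argument. -/

namespace Pool.Agent.K7.H96.HDG

open Finset Complex MeasureTheory ProbabilityTheory Filter
open scoped ENNReal
open Pool.Agent.H12R2.And (V ee Q mem_Q card_Q self_mem_Q Q_mono Q_trans Q_symm add_ee_mem
  sub_ee_mem sum_ite_supp finrank_D mem_Q_shift sum_Q_shift numeric_step numeric_prob)

variable {d : ℕ} (ν : Measure ℝ) [IsProbabilityMeasure ν]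

/-- energies at which resonances are unlikely at every scale -/
def XX (d : ℕ) (ν : Measure ℝ) (r L0 : ℕ) : Set ℝ :=
  {E | ∀ k : ℕ, (PP d ν).real {ω | ¬ RR r ω E (10 ^ k * L0) (0 : V d)}
      ≤ (((10 ^ k * L0 : ℕ) : ℝ) ^ (2 * d + 2))⁻¹}

lemma lintegral_not_RR (r L : ℕ) (hL : 1 ≤ L) :
    ∫⁻ E, (PP d ν) {ω | ¬ RR r ω E L (0 : V d)} ≤
      ENNReal.ofReal (6 * ((L : ℝ) ^ r)⁻¹ * (17 * L) ^ d) := by
  have hm : MeasurableSet {p : (V d → ℝ) × ℝ | ¬ RR r p.1 p.2 L (0 : V d)} :=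
    (joint_RR r L 0).compl
  have h1 : ((PP d ν).prod volume) {p : (V d → ℝ) × ℝ | ¬ RR r p.1 p.2 L (0 : V d)}
      = ∫⁻ E, (PP d ν) {ω | ¬ RR r ω E L (0 : V d)} := by
    rw [Measure.prod_apply_symm hm]; rfl
  have h2 : ((PP d ν).prod volume) {p : (V d → ℝ) × ℝ | ¬ RR r p.1 p.2 L (0 : V d)}
      = ∫⁻ ω, volume {E | ¬ RR r ω E L (0 : V d)} ∂(PP d ν) := by
    rw [Measure.prod_apply hm]; rfl
  rw [← h1, h2]
  have h3 : ∀ ω : V d → ℝ, volume {E | ¬ RR r ω E L (0 : V d)} ≤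
      ENNReal.ofReal (6 * ((L : ℝ) ^ r)⁻¹ * (17 * L) ^ d) := by
    intro ω
    have hsub : {E | ¬ RR r ω E L (0 : V d)} ⊆
        ⋃ j ∈ Finset.range 3, {E | ¬ NR ω E (Q (0 : V d) ((3 * j + 2) * L - 1)) ((L : ℝ) ^ r)⁻¹} := by
      intro E hE
      simp only [RR, Set.mem_ofPred_eq, not_forall] at hE
      obtain ⟨j, hj, h⟩ := hE
      simp only [Set.mem_iUnion]
      exact ⟨j, Finset.mem_range.2 hj, h⟩
    have h4 : ∀ j ∈ Finset.range 3,
        volume {E | ¬ NR ω E (Q (0 : V d) ((3 * j + 2) * L - 1)) ((L : ℝ) ^ r)⁻¹}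
          ≤ ENNReal.ofReal (2 * ((L : ℝ) ^ r)⁻¹ * (17 * L) ^ d) := by
      intro j hj
      refine (volume_not_NR ω _ (by positivity)).trans ?_
      apply ENNReal.ofReal_le_ofReal
      rw [card_Q]
      have h5 : 2 * ((3 * j + 2) * L - 1) + 1 ≤ 17 * L := by
        have : (3 * j + 2) * L ≤ 8 * L := Nat.mul_le_mul_right _ (by
          have := Finset.mem_range.1 hj; omega)
        omega
      have h6 : ((2 * ((3 * j + 2) * L - 1) + 1 : ℕ) : ℝ) ≤ 17 * L := by exact_mod_cast h5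
      rw [Nat.cast_pow]
      gcongr
    calc volume {E | ¬ RR r ω E L (0 : V d)} ≤ _ := measure_mono hsub
      _ ≤ ∑ j ∈ Finset.range 3,
          volume {E | ¬ NR ω E (Q (0 : V d) ((3 * j + 2) * L - 1)) ((L : ℝ) ^ r)⁻¹} :=
          measure_biUnion_finset_le _ _
      _ ≤ ∑ j ∈ Finset.range 3, ENNReal.ofReal (2 * ((L : ℝ) ^ r)⁻¹ * (17 * L) ^ d) :=
          Finset.sum_le_sum h4
      _ = ENNReal.ofReal (6 * ((L : ℝ) ^ r)⁻¹ * (17 * L) ^ d) := by
          rw [Finset.sum_const, Finset.card_range, nsmul_eq_mul,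
            ← ENNReal.ofReal_natCast, ← ENNReal.ofReal_mul (by positivity)]
          congr 1; push_cast; ring
  calc ∫⁻ ω, volume {E | ¬ RR r ω E L (0 : V d)} ∂(PP d ν)
      ≤ ∫⁻ _, ENNReal.ofReal (6 * ((L : ℝ) ^ r)⁻¹ * (17 * L) ^ d) ∂(PP d ν) := lintegral_mono h3
    _ = _ := by simp

lemma meas_prob_RR (r L : ℕ) : Measurable fun E : ℝ => (PP d ν) {ω | ¬ RR r ω E L (0 : V d)} := by
  have hm : MeasurableSet {p : (V d → ℝ) × ℝ | ¬ RR r p.1 p.2 L (0 : V d)} :=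
    (joint_RR r L 0).compl
  exact measurable_measure_prodMk_right hm

lemma measurableSet_XX (r L0 : ℕ) : MeasurableSet (XX d ν r L0) := by
  unfold XX
  rw [Set.ofPred_forall]
  refine MeasurableSet.iInter fun k => ?_
  exact measurableSet_le (meas_prob_RR ν r _).ennreal_toReal measurable_const

lemma volume_compl_XX_aux {r L : ℕ} (hr : r = 3 * d + 4) (hL : 1 ≤ L) :
    volume {E | ¬ (PP d ν).real {ω | ¬ RR r ω E L (0 : V d)} ≤ ((L : ℝ) ^ (2 * d + 2))⁻¹}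
      ≤ ENNReal.ofReal (6 * 17 ^ d * ((L : ℝ) ^ 2)⁻¹) := by
  have hL' : (0 : ℝ) < L := by exact_mod_cast hL
  set t : ℝ := ((L : ℝ) ^ (2 * d + 2))⁻¹ with ht
  have ht0 : 0 < t := by positivity
  have hsub : {E | ¬ (PP d ν).real {ω | ¬ RR r ω E L (0 : V d)} ≤ t} ⊆
      {E | ENNReal.ofReal t ≤ (PP d ν) {ω | ¬ RR r ω E L (0 : V d)}} := by
    intro E hE
    simp only [Set.mem_ofPred_eq, not_le] at hE ⊢
    rw [ENNReal.ofReal_le_iff_le_toReal (measure_ne_top _ _)]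
    exact hE.le
  have h1 := mul_meas_ge_le_lintegral (μ := (volume : Measure ℝ)) (meas_prob_RR (d := d) ν r L)
    (ENNReal.ofReal t)
  have h2 := h1.trans (lintegral_not_RR (d := d) ν r L hL)
  have h3 : volume {E | ENNReal.ofReal t ≤ (PP d ν) {ω | ¬ RR r ω E L (0 : V d)}} ≤
      ENNReal.ofReal (6 * ((L : ℝ) ^ r)⁻¹ * (17 * L) ^ d) / ENNReal.ofReal t := by
    rw [ENNReal.le_div_iff_mul_le (Or.inl (by simpa using ht0)) (Or.inl ENNReal.ofReal_ne_top)]
    rwa [mul_comm]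
  refine (measure_mono hsub).trans (h3.trans ?_)
  rw [← ENNReal.ofReal_div_of_pos ht0]
  apply ENNReal.ofReal_le_ofReal
  rw [ht, hr]
  apply le_of_eq
  have e1 : (L : ℝ) ^ (3 * d + 4) = (L : ℝ) ^ (2 * d + 2) * (L : ℝ) ^ d * (L : ℝ) ^ 2 := by
    rw [← pow_add, ← pow_add]; congr 1; ring
  rw [e1, mul_pow]
  field_simp

lemma volume_compl_XX {r L0 : ℕ} (hr : r = 3 * d + 4) (hL0 : 12 * 17 ^ d ≤ L0) :
    volume (XX d ν r L0)ᶜ ≤ ENNReal.ofReal ((L0 : ℝ)⁻¹) := by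
  have h17 : 1 ≤ 17 ^ d := Nat.one_le_pow _ _ (by norm_num)
  have hL1 : 1 ≤ L0 := by omega
  have hL' : (0 : ℝ) < L0 := by exact_mod_cast hL1
  have h1 : (XX d ν r L0)ᶜ ⊆ ⋃ k : ℕ, {E | ¬ (PP d ν).real {ω | ¬ RR r ω E (10 ^ k * L0) (0 : V d)}
      ≤ (((10 ^ k * L0 : ℕ) : ℝ) ^ (2 * d + 2))⁻¹} := by
    intro E hE
    simp only [XX, Set.mem_compl_iff, Set.mem_ofPred_eq, not_forall] at hE
    simp only [Set.mem_iUnion, Set.mem_ofPred_eq]
    exact hE
  have h2 : ∀ k : ℕ, volume {E | ¬ (PP d ν).real {ω | ¬ RR r ω E (10 ^ k * L0) (0 : V d)}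
      ≤ (((10 ^ k * L0 : ℕ) : ℝ) ^ (2 * d + 2))⁻¹} ≤
        ENNReal.ofReal (6 * 17 ^ d * ((L0 : ℝ) ^ 2)⁻¹ * (1 / 2) ^ k) := by
    intro k
    have hk : 1 ≤ 10 ^ k * L0 := Nat.one_le_iff_ne_zero.mpr (by positivity)
    refine (volume_compl_XX_aux ν hr hk).trans ?_
    apply ENNReal.ofReal_le_ofReal
    rw [mul_assoc (6 * 17 ^ d : ℝ)]
    apply mul_le_mul_of_nonneg_left _ (by positivity)
    push_cast
    rw [mul_pow, mul_inv, mul_comm]
    apply mul_le_mul_of_nonneg_left _ (by positivity)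
    rw [one_div, inv_pow]
    apply inv_anti₀ (by positivity)
    rw [← pow_mul]
    calc (2 : ℝ) ^ k ≤ 10 ^ k := by gcongr; norm_num
      _ ≤ 10 ^ (k * 2) := pow_le_pow_right₀ (by norm_num) (by omega)
  have hsum : Summable fun k : ℕ => 6 * 17 ^ d * ((L0 : ℝ) ^ 2)⁻¹ * (1 / 2 : ℝ) ^ k :=
    summable_geometric_two.mul_left _
  calc volume (XX d ν r L0)ᶜ ≤ _ := measure_mono h1
    _ ≤ ∑' k : ℕ, volume {E | ¬ (PP d ν).real {ω | ¬ RR r ω E (10 ^ k * L0) (0 : V d)}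
      ≤ (((10 ^ k * L0 : ℕ) : ℝ) ^ (2 * d + 2))⁻¹} := measure_iUnion_le _
    _ ≤ ∑' k : ℕ, ENNReal.ofReal (6 * 17 ^ d * ((L0 : ℝ) ^ 2)⁻¹ * (1 / 2) ^ k) :=
        ENNReal.tsum_le_tsum h2
    _ = ENNReal.ofReal (∑' k : ℕ, 6 * 17 ^ d * ((L0 : ℝ) ^ 2)⁻¹ * (1 / 2) ^ k) :=
        (ENNReal.ofReal_tsum_of_nonneg (fun k => by positivity) hsum).symm
    _ ≤ ENNReal.ofReal ((L0 : ℝ)⁻¹) := by
        apply ENNReal.ofReal_le_ofReal
        rw [tsum_mul_left, tsum_geometric_two]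
        have h3 : (12 * 17 ^ d : ℝ) ≤ L0 := by exact_mod_cast hL0
        have e : 6 * 17 ^ d * ((L0 : ℝ) ^ 2)⁻¹ * 2 = (12 * 17 ^ d * (L0 : ℝ)⁻¹) * (L0 : ℝ)⁻¹ := by
          rw [pow_two, mul_inv]; ring
        rw [e]
        have h5 : 12 * 17 ^ d * (L0 : ℝ)⁻¹ ≤ 1 := by
          rw [← div_eq_mul_inv, div_le_one hL']; exact h3
        have h6 : 0 ≤ (L0 : ℝ)⁻¹ := by positivity
        nlinarith

/-- the event used for the decoupling at scale `k` -/
def FF (J : (V d → ℝ) → ℝ → V d → Prop) (r L0 k : ℕ) (ω : V d → ℝ) (E : ℝ) : Prop :=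
  ω ∈ Sh J r L0 k E 0 0 ∧ RR r ω E (10 ^ k * L0) (0 : V d)

lemma joint_FF (J : (V d → ℝ) → ℝ → V d → Prop) {r L0 : ℕ}
    (hJ : ∀ a : V d, MeasurableSet {p : (V d → ℝ) × ℝ | J p.1 p.2 a}) (k : ℕ) :
    MeasurableSet {p : (V d → ℝ) × ℝ | FF J r L0 k p.1 p.2} :=
  (joint_Sh J hJ k 0 0).inter (joint_RR r _ 0)

/-- Borel-Cantelli: for almost every configuration, for almost every good energy, the decoupling
event holds at all large scales. -/
lemma ae_ae_FF {J : (V d → ℝ) → ℝ → V d → Prop} {r L0 : ℕ} (hJ : ∀ (E : ℝ) (a : V d), Dep (Q a L0) {ω | J ω E a})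
    (hJm : ∀ a : V d, MeasurableSet {p : (V d → ℝ) × ℝ | J p.1 p.2 a}) (h1 : 1 ≤ L0)
    (hL0 : 6 * 17 ^ (2 * d) * 10 ^ (2 * d + 1) ≤ L0)
    {B : Set ℝ} (h0 : ∀ E ∈ B, ∀ a : V d,
      (PP d ν).real {ω | ¬ J ω E a} ≤ ((L0 : ℝ) ^ (2 * d + 1))⁻¹) (hBX : B ⊆ XX d ν r L0) (hfin : volume B ≠ ∞) :
    ∀ᵐ ω ∂(PP d ν), ∀ᵐ E ∂(volume.restrict B), ∀ᶠ k in atTop, FF J r L0 k ω E := by
  have : IsFiniteMeasure (volume.restrict B) := ⟨by
    rw [Measure.restrict_apply_univ]; exact lt_of_le_of_ne le_top hfin⟩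
  have key : ∀ᵐ p ∂((PP d ν).prod (volume.restrict B)), ∀ᶠ k in atTop, FF J r L0 k p.1 p.2 := by
    have hbc : ∑' k : ℕ, ((PP d ν).prod (volume.restrict B))
        {p : (V d → ℝ) × ℝ | ¬ FF J r L0 k p.1 p.2} ≠ ∞ := by
      have hb : ∀ k : ℕ, ((PP d ν).prod (volume.restrict B))
          {p : (V d → ℝ) × ℝ | ¬ FF J r L0 k p.1 p.2}
          ≤ ENNReal.ofReal ((17 ^ d + 1) * (1 / 2) ^ k) * volume B := by
        intro k
        have hL1 : 1 ≤ 10 ^ k * L0 := Nat.one_le_iff_ne_zero.mpr (by positivity)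
        have hm : MeasurableSet {p : (V d → ℝ) × ℝ | ¬ FF J r L0 k p.1 p.2} :=
          (joint_FF J hJm k).compl
        rw [Measure.prod_apply_symm hm]
        have hE : ∀ E ∈ B, (PP d ν) ((fun ω => (ω, E)) ⁻¹'
            {p : (V d → ℝ) × ℝ | ¬ FF J r L0 k p.1 p.2})
            ≤ ENNReal.ofReal ((17 ^ d + 1) * (1 / 2) ^ k) := by
          intro E hE
          have hX := hBX hE
          have hG := prob_GG ν (r := r) hJ hJm h1 hL0 (h0 E hE) hX k
          have hS := prob_Sh ν J k E (0 : V d) h1 (by norm_num : 0 < 3) hG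
          have hR := hX k
          have hsub : ((fun ω => (ω, E)) ⁻¹' {p : (V d → ℝ) × ℝ | ¬ FF J r L0 k p.1 p.2}) ⊆
              (Sh J r L0 k E 0 0)ᶜ ∪ {ω | ¬ RR r ω E (10 ^ k * L0) (0 : V d)} := by
            intro ω hω
            simp only [FF, Set.mem_preimage, Set.mem_ofPred_eq, not_and_or] at hω
            exact hω
          have h3 : (PP d ν).real ((fun ω => (ω, E)) ⁻¹'
              {p : (V d → ℝ) × ℝ | ¬ FF J r L0 k p.1 p.2}) ≤ (17 ^ d + 1) * (1 / 2) ^ k := by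
            refine (measureReal_mono hsub (measure_ne_top _ _)).trans
              ((measureReal_union_le _ _).trans ?_)
            have hL' : (1 : ℝ) ≤ ((10 ^ k * L0 : ℕ) : ℝ) := by exact_mod_cast hL1
            have hk2 : ((10 ^ k * L0 : ℕ) : ℝ)⁻¹ ≤ (1 / 2) ^ k := by
              rw [one_div, inv_pow]
              apply inv_anti₀ (by positivity)
              have : 2 ^ k ≤ 10 ^ k * L0 :=
                (Nat.pow_le_pow_left (by norm_num) k).trans (Nat.le_mul_of_pos_right _ h1)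
              exact_mod_cast this
            set L : ℝ := ((10 ^ k * L0 : ℕ) : ℝ) with hL
            have hLp : 0 < L := by linarith
            have s1 : (17 * L) ^ d * (L ^ (2 * d + 1))⁻¹ ≤ 17 ^ d * L⁻¹ := by
              have e : L ^ (2 * d + 1) = L ^ d * L ^ d * L := by
                rw [← pow_add, ← pow_succ]; congr 1; ring
              rw [e, mul_pow, mul_inv, mul_inv, mul_assoc]
              apply mul_le_mul_of_nonneg_left _ (by positivity)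
              rw [← mul_assoc, ← mul_assoc, mul_inv_cancel₀ (by positivity), one_mul]
              have : (L ^ d)⁻¹ ≤ 1 := inv_le_one_of_one_le₀ (one_le_pow₀ hL')
              have h0' : 0 ≤ L⁻¹ := by positivity
              nlinarith
            have s2 : (L ^ (2 * d + 2))⁻¹ ≤ L⁻¹ := by
              apply inv_anti₀ hLp
              exact le_self_pow₀ hL' (by omega)
            have h17 : (0 : ℝ) ≤ 17 ^ d := by positivity
            calc (PP d ν).real (Sh J r L0 k E 0 0)ᶜ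
                  + (PP d ν).real {ω | ¬ RR r ω E (10 ^ k * L0) (0 : V d)}
                ≤ 17 ^ d * L⁻¹ + L⁻¹ := add_le_add (hS.trans s1) (hR.trans s2)
              _ = (17 ^ d + 1) * L⁻¹ := by ring
              _ ≤ _ := mul_le_mul_of_nonneg_left hk2 (by positivity)
          rw [← ENNReal.ofReal_toReal (measure_ne_top (PP d ν) _)]
          exact ENNReal.ofReal_le_ofReal h3
        calc ∫⁻ E in B, (PP d ν) ((fun ω => (ω, E)) ⁻¹'
              {p : (V d → ℝ) × ℝ | ¬ FF J r L0 k p.1 p.2})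
            ≤ ∫⁻ _ in B, ENNReal.ofReal ((17 ^ d + 1) * (1 / 2) ^ k) :=
              setLIntegral_mono measurable_const hE
          _ = _ := by rw [setLIntegral_const]
      refine ne_top_of_le_ne_top ?_ (ENNReal.tsum_le_tsum hb)
      rw [ENNReal.tsum_mul_right]
      refine ENNReal.mul_ne_top ?_ hfin
      rw [← ENNReal.ofReal_tsum_of_nonneg (fun k => by positivity)
        (summable_geometric_two.mul_left _)]
      exact ENNReal.ofReal_ne_top
    have := ae_eventually_notMem hbc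
    filter_upwards [this] with p hp
    filter_upwards [hp] with k hk
    simpa using hk
  exact Measure.ae_ae_of_ae_prod key

end Pool.Agent.K7.H96.HDG
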