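import Pool.Agent.K7.H96.HDG.Init

set_option autoImplicit false

/-! Decay of solutions if the cluster of resonant sites is small. -/

namespace Pool.Agent.K7.H96.HDG

open Finset Complex MeasureTheory ProbabilityTheory Filter
open scoped ENNReal Topology
open Pool.Agent.H12R2.And (V ee Q mem_Q card_Q self_mem_Q Q_mono Q_trans Q_symm add_ee_mem
  sub_ee_mem sum_ite_supp)

variable {d : ℕ}

/-- the graph of the resonant sites -/
def RG (K : ℝ) (ω : V d → ℝ) (E : ℝ) : SimpleGraph (V d) where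
  Adj x y := y ∈ nb x ∧ Rs K ω E x ∧ Rs K ω E y
  symm := ⟨fun _ _ h => ⟨nb_symm h.1, h.2.2, h.2.1⟩⟩
  loopless := ⟨fun _ h => nb_ne h.1 rfl⟩

lemma path_of_walk {K E : ℝ} {ω : V d → ℝ} {a x : V d} (p : (RG K ω E).Walk a x) :
    p.IsPath → Rs K ω E a → ∀ n ≤ p.length, ∀ F : Finset (V d), (∀ y ∈ p.support, y ∉ F) →
      Path K ω E n F a := by
  induction p with
  | nil =>
    intro _ h n hn F _
    have : n = 0 := by simpa using hn
    subst this
    exact h
  | cons h q ih =>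
    intro hp ha n hn F hF
    rw [SimpleGraph.Walk.cons_isPath_iff] at hp
    rcases n with _ | m
    · exact ha
    · rename_i u v w
      have hm : m ≤ q.length := by
        rw [SimpleGraph.Walk.length_cons] at hn
        omega
      have hne : v ≠ u := by
        rintro rfl
        exact hp.2 q.start_mem_support
      have hvF : v ∉ F := hF v (by
        rw [SimpleGraph.Walk.support_cons]
        exact List.mem_cons_of_mem _ q.start_mem_support)
      refine ⟨ha, v, h.1, ?_, ih hp.1 h.2.2 m hm (insert u F) fun y hy => ?_⟩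
      · rw [Finset.mem_insert]
        rintro (h1 | h1)
        · exact hne h1
        · exact hvF h1
      · rw [Finset.mem_insert]
        rintro (rfl | h1)
        · exact hp.2 hy
        · exact hF y (by
            rw [SimpleGraph.Walk.support_cons]
            exact List.mem_cons_of_mem _ hy) h1

lemma walk_mem_Q {K E : ℝ} {ω : V d → ℝ} {a x : V d} (p : (RG K ω E).Walk a x) :
    x ∈ Q a p.length := by
  induction p with
  | nil => exact self_mem_Q _ _
  | cons h q ih =>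
    rw [SimpleGraph.Walk.length_cons, add_comm]
    exact Q_trans (nb_Q h.1) ih

lemma res_of_walk {K E : ℝ} {ω : V d → ℝ} {a x : V d} (p : (RG K ω E).Walk a x) :
    Rs K ω E a → Rs K ω E x := by
  induction p with
  | nil => exact id
  | cons h q ih => exact fun _ => ih h.2.2

/-- a finite set of resonant sites which contains `a` and the resonant neighbours of its points -/
lemma exists_cluster {K E : ℝ} {ω : V d → ℝ} {a : V d} {L : ℕ} (ha : Rs K ω E a)
    (hL : 1 ≤ L) (hP : ¬ Path K ω E L ∅ a) :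
    ∃ C : Finset (V d), a ∈ C ∧ C ⊆ Q a (L - 1) ∧
      ∀ x ∈ C, ∀ y ∈ nb x, y ∉ C → ¬ Rs K ω E y := by
  classical
  have hQ : ∀ x, (RG K ω E).Reachable a x → x ∈ Q a (L - 1) := by
    intro x hx
    obtain ⟨p, hp⟩ := hx.exists_isPath
    have h1 : p.length ≤ L - 1 := by
      by_contra hcon
      exact hP (path_of_walk p hp ha L (by omega) ∅ (by simp))
    exact Q_mono h1 (walk_mem_Q p)
  refine ⟨(Q a (L - 1)).filter fun x => (RG K ω E).Reachable a x, ?_, Finset.filter_subset _ _,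
    fun x hx y hy hyC hR => hyC ?_⟩
  · rw [Finset.mem_filter]
    exact ⟨self_mem_Q _ _, SimpleGraph.Reachable.refl _⟩
  · rw [Finset.mem_filter] at hx ⊢
    obtain ⟨p⟩ := hx.2
    have hxR := res_of_walk p ha
    have h1 : (RG K ω E).Adj x y := ⟨hy, hxR, hR⟩
    have h2 : (RG K ω E).Reachable a y := hx.2.trans h1.reachable
    exact ⟨hQ y h2, h2⟩

lemma hop_sub_of_nb {ω : V d → ℝ} {u v : V d → ℂ} {x : V d} (hx : v x = u x) {T : ℝ}
    (h : ∀ y ∈ nb x, ‖u y - v y‖ ≤ T) : ‖hop ω v x - hop ω u x‖ ≤ 2 * d * T := by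
  have e : hop ω v x - hop ω u x = ∑ i : Fin d, ((u (x + ee i) - v (x + ee i))
      + (u (x - ee i) - v (x - ee i))) := by
    unfold hop
    rw [hx]
    simp only [Finset.sum_add_distrib, Finset.sum_sub_distrib]
    ring
  rw [e]
  refine (norm_sum_le _ _).trans ?_
  have : ∀ i ∈ (Finset.univ : Finset (Fin d)), ‖(u (x + ee i) - v (x + ee i))
      + (u (x - ee i) - v (x - ee i))‖ ≤ 2 * T := by
    intro i _
    refine (norm_add_le _ _).trans ?_
    have h1 := h _ (mem_nb.2 (Or.inl ⟨i, rfl⟩))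
    have h2 := h _ (mem_nb.2 (Or.inr ⟨i, rfl⟩))
    linarith
  refine (Finset.sum_le_sum this).trans ?_
  simp
  linarith

/-- a-priori bound inside a non-resonant set by the values at the neighbours -/
lemma bound_of_NR' {ω : V d → ℝ} {E τ : ℝ} (hτ : 0 < τ) {D : Finset (V d)}
    (h : NR ω E D τ) {ε : ℝ} {u : V d → ℂ}
    (hu : ∀ x ∈ D, hop ω u x = ((E : ℂ) + ε * I) * u x) {T : ℝ} (hT : 0 ≤ T)
    (hb : ∀ x ∈ D, ∀ y ∈ nb x, y ∉ D → ‖u y‖ ≤ T) :
    ∀ x ∈ D, ‖u x‖ ≤ τ⁻¹ * (2 * d * D.card) * T := by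
  classical
  intro x0 hx0
  set v : V d → ℂ := fun x => if x ∈ D then u x else 0 with hv
  have hv0 : ∀ x ∉ D, v x = 0 := fun x hx => by simp [hv, hx]
  have hv1 : ∀ x ∈ D, v x = u x := fun x hx => by simp [hv, hx]
  have h1 := NR_complex h ε hv0
  have h2 : ∀ x ∈ D, ‖hop ω v x - ((E : ℂ) + ε * I) * v x‖ ^ 2 ≤ (2 * d * T) ^ 2 := by
    intro x hx
    have e : hop ω v x - ((E : ℂ) + ε * I) * v x = hop ω v x - hop ω u x := by
      rw [hu x hx, hv1 x hx]
    rw [e]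
    have h3 : ‖hop ω v x - hop ω u x‖ ≤ 2 * d * T := by
      refine hop_sub_of_nb (hv1 x hx) ?_
      intro y hy
      by_cases hyD : y ∈ D
      · rw [hv1 y hyD]; simpa using hT
      · rw [hv0 y hyD, sub_zero]
        exact hb x hx y hy hyD
    exact pow_le_pow_left₀ (norm_nonneg _) h3 2
  have h3 : τ ^ 2 * ‖u x0‖ ^ 2 ≤ (D.card : ℝ) * (2 * d * T) ^ 2 := by
    calc τ ^ 2 * ‖u x0‖ ^ 2 = τ ^ 2 * ‖v x0‖ ^ 2 := by rw [hv1 x0 hx0]
      _ ≤ τ ^ 2 * ∑ x ∈ D, ‖v x‖ ^ 2 := by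
          gcongr
          exact Finset.single_le_sum (f := fun x => ‖v x‖ ^ 2) (fun x _ => by positivity) hx0
      _ ≤ _ := h1
      _ ≤ ∑ x ∈ D, (2 * d * T) ^ 2 := Finset.sum_le_sum h2
      _ = _ := by simp
  have hc1 : (1 : ℝ) ≤ D.card := by
    have : 1 ≤ D.card := Finset.card_pos.2 ⟨x0, hx0⟩
    exact_mod_cast this
  have h4 : (τ * ‖u x0‖) ^ 2 ≤ (D.card * (2 * d * T)) ^ 2 := by
    rw [mul_pow, mul_pow]
    refine h3.trans ?_
    gcongr
    calc (D.card : ℝ) = D.card * 1 := by ring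
      _ ≤ (D.card : ℝ) * D.card := by gcongr
      _ = (D.card : ℝ) ^ 2 := by ring
  have h5 := abs_le_of_sq_le_sq h4 (by positivity)
  rw [abs_of_nonneg (by positivity)] at h5
  rw [mul_assoc, inv_mul_eq_div, le_div_iff₀ hτ]
  calc ‖u x0‖ * τ = τ * ‖u x0‖ := by ring
    _ ≤ _ := h5
    _ = _ := by ring

/-- solutions are small at the sites which are not resonant -/
lemma bound_of_not_Rs {K E ε : ℝ} (hK : 0 < K) {ω : V d → ℝ} {u : V d → ℂ} {x : V d}
    (hx : ¬ Rs K ω E x) (hu : hop ω u x = ((E : ℂ) + ε * I) * u x) {S : ℝ}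
    (hS : ∀ y ∈ nb x, ‖u y‖ ≤ S) : ‖u x‖ ≤ 2 * d / K * S := by
  unfold Rs at hx
  rw [not_le] at hx
  have e1 : ((2 * d + ω x : ℝ) - ((E : ℂ) + ε * I)) * u x =
      ∑ i : Fin d, (u (x + ee i) + u (x - ee i)) := by
    unfold hop at hu
    have : -(∑ i : Fin d, ((u (x + ee i) - u x) + (u (x - ee i) - u x))) =
        2 * d * u x - ∑ i : Fin d, (u (x + ee i) + u (x - ee i)) := by
      simp only [Finset.sum_add_distrib, Finset.sum_sub_distrib, Finset.sum_const,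
        Finset.card_univ, Fintype.card_fin, nsmul_eq_mul]
      ring
    rw [this] at hu
    push_cast
    linear_combination hu
  have e2 : ‖∑ i : Fin d, (u (x + ee i) + u (x - ee i))‖ ≤ 2 * d * S := by
    refine (norm_sum_le _ _).trans ?_
    have : ∀ i ∈ (Finset.univ : Finset (Fin d)), ‖u (x + ee i) + u (x - ee i)‖ ≤ 2 * S := by
      intro i _
      refine (norm_add_le _ _).trans ?_
      have h1 := hS _ (mem_nb.2 (Or.inl ⟨i, rfl⟩))
      have h2 := hS _ (mem_nb.2 (Or.inr ⟨i, rfl⟩))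
      linarith
    refine (Finset.sum_le_sum this).trans ?_
    simp
    linarith
  have e3 : K ≤ ‖((2 * d + ω x : ℝ) : ℂ) - ((E : ℂ) + ε * I)‖ := by
    refine hx.le.trans ?_
    refine le_trans (le_of_eq ?_) (Complex.abs_re_le_norm _)
    congr 1
    simp
  have e4 : K * ‖u x‖ ≤ 2 * d * S := by
    calc K * ‖u x‖ ≤ ‖((2 * d + ω x : ℝ) : ℂ) - ((E : ℂ) + ε * I)‖ * ‖u x‖ := by gcongr
      _ = ‖∑ i : Fin d, (u (x + ee i) + u (x - ee i))‖ := by rw [← norm_mul, e1]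
      _ ≤ _ := e2
  rw [div_mul_eq_mul_div, le_div_iff₀ hK]
  linarith

/-- the initial event -/
def J (K τ : ℝ) (L : ℕ) (ω : V d → ℝ) (E : ℝ) (a : V d) : Prop :=
  ¬ Path K ω E L ∅ a ∧ ∀ D ∈ (Q a L).powerset, NR ω E D τ

lemma good_of_J (hd : 1 ≤ d) {K τ E : ℝ} {L : ℕ} (hL : 1 ≤ L) (hK : 0 < K) (hτ : 0 < τ)
    (hτ1 : τ ≤ 1) {ω : V d → ℝ} {a : V d} (h : J K τ L ω E a) :
    Good ω E L (τ⁻¹ * (2 * d * (2 * L + 1) ^ d) * (2 * d / K)) a := by
  intro ε u S hu hS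
  have hd' : (1 : ℝ) ≤ d := by exact_mod_cast hd
  have hS0 : 0 ≤ S := (norm_nonneg _).trans (hS a (self_mem_Q a _))
  have hnr : ∀ y ∈ Q a L, ¬ Rs K ω E y → ‖u y‖ ≤ 2 * d / K * S := by
    intro y hy hyR
    refine bound_of_not_Rs hK hyR (hu y hy) fun z hz => hS z ?_
    exact Q_trans hy (nb_Q hz)
  have hpow : (1 : ℝ) ≤ (2 * L + 1) ^ d := by
    apply one_le_pow₀
    have : (0 : ℝ) ≤ L := Nat.cast_nonneg L
    linarith
  have hτi : 1 ≤ τ⁻¹ := (one_le_inv₀ hτ).2 hτ1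
  have hbig : (1 : ℝ) ≤ τ⁻¹ * (2 * d * (2 * L + 1) ^ d) := by
    have h1 : (1 : ℝ) ≤ 2 * d * (2 * L + 1) ^ d := by nlinarith
    nlinarith
  have hT0 : 0 ≤ 2 * d / K * S := by positivity
  by_cases ha : Rs K ω E a
  · obtain ⟨C, haC, hCQ, hC⟩ := exists_cluster ha hL h.1
    have hCQL : C ⊆ Q a L := hCQ.trans (Q_mono (Nat.sub_le _ _))
    have hNR := h.2 C (Finset.mem_powerset.2 hCQL)
    have h1 := bound_of_NR' hτ hNR (u := u) (ε := ε) (fun x hx => hu x (hCQL hx)) hT0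
      (fun x hx y hy hyC => hnr y (by
        have := Q_trans (hCQ hx) (nb_Q hy)
        rwa [Nat.sub_add_cancel hL] at this) (hC x hx y hy hyC)) a haC
    refine h1.trans ?_
    have hcard : (C.card : ℝ) ≤ (2 * L + 1) ^ d := by
      have h2 := Finset.card_le_card hCQL
      rw [card_Q] at h2
      exact_mod_cast h2
    calc τ⁻¹ * (2 * d * C.card) * (2 * d / K * S) ≤
        τ⁻¹ * (2 * d * (2 * L + 1) ^ d) * (2 * d / K * S) := by gcongr
      _ = _ := by ring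
  · refine (hnr a (self_mem_Q a L) ha).trans ?_
    calc 2 * d / K * S = 1 * (2 * d / K * S) := by ring
      _ ≤ τ⁻¹ * (2 * d * (2 * L + 1) ^ d) * (2 * d / K * S) :=
          mul_le_mul_of_nonneg_right hbig hT0
      _ = _ := by ring

lemma dep_J (K τ : ℝ) (L : ℕ) (E : ℝ) (a : V d) : Dep (Q a L) {ω | J K τ L ω E a} := by
  rintro ω ω' h1 ⟨h2, h3⟩
  refine ⟨fun hc => h2 ?_, fun D hD => ?_⟩
  · refine dep_Path K E L ∅ a (by simp) ω' ω (fun x hx => (h1 x ?_).symm) hc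
    rw [Finset.mem_sdiff] at hx
    exact hx.1
  · exact dep_NR E D τ ω ω' (fun x hx => h1 x (Finset.mem_powerset.1 hD hx)) (h3 D hD)

/-- non-resonance of all the subsets of a cube -/
def NA (τ : ℝ) (L : ℕ) (ω : V d → ℝ) (E : ℝ) (a : V d) : Prop :=
  ∀ D ∈ (Q a L).powerset, NR ω E D τ

lemma meas_NA (τ : ℝ) (L : ℕ) (a : V d) : MeasurableSet {p : (V d → ℝ) × ℝ | NA τ L p.1 p.2 a} := by
  have : {p : (V d → ℝ) × ℝ | NA τ L p.1 p.2 a} = ⋂ (D : Finset (V d)) (_ : D ∈ (Q a L).powerset),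
      {p : (V d → ℝ) × ℝ | NR p.1 p.2 D τ} := by
    ext p
    simp only [NA, Set.mem_ofPred_eq, Set.mem_iInter]
  rw [this]
  exact MeasurableSet.iInter fun D => MeasurableSet.iInter fun _ => meas_NR D τ

lemma meas_J (K τ : ℝ) (L : ℕ) (a : V d) :
    MeasurableSet {p : (V d → ℝ) × ℝ | J K τ L p.1 p.2 a} :=
  (meas_Path K L ∅ a).compl.inter (meas_NA τ L a)

lemma NA_shift {τ : ℝ} {L : ℕ} {ω : V d → ℝ} {E : ℝ} {a : V d}
    (h : NA τ L (shift a ω) E 0) : NA τ L ω E a := by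
  classical
  intro D hD v hv
  set D0 : Finset (V d) := D.image fun x => x - a with hD0
  have hinj : Set.InjOn (fun x : V d => x - a) D := fun x _ y _ h => by simpa using h
  have hmem : ∀ x : V d, x ∉ D0 → x + a ∉ D := by
    intro x hx hc
    apply hx
    rw [hD0, Finset.mem_image]
    exact ⟨x + a, hc, by simp⟩
  have hsub : D0 ∈ (Q (0 : V d) L).powerset := by
    rw [Finset.mem_powerset]
    intro x hx
    rw [hD0, Finset.mem_image] at hx
    obtain ⟨y, hy, rfl⟩ := hx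
    have h1 := Finset.mem_powerset.1 hD hy
    rw [mem_Q] at h1 ⊢
    intro i
    simpa using h1 i
  have h1 := h D0 hsub (fun y => v (y + a)) (fun x hx => hv _ (hmem x hx))
  simp only [hop_shift] at h1
  rw [hD0, Finset.sum_image hinj, Finset.sum_image hinj] at h1
  simpa using h1

variable (ν : Measure ℝ) [IsProbabilityMeasure ν]

lemma prob_NA (τ : ℝ) (L : ℕ) (E : ℝ) (a : V d) :
    (PP d ν).real {ω | ¬ NA τ L ω E a} ≤ (PP d ν).real {ω | ¬ NA τ L ω E 0} := by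
  have h1 : {ω : V d → ℝ | ¬ NA τ L ω E a} ⊆ shift a ⁻¹' {ω | ¬ NA τ L ω E 0} := by
    intro ω hω hc
    exact hω (NA_shift hc)
  refine (measureReal_mono h1 (measure_ne_top _ _)).trans (le_of_eq ?_)
  exact real_shift ν a (meas_sec (P := fun ω E => NA τ L ω E 0) (meas_NA τ L 0) E).compl

lemma meas_prob_NA (τ : ℝ) (L : ℕ) :
    Measurable fun E : ℝ => (PP d ν) {ω | ¬ NA τ L ω E (0 : V d)} := by
  have hm : MeasurableSet {p : (V d → ℝ) × ℝ | ¬ NA τ L p.1 p.2 (0 : V d)} :=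
    (meas_NA τ L 0).compl
  exact measurable_measure_prodMk_right hm

lemma lintegral_not_NA {τ : ℝ} (hτ : 0 ≤ τ) (L : ℕ) :
    ∫⁻ E, (PP d ν) {ω | ¬ NA τ L ω E (0 : V d)} ≤
      ENNReal.ofReal (2 ^ ((2 * L + 1) ^ d) * (2 * τ * (2 * L + 1) ^ d)) := by
  have hm : MeasurableSet {p : (V d → ℝ) × ℝ | ¬ NA τ L p.1 p.2 (0 : V d)} :=
    (meas_NA τ L 0).compl
  have h1 : ((PP d ν).prod volume) {p : (V d → ℝ) × ℝ | ¬ NA τ L p.1 p.2 (0 : V d)}
      = ∫⁻ E, (PP d ν) {ω | ¬ NA τ L ω E (0 : V d)} := by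
    rw [Measure.prod_apply_symm hm]; rfl
  have h2 : ((PP d ν).prod volume) {p : (V d → ℝ) × ℝ | ¬ NA τ L p.1 p.2 (0 : V d)}
      = ∫⁻ ω, volume {E | ¬ NA τ L ω E (0 : V d)} ∂(PP d ν) := by
    rw [Measure.prod_apply hm]; rfl
  rw [← h1, h2]
  have h3 : ∀ ω : V d → ℝ, volume {E | ¬ NA τ L ω E (0 : V d)} ≤
      ENNReal.ofReal (2 ^ ((2 * L + 1) ^ d) * (2 * τ * (2 * L + 1) ^ d)) := by
    intro ω
    have hsub : {E | ¬ NA τ L ω E (0 : V d)} ⊆
        ⋃ D ∈ (Q (0 : V d) L).powerset, {E | ¬ NR ω E D τ} := by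
      intro E hE
      simp only [NA, Set.mem_ofPred_eq, not_forall] at hE
      obtain ⟨D, hD, h⟩ := hE
      simp only [Set.mem_iUnion]
      exact ⟨D, hD, h⟩
    have h4 : ∀ D ∈ (Q (0 : V d) L).powerset,
        volume {E | ¬ NR ω E D τ} ≤ ENNReal.ofReal (2 * τ * (2 * L + 1) ^ d) := by
      intro D hD
      refine (volume_not_NR ω _ hτ).trans ?_
      apply ENNReal.ofReal_le_ofReal
      have h5 := Finset.card_le_card (Finset.mem_powerset.1 hD)
      rw [card_Q] at h5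
      have h6 : (D.card : ℝ) ≤ (2 * L + 1) ^ d := by exact_mod_cast h5
      gcongr
    calc volume {E | ¬ NA τ L ω E (0 : V d)} ≤ _ := measure_mono hsub
      _ ≤ ∑ D ∈ (Q (0 : V d) L).powerset, volume {E | ¬ NR ω E D τ} :=
          measure_biUnion_finset_le _ _
      _ ≤ ∑ D ∈ (Q (0 : V d) L).powerset, ENNReal.ofReal (2 * τ * (2 * L + 1) ^ d) :=
          Finset.sum_le_sum h4
      _ = _ := by
          rw [Finset.sum_const, Finset.card_powerset, card_Q, nsmul_eq_mul,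
            ← ENNReal.ofReal_natCast, ← ENNReal.ofReal_mul (by positivity)]
          congr 1
          push_cast
          ring
  calc ∫⁻ ω, volume {E | ¬ NA τ L ω E (0 : V d)} ∂(PP d ν)
      ≤ ∫⁻ _, ENNReal.ofReal (2 ^ ((2 * L + 1) ^ d) * (2 * τ * (2 * L + 1) ^ d)) ∂(PP d ν) :=
        lintegral_mono h3
    _ = _ := by simp

/-- energies at which the resonances of small sets are unlikely -/
def YY (d : ℕ) (ν : Measure ℝ) (τ δ : ℝ) (L : ℕ) : Set ℝ :=
  {E | (PP d ν).real {ω | ¬ NA τ L ω E (0 : V d)} ≤ δ}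

lemma measurableSet_YY (τ δ : ℝ) (L : ℕ) : MeasurableSet (YY d ν τ δ L) :=
  measurableSet_le (meas_prob_NA ν τ L).ennreal_toReal measurable_const

lemma volume_compl_YY {τ δ : ℝ} (hτ : 0 ≤ τ) (hδ : 0 < δ) (L : ℕ) :
    volume (YY d ν τ δ L)ᶜ ≤
      ENNReal.ofReal (2 ^ ((2 * L + 1) ^ d) * (2 * τ * (2 * L + 1) ^ d) / δ) := by
  have hsub : (YY d ν τ δ L)ᶜ ⊆
      {E | ENNReal.ofReal δ ≤ (PP d ν) {ω | ¬ NA τ L ω E (0 : V d)}} := by
    intro E hE
    simp only [YY, Set.mem_compl_iff, Set.mem_ofPred_eq, not_le] at hE ⊢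
    rw [ENNReal.ofReal_le_iff_le_toReal (measure_ne_top _ _)]
    exact hE.le
  have h1 := mul_meas_ge_le_lintegral (μ := (volume : Measure ℝ)) (meas_prob_NA (d := d) ν τ L)
    (ENNReal.ofReal δ)
  have h2 := h1.trans (lintegral_not_NA (d := d) ν hτ L)
  have h3 : volume {E | ENNReal.ofReal δ ≤ (PP d ν) {ω | ¬ NA τ L ω E (0 : V d)}} ≤
      ENNReal.ofReal (2 ^ ((2 * L + 1) ^ d) * (2 * τ * (2 * L + 1) ^ d)) / ENNReal.ofReal δ := by
    rw [ENNReal.le_div_iff_mul_le (Or.inl (by simpa using hδ)) (Or.inl ENNReal.ofReal_ne_top)]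
    rwa [mul_comm]
  refine (measure_mono hsub).trans (h3.trans ?_)
  rw [← ENNReal.ofReal_div_of_pos hδ]

/-- probability of the initial event -/
lemma prob_J (hd : 1 ≤ d) {K τ E p δ : ℝ} {n : ℕ} (hp : ν {v | |2 * d + v - E| ≤ K} ≤ ENNReal.ofReal p)
    (hp0 : 0 ≤ p) (hE : E ∈ YY d ν τ δ (n + 1)) (a : V d) :
    (PP d ν).real {ω | ¬ J K τ (n + 1) ω E a} ≤
      p * (2 * d * (p * ((2 * d - 1) * p) ^ n)) + δ := by
  have hRs : ∀ x : V d, (PP d ν).real {ω | Rs K ω E x} ≤ p := by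
    intro x
    have h1 : (PP d ν) {ω | Rs K ω E x} = ν {v | |2 * d + v - E| ≤ K} := by
      have hmp : MeasurePreserving (fun ω : V d → ℝ => ω x) (PP d ν) ν :=
        measurePreserving_eval_infinitePi (fun _ : V d => ν) x
      have hms : MeasurableSet {v : ℝ | |2 * d + v - E| ≤ K} :=
        (isClosed_le (by fun_prop) continuous_const).measurableSet
      exact hmp.measure_preimage hms.nullMeasurableSet
    unfold Measure.real
    rw [h1]
    exact ENNReal.toReal_le_of_le_ofReal hp0 hp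
  have h1 : {ω : V d → ℝ | ¬ J K τ (n + 1) ω E a} ⊆
      {ω | Path K ω E (n + 1) ∅ a} ∪ {ω | ¬ NA τ (n + 1) ω E a} := by
    intro ω hω
    by_contra hc
    simp only [Set.mem_union, not_or, Set.mem_ofPred_eq, not_not] at hc
    exact hω ⟨hc.1, hc.2⟩
  refine (measureReal_mono h1 (measure_ne_top _ _)).trans ((measureReal_union_le _ _).trans ?_)
  exact add_le_add (prob_path0 ν hd hRs n a) ((prob_NA ν τ (n + 1) E a).trans hE)

end Pool.Agent.K7.H96.HDG
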