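import Pool.Agent.K7.H96.HDG.Sl

set_option autoImplicit false

/-! The initial event in terms of the percolation of the resonant sites. -/

namespace Pool.Agent.K7.H96.HDG

open Finset Complex MeasureTheory ProbabilityTheory Filter
open scoped ENNReal Topology
open Pool.Agent.W783.PC (pm bern DepOn Inc)
open Pool.Agent.H12R2.And (V ee Q mem_Q card_Q self_mem_Q Q_mono Q_trans Q_symm add_ee_mem
  sub_ee_mem sum_ite_supp)

variable {d : ℕ}

/-- the configuration of the resonant sites -/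
noncomputable def bo (K : ℝ) (ω : V d → ℝ) (E : ℝ) : V d → Bool := fun x =>
  @decide (Rs K ω E x) (Classical.propDecidable _)

lemma bo_iff {K : ℝ} {ω : V d → ℝ} {E : ℝ} {x : V d} : bo K ω E x = true ↔ Rs K ω E x := by
  exact @decide_eq_true_iff _ (Classical.propDecidable _)

/-- the initial event -/
def J2 (K τ : ℝ) (L : ℕ) (ω : V d → ℝ) (E : ℝ) (a : V d) : Prop :=
  bo K ω E ∉ AR (L - 1) ∅ a ∧ NA τ L ω E a

lemma exists_cluster2 {K E : ℝ} {ω : V d → ℝ} {a : V d} {L : ℕ} (ha : Rs K ω E a)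
    (hL : 1 ≤ L) (hP : bo K ω E ∉ AR (L - 1) ∅ a) :
    ∃ C : Finset (V d), a ∈ C ∧ C ⊆ Q a (L - 1) ∧
      ∀ x ∈ C, ∀ y ∈ nb x, y ∉ C → ¬ Rs K ω E y := by
  classical
  have hL' : L - 1 + 1 = L := Nat.sub_add_cancel hL
  have hQ : ∀ x, (SG (bo K ω E) (Q a L : Set (V d))).Reachable a x → x ∈ Q a (L - 1) := by
    intro x hx
    by_contra hcon
    refine hP ⟨bo_iff.2 ha, x, hcon, ?_⟩
    rw [Set.sdiff_empty, hL']
    exact hx
  refine ⟨(Q a (L - 1)).filter fun x => (SG (bo K ω E) (Q a L : Set (V d))).Reachable a x,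
    ?_, Finset.filter_subset _ _, fun x hx y hy hyC hR => hyC ?_⟩
  · rw [Finset.mem_filter]
    exact ⟨self_mem_Q _ _, SimpleGraph.Reachable.refl _⟩
  · rw [Finset.mem_filter] at hx ⊢
    have hxL : x ∈ Q a L := Q_mono (Nat.sub_le _ _) hx.1
    have hyL : y ∈ Q a L := by
      have := Q_trans hx.1 (nb_Q hy)
      rwa [hL'] at this
    have hxo : bo K ω E x = true := reach_open hx.2 (bo_iff.2 ha)
    have h2 : (SG (bo K ω E) (Q a L : Set (V d))).Reachable a y :=
      hx.2.trans (SimpleGraph.Adj.reachable ⟨hxL, hyL, hy, hxo, bo_iff.2 hR⟩)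
    exact ⟨hQ y h2, h2⟩

lemma good_of_J2 (hd : 1 ≤ d) {K τ E : ℝ} {L : ℕ} (hL : 1 ≤ L) (hK : 0 < K) (hτ : 0 < τ)
    (hτ1 : τ ≤ 1) {ω : V d → ℝ} {a : V d} (h : J2 K τ L ω E a) :
    Good ω E L (τ⁻¹ * (2 * d * (2 * L + 1) ^ d) * (2 * d / K)) a := by
  intro ε u S hu hS
  have hd' : (1 : ℝ) ≤ d := by exact_mod_cast hd
  have hS0 : 0 ≤ S := (norm_nonneg _).trans (hS a (self_mem_Q a _))
  have hnr : ∀ y ∈ Q a L, ¬ Rs K ω E y → ‖u y‖ ≤ 2 * d / K * S := by
    intro y hy hyR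
    refine bound_of_not_Rs hK hyR (hu y hy) fun z hz => hS z ?_
    exact Q_trans hy (nb_Q hz)
  have hpow : (1 : ℝ) ≤ (2 * L + 1) ^ d := by
    apply one_le_pow₀
    have : (0 : ℝ) ≤ L := Nat.cast_nonneg L
    linarith
  have hτi : 1 ≤ τ⁻¹ := (one_le_inv₀ hτ).2 hτ1
  have hbig : (1 : ℝ) ≤ τ⁻¹ * (2 * d * (2 * L + 1) ^ d) := by
    have h1 : (1 : ℝ) ≤ 2 * d * (2 * L + 1) ^ d := by nlinarith
    nlinarith
  have hT0 : 0 ≤ 2 * d / K * S := by positivity
  by_cases ha : Rs K ω E a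
  · obtain ⟨C, haC, hCQ, hC⟩ := exists_cluster2 ha hL h.1
    have hCQL : C ⊆ Q a L := hCQ.trans (Q_mono (Nat.sub_le _ _))
    have hNR := h.2 C (Finset.mem_powerset.2 hCQL)
    have h1 := bound_of_NR' hτ hNR (u := u) (ε := ε) (fun x hx => hu x (hCQL hx)) hT0
      (fun x hx y hy hyC => hnr y (by
        have := Q_trans (hCQ hx) (nb_Q hy)
        rwa [Nat.sub_add_cancel hL] at this) (hC x hx y hy hyC)) a haC
    refine h1.trans ?_
    have hcard : (C.card : ℝ) ≤ (2 * L + 1) ^ d := by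
      have h2 := Finset.card_le_card hCQL
      rw [card_Q] at h2
      exact_mod_cast h2
    calc τ⁻¹ * (2 * d * C.card) * (2 * d / K * S) ≤
        τ⁻¹ * (2 * d * (2 * L + 1) ^ d) * (2 * d / K * S) := by gcongr
      _ = _ := by ring
  · refine (hnr a (self_mem_Q a L) ha).trans ?_
    calc 2 * d / K * S = 1 * (2 * d / K * S) := by ring
      _ ≤ τ⁻¹ * (2 * d * (2 * L + 1) ^ d) * (2 * d / K * S) :=
          mul_le_mul_of_nonneg_right hbig hT0
      _ = _ := by ring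

lemma dep_J2 (K τ : ℝ) {L : ℕ} (hL : 1 ≤ L) (E : ℝ) (a : V d) :
    Dep (Q a L) {ω | J2 K τ L ω E a} := by
  rintro ω ω' h1 ⟨h2, h3⟩
  refine ⟨fun hc => h2 ?_, fun D hD => ?_⟩
  · refine (dep_AR (L - 1) ∅ a (by simp) (bo K ω E) (bo K ω' E) ?_).2 hc
    intro c hc2
    have hc3 : c ∈ Q a L := by
      have := hc2.1
      rwa [Nat.sub_add_cancel hL] at this
    unfold bo Rs
    rw [h1 c hc3]
  · exact dep_NR E D τ ω ω' (fun x hx => h1 x (Finset.mem_powerset.1 hD hx)) (h3 D hD)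

lemma measurable_bo (K : ℝ) : Measurable fun p : (V d → ℝ) × ℝ => bo K p.1 p.2 := by
  refine measurable_pi_iff.2 fun x => measurable_to_bool ?_
  have : (fun p : (V d → ℝ) × ℝ => bo K p.1 p.2 x) ⁻¹' {true} =
      {p : (V d → ℝ) × ℝ | Rs K p.1 p.2 x} := by
    ext p
    simp only [Set.mem_preimage, Set.mem_singleton_iff, Set.mem_ofPred_eq]
    exact bo_iff
  rw [this]
  exact meas_Rs K x

lemma meas_J2 (K τ : ℝ) (L : ℕ) (a : V d) :
    MeasurableSet {p : (V d → ℝ) × ℝ | J2 K τ L p.1 p.2 a} :=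
  (measurable_bo K (meas_AR (L - 1) ∅ a (by simp))).compl.inter (meas_NA τ L a)

variable (ν : Measure ℝ) [IsProbabilityMeasure ν]

/-- the law of the resonant sites -/
lemma map_bo (K E : ℝ) : ∃ b : unitInterval, (b : ℝ) = ν.real {v | |2 * d + v - E| ≤ K} ∧
    (PP d ν).map (fun ω => bo K ω E) = pm (fun _ : V d => b) := by
  classical
  set f : ℝ → Bool := fun v => decide (|2 * (d : ℝ) + v - E| ≤ K) with hf
  have hms : MeasurableSet {v : ℝ | |2 * (d : ℝ) + v - E| ≤ K} :=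
    (isClosed_le (by fun_prop) continuous_const).measurableSet
  have hpre : f ⁻¹' {true} = {v : ℝ | |2 * (d : ℝ) + v - E| ≤ K} := by
    ext v
    simp [hf]
  have hfm : Measurable f := measurable_to_bool (by rw [hpre]; exact hms)
  refine ⟨⟨ν.real {v | |2 * d + v - E| ≤ K}, measureReal_nonneg, measureReal_le_one⟩, rfl, ?_⟩
  have h1 : (fun ω : V d → ℝ => bo K ω E) = fun ω x => f (ω x) := by
    funext ω x
    unfold bo Rs
    simp only [hf]
  rw [h1]
  unfold PP pm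
  rw [Measure.infinitePi_map_pi (μ := fun _ : V d => ν) (fun _ => hfm)]
  congr 1
  funext x
  have : IsProbabilityMeasure (ν.map f) := Measure.isProbabilityMeasure_map hfm.aemeasurable
  have htrue : (ν.map f) {true} = ν {v : ℝ | |2 * (d : ℝ) + v - E| ≤ K} := by
    rw [Measure.map_apply hfm (MeasurableSet.singleton _), hpre]
  have hfalse : (ν.map f) {false} = 1 - ν {v : ℝ | |2 * (d : ℝ) + v - E| ≤ K} := by
    have h2 : ({false} : Set Bool) = {true}ᶜ := by
      ext b; cases b <;> simp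
    rw [h2, prob_compl_eq_one_sub (MeasurableSet.singleton _), htrue]
  refine Measure.ext_of_singleton ?_
  intro b
  cases b
  · rw [hfalse, Pool.Agent.W45.PC.bern_false]
    rw [ENNReal.ofReal_sub _ measureReal_nonneg, ENNReal.ofReal_one]
    congr 1
    unfold Measure.real
    rw [ENNReal.ofReal_toReal (measure_ne_top _ _)]
  · rw [htrue, Pool.Agent.W45.PC.bern_true]
    unfold Measure.real
    rw [ENNReal.ofReal_toReal (measure_ne_top _ _)]

/-- probability of the initial event -/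
lemma prob_J2 {K τ E δ η : ℝ} {n : ℕ} {a₁ : unitInterval}
    (hp : ν {v | |2 * d + v - E| ≤ K} ≤ ENNReal.ofReal a₁)
    (hη : (pm fun _ : V d => a₁).real (AR n ∅ (0 : V d)) ≤ η)
    (hE : E ∈ YY d ν τ δ (n + 1)) (a : V d) :
    (PP d ν).real {ω | ¬ J2 K τ (n + 1) ω E a} ≤ η + δ := by
  obtain ⟨b, hb, hmap⟩ := map_bo (d := d) ν K E
  have hba : b ≤ a₁ := by
    rw [← Subtype.coe_le_coe, hb]
    exact ENNReal.toReal_le_of_le_ofReal a₁.2.1 hp
  have hmA : MeasurableSet (AR n ∅ a : Set (V d → Bool)) := meas_AR n ∅ a (by simp)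
  have h2 : (PP d ν).real {ω | bo K ω E ∈ AR n ∅ a} ≤ η := by
    have hm2 : Measurable fun ω : V d → ℝ => bo K ω E :=
      (measurable_bo K).comp (measurable_id.prodMk measurable_const)
    have h3 : (PP d ν) {ω | bo K ω E ∈ AR n ∅ a} = (pm fun _ : V d => b) (AR n ∅ a) := by
      rw [← hmap, Measure.map_apply hm2 hmA]
      rfl
    have h4 : (PP d ν).real {ω | bo K ω E ∈ AR n ∅ a} ≤
        (pm fun _ : V d => a₁).real (AR n ∅ a) := by
      unfold Measure.real
      rw [h3]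
      exact ENNReal.toReal_mono (measure_ne_top _ _)
        (Pool.Agent.W400.PC.s_mono _ _ _ _ (fun _ => hba) (AR_inc _ _ _) hmA)
    exact h4.trans ((prob_AR_shift a₁ n a).trans hη)
  have h1 : {ω : V d → ℝ | ¬ J2 K τ (n + 1) ω E a} ⊆
      {ω | bo K ω E ∈ AR n ∅ a} ∪ {ω | ¬ NA τ (n + 1) ω E a} := by
    intro ω hω
    by_contra hc
    simp only [Set.mem_union, not_or, Set.mem_ofPred_eq, not_not] at hc
    exact hω ⟨by simpa using hc.1, hc.2⟩
  refine (measureReal_mono h1 (measure_ne_top _ _)).trans ((measureReal_union_le _ _).trans ?_)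
  exact add_le_add h2 ((prob_NA ν τ (n + 1) E a).trans hE)

end Pool.Agent.K7.H96.HDG
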