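import Pool.Agent.K7.H96.HDG.Pg

set_option autoImplicit false

/-! The argument of Duminil-Copin and Tassion for site percolation on `ℤ^d` (adapted from
`Pool.Agent.W462.PC.DctS`). -/

namespace Pool.Agent.K7.H96.HDG

open MeasureTheory Set
open Pool.Agent.W783.PC (pm bern DepOn Inc)
open Pool.Agent.W424.PC (upd upd_self upd_ne upd_of Piv EE I1 dep_mono dep_Piv meas_coord
  pm_eq_EE russo_pm piv_closed)
open Pool.Agent.H12R2.And (V ee Q mem_Q card_Q self_mem_Q Q_mono Q_trans Q_symm)
open Pool.Agent.W45.PC (s_indep s_depmeas)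
open Pool.Agent.W400.PC (s_mono)

variable {d : ℕ}

/-- The differential inequality of Duminil-Copin and Tassion. -/
lemma piv_lower (hd1 : 1 ≤ d) (r : V d → unitInterval) (k : ℕ)
    (hphi : ∀ S : Finset (V d), (0 : V d) ∈ S → S ⊆ Q (0 : V d) k →
      1 ≤ ∑ y ∈ S, ∑ _z ∈ nb y \ S, (pm r).real (Cn (S : Set (V d)) 0 y)) :
    1 - (pm r).real (arm d k) ≤
      (2 * d) * ∑ v ∈ Q (0 : V d) (k + 1),
        (pm r).real (Piv (arm d k) v ∩ {ω | ω v = false}) := by
  classical
  have hd' : (1 : ℝ) ≤ d := by exact_mod_cast hd1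
  set c : ℝ := 2 * d with hc0
  have hc1 : 1 ≤ c := by rw [hc0]; linarith
  set bF := Q (0 : V d) (k + 1) with hbFd
  set μ := pm r with hμ
  set R : Set (V d) := (bF : Set (V d)) with hR
  have hbF : ∀ v, v ∈ bF ↔ v ∈ R := fun v => Iff.rfl
  have h0R : (0 : V d) ∈ R := self_mem_Q _ _
  set EC : Finset (V d) → Set (V d → Bool) := fun C => {ω | clu ω R (Bd k) = (C : Set (V d))}
    with hEC
  set Cs : Finset (Finset (V d)) := bF.powerset.filter (fun C => (0 : V d) ∉ C) with hCs
  have hin : ∀ ω, ∀ v ∈ clu ω R (Bd k), v ∈ R := by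
    rintro ω v ⟨a, ha, ho, hr⟩
    exact reach_mem hr ha.1
  have harm : ∀ ω, ω ∈ arm d k ↔ (0 : V d) ∈ clu ω R (Bd k) := fun ω => Iff.rfl
  have mdep : ∀ (A : Set (V d → Bool)), DepOn A R → MeasurableSet A := fun A hA => meas_dep hA
  have wsub : ∀ C : Set (V d), wS R (Bd k) C ⊆ R := fun C c hc => hc.1
  have mEC : ∀ C, MeasurableSet (EC C) := fun C =>
    mdep _ (dep_mono (dep_clu R (Bd k) (C : Set (V d)) (Bd_sub k)) (wsub _))
  have hdisj : ∀ C C' : Finset (V d), C ≠ C' → Disjoint (EC C) (EC C') := by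
    intro C C' hne
    rw [Set.disjoint_left]
    intro ω h1 h2
    apply hne
    have h1' : clu ω R (Bd k) = (C : Set (V d)) := h1
    have h2' : clu ω R (Bd k) = (C' : Set (V d)) := h2
    exact Finset.coe_injective (h1'.symm.trans h2')
  have hcompl : (arm d k)ᶜ = ⋃ C ∈ Cs, EC C := by
    ext ω
    rw [mem_compl_iff, harm]
    simp only [mem_iUnion, exists_prop]
    constructor
    · intro h
      refine ⟨bF.filter (fun v => v ∈ clu ω R (Bd k)), ?_, ?_⟩
      · rw [hCs, Finset.mem_filter, Finset.mem_powerset]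
        refine ⟨Finset.filter_subset _ _, ?_⟩
        rw [Finset.mem_filter]; exact fun h' => h h'.2
      · show clu ω R (Bd k) = _
        ext v
        rw [Finset.mem_coe, Finset.mem_filter, hbF]
        exact ⟨fun h => ⟨hin ω v h, h⟩, fun h => h.2⟩
    · rintro ⟨C, hC, hE'⟩
      have hE'' : clu ω R (Bd k) = (C : Set (V d)) := hE'
      rw [hCs, Finset.mem_filter] at hC
      rw [hE'']
      exact hC.2
  have marm : MeasurableSet (arm d k) := mdep _ (arm_dep k)
  have hone : 1 - μ.real (arm d k) = ∑ C ∈ Cs, μ.real (EC C) := by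
    have h1 := probReal_compl_eq_one_sub (μ := μ) marm
    rw [← h1, hcompl, measureReal_biUnion_finset]
    · intro C _ C' _ hne
      exact hdisj C C' hne
    · intro C _; exact mEC C
  -- pivotal sites
  have hpiv : ∀ (C : Finset (V d)) (v : V d) (ω : V d → Bool), ω ∈ EC C → (0 : V d) ∉ C →
      v ∈ wS R (Bd k) (C : Set (V d)) → v ∉ C →
      (0 : V d) ∈ clu (upd v true ω) R (Bd k) →
      ω ∈ (Piv (arm d k) v ∩ {ω | ω v = false}) ∩ EC C := by
    intro C v ω hω h0 hv hvC h1
    have hcl : clu ω R (Bd k) = (C : Set (V d)) := hω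
    have hclosed := wS_closed (Bd_sub k) hcl hv (by simpa using hvC)
    refine ⟨⟨⟨h1, ?_⟩, hclosed⟩, hω⟩
    rw [upd_of hclosed, harm, hcl]
    exact fun h => h0 (by simpa using h)
  -- lower bound for a single C
  have hC : ∀ C ∈ Cs, μ.real (EC C) ≤ c * ∑ v ∈ bF, μ.real ((Piv (arm d k) v ∩
      {ω | ω v = false}) ∩ EC C) := by
    intro C hC
    rw [hCs, Finset.mem_filter, Finset.mem_powerset] at hC
    obtain ⟨hC1, hC2⟩ := hC
    have hterm : ∀ v ∈ bF, 0 ≤ μ.real ((Piv (arm d k) v ∩ {ω | ω v = false}) ∩ EC C) :=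
      fun _ _ => measureReal_nonneg
    by_cases h0W : (0 : V d) ∈ wS R (Bd k) (C : Set (V d))
    · -- the origin is pivotal
      have h1 : EC C ⊆ (Piv (arm d k) (0 : V d) ∩ {ω | ω (0 : V d) = false}) ∩ EC C := by
        intro ω hω
        have hcl : clu ω R (Bd k) = (C : Set (V d)) := hω
        exact hpiv C 0 ω hω hC2 h0W hC2 (wS_piv (Bd_sub k) hcl h0W (by simpa using hC2))
      have h2 := measureReal_mono h1 (measure_ne_top μ _)
      have h3 := Finset.single_le_sum hterm ((hbF 0).2 h0R)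
      have h4 : 0 ≤ ∑ v ∈ bF, μ.real ((Piv (arm d k) v ∩ {ω | ω v = false}) ∩ EC C) :=
        Finset.sum_nonneg hterm
      calc μ.real (EC C) ≤ 1 * ∑ v ∈ bF, μ.real ((Piv (arm d k) v ∩
            {ω | ω v = false}) ∩ EC C) := by rw [one_mul]; exact h2.trans h3
        _ ≤ _ := mul_le_mul_of_nonneg_right hc1 h4
    set S : Finset (V d) := bF.filter (fun v => v ∉ wS R (Bd k) (C : Set (V d))) with hS
    have h0S : (0 : V d) ∈ S := by
      rw [hS, Finset.mem_filter, hbF]
      exact ⟨h0R, h0W⟩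
    have hSmem : ∀ x ∈ S, x ∈ R ∧ x ∉ wS R (Bd k) (C : Set (V d)) := by
      intro x hx
      rw [hS, Finset.mem_filter, hbF] at hx
      exact hx
    have hSQ : S ⊆ Q (0 : V d) k := by
      intro x hx
      obtain ⟨h1, h2⟩ := hSmem x hx
      by_contra h3
      exact h2 ⟨h1, Or.inl ⟨h1, h3⟩⟩
    have hDmem : ∀ y ∈ S, ∀ v ∈ nb y \ S, v ∈ wS R (Bd k) (C : Set (V d)) := by
      intro y hy v hv
      rw [Finset.mem_sdiff] at hv
      have h1 : v ∈ bF := Q_trans (hSQ hy) (nb_Q hv.1)
      by_contra h3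
      exact hv.2 (by rw [hS, Finset.mem_filter]; exact ⟨h1, h3⟩)
    have hz : ∀ y ∈ S, ∀ z ∈ nb y \ S, μ.real (EC C) * μ.real (Cn (S : Set (V d)) 0 y) ≤
        μ.real ((Piv (arm d k) z ∩ {ω | ω z = false}) ∩ EC C) := by
      intro y g1 z g2
      have g3 : z ∈ nb y := (Finset.mem_sdiff.1 g2).1
      have hSB : (S : Set (V d)) ⊆ R := fun x hx => (hSmem x hx).1
      have dr : DepOn (Cn (S : Set (V d)) 0 y) (S : Set (V d)) := dep_Cn _ _ _ h0S
      have hind := s_indep (V d) r (wS R (Bd k) (C : Set (V d))) (S : Set (V d)) (EC C)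
        (Cn (S : Set (V d)) 0 y) (dep_clu R (Bd k) (C : Set (V d)) (Bd_sub k)) dr
        (by
          rw [Set.disjoint_left]
          intro x hx hxS
          exact (hSmem x hxS).2 hx) (mEC C) (meas_dep dr)
      have hindr : μ.real (EC C) * μ.real (Cn (S : Set (V d)) 0 y) =
          μ.real (EC C ∩ Cn (S : Set (V d)) 0 y) := by
        unfold Measure.real
        rw [hind, ENNReal.toReal_mul]
      rw [hindr]
      refine measureReal_mono ?_ (measure_ne_top _ _)
      rintro ω ⟨hω, h0, hr⟩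
      have hcl : clu ω R (Bd k) = (C : Set (V d)) := hω
      have g2' : z ∈ wS R (Bd k) (C : Set (V d)) := hDmem y g1 z g2
      have hvC : z ∉ C := by
        intro h
        exact (hSmem y g1).2 ⟨(hSmem y g1).1, Or.inr (Or.inr ⟨z, h, nb_symm g3⟩)⟩
      refine hpiv C z ω hω hC2 g2' hvC ?_
      have h5 := wS_piv (Bd_sub k) hcl g2' (by simpa using hvC)
      obtain ⟨a, ha, ho, hra⟩ := h5
      refine ⟨a, ha, ho, hra.trans (SimpleGraph.Reachable.trans ?_
        ((hr.mono (SG_mono hSB)).mono (SG_le (R := R) (upd_le z ω))).symm)⟩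
      refine SimpleGraph.Adj.reachable ⟨g2'.1, (hSmem y g1).1, nb_symm g3, upd_self _ _ _, ?_⟩
      exact upd_le z ω _ (reach_open hr h0)
    have hsum1 := hphi S h0S hSQ
    calc μ.real (EC C) ≤ μ.real (EC C) *
          ∑ y ∈ S, ∑ z ∈ nb y \ S, μ.real (Cn (S : Set (V d)) 0 y) := by
          have : 0 ≤ μ.real (EC C) := measureReal_nonneg
          nlinarith
      _ = ∑ y ∈ S, ∑ z ∈ nb y \ S, μ.real (EC C) * μ.real (Cn (S : Set (V d)) 0 y) := by
          rw [Finset.mul_sum]
          exact Finset.sum_congr rfl fun y _ => by rw [Finset.mul_sum]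
      _ ≤ ∑ y ∈ S, ∑ z ∈ nb y \ S, μ.real ((Piv (arm d k) z ∩
          {ω | ω z = false}) ∩ EC C) :=
          Finset.sum_le_sum fun y hy => Finset.sum_le_sum fun z hz' => hz y hy z hz'
      _ ≤ ∑ y ∈ S, ∑ z ∈ bF.filter (fun z => z ∈ nb y), μ.real ((Piv (arm d k) z ∩
          {ω | ω z = false}) ∩ EC C) := by
          refine Finset.sum_le_sum fun y hy => Finset.sum_le_sum_of_subset_of_nonneg ?_
            fun _ _ _ => measureReal_nonneg
          intro z hz'
          rw [Finset.mem_filter]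
          exact ⟨Q_trans (hSQ hy) (nb_Q (Finset.mem_sdiff.1 hz').1), (Finset.mem_sdiff.1 hz').1⟩
      _ = ∑ v ∈ bF, ∑ y ∈ S, if v ∈ nb y then μ.real ((Piv (arm d k) v ∩
          {ω | ω v = false}) ∩ EC C) else 0 := by
          rw [Finset.sum_comm]
          exact Finset.sum_congr rfl fun y _ => by rw [Finset.sum_filter]
      _ ≤ ∑ v ∈ bF, c * μ.real ((Piv (arm d k) v ∩ {ω | ω v = false}) ∩ EC C) := by
          refine Finset.sum_le_sum fun v _ => ?_
          rw [← Finset.sum_filter, Finset.sum_const, nsmul_eq_mul]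
          refine mul_le_mul_of_nonneg_right ?_ measureReal_nonneg
          have h1 : (S.filter fun y => v ∈ nb y) ⊆ nb v := by
            intro y hy
            exact nb_symm (Finset.mem_filter.1 hy).2
          have h2 := (Finset.card_le_card h1).trans (card_nb v)
          rw [hc0]
          exact_mod_cast h2
      _ = _ := by rw [Finset.mul_sum]
  rw [hone]
  calc ∑ C ∈ Cs, μ.real (EC C) ≤ ∑ C ∈ Cs, c * ∑ v ∈ bF, μ.real ((Piv (arm d k) v ∩
      {ω | ω v = false}) ∩ EC C) := Finset.sum_le_sum hC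
    _ = c * ∑ v ∈ bF, ∑ C ∈ Cs, μ.real ((Piv (arm d k) v ∩ {ω | ω v = false}) ∩ EC C) := by
        rw [← Finset.mul_sum, Finset.sum_comm]
    _ ≤ c * ∑ v ∈ bF, μ.real (Piv (arm d k) v ∩ {ω | ω v = false}) := by
        refine mul_le_mul_of_nonneg_left ?_ (by linarith)
        refine Finset.sum_le_sum fun v hv => ?_
        have hmeas : MeasurableSet (Piv (arm d k) v ∩ {ω | ω v = false}) :=
          (mdep _ (dep_Piv (arm_dep k) _)).inter (meas_coord _ false)
        rw [← measureReal_biUnion_finset]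
        · refine measureReal_mono ?_ (measure_ne_top _ _)
          refine Set.iUnion₂_subset fun C _ => inter_subset_left
        · intro C _ C' _ hne
          exact Set.disjoint_of_subset inter_subset_right inter_subset_right (hdisj C C' hne)
        · intro C _; exact hmeas.inter (mEC C)

/-- the functional of Duminil-Copin and Tassion -/
noncomputable def phi (a : unitInterval) (S : Finset (V d)) : ℝ :=
  ∑ y ∈ S, ∑ _z ∈ nb y \ S, (pm fun _ : V d => a).real (Cn (S : Set (V d)) 0 y)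

/-- the arm probabilities are bounded from below -/
lemma arm_lower (hd1 : 1 ≤ d) (p p' : unitInterval) (hpp : p < p')
    (hcon : ∀ S : Finset (V d), 0 ∈ S → 1 ≤ phi p S) (k : ℕ) :
    1 - Real.exp (-(((p' : ℝ) - p) / (2 * d))) ≤ (pm fun _ : V d => p').real (arm d k) := by
  classical
  have hd' : (1 : ℝ) ≤ d := by exact_mod_cast hd1
  set c : ℝ := 2 * d with hc0
  set E : Finset (V d) := Q (0 : V d) (k + 1) with hEdef
  have hdep : DepOn (arm d k) (E : Set (V d)) := arm_dep k
  set F : ℝ → ℝ := fun t => EE E (fun _ => t) (I1 (arm d k)) with hF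
  have hFq : ∀ q : unitInterval, F q = (pm fun _ : V d => q).real (arm d k) := by
    intro q
    rw [pm_eq_EE s_indep s_depmeas _ hdep]
  have hder : ∀ t : ℝ, (p : ℝ) ≤ t → t ≤ p' → ∃ D, HasDerivAt F D t ∧ 1 - F t ≤ c * D := by
    intro t h1 h2
    have ht0 : 0 ≤ t := le_trans p.2.1 h1
    have ht1 : t ≤ 1 := le_trans h2 p'.2.2
    set q : unitInterval := ⟨t, ht0, ht1⟩ with hq
    have hpq : p ≤ q := h1
    have hd := russo_pm s_indep s_depmeas (fun _ : V d => q) hdep (arm_inc k) (fun t _ => t)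
      (fun _ => 1) t (fun _ => hasDerivAt_id' t) (fun _ => rfl)
    refine ⟨_, hd, ?_⟩
    have h3 := piv_lower hd1 (fun _ : V d => q) k (by
        intro S h0 hS
        refine (hcon S h0).trans ?_
        unfold phi
        refine Finset.sum_le_sum fun y hy => Finset.sum_le_sum fun z hz => ?_
        exact ENNReal.toReal_mono (measure_ne_top _ _)
          (s_mono _ _ _ _ (fun _ => hpq) (Cn_inc _ _ _) (meas_dep (dep_Cn _ _ _ h0))))
    have h4 : F t = (pm fun _ : V d => q).real (arm d k) := hFq q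
    rw [h4]
    refine h3.trans ?_
    refine mul_le_mul_of_nonneg_left ?_ (by positivity)
    refine Finset.sum_le_sum fun v hv => ?_
    rw [piv_closed s_indep s_depmeas _ hdep hv]
    have h7 : 0 ≤ (pm fun _ : V d => q).real (Piv (arm d k) v) := measureReal_nonneg
    have h8 : (q : ℝ) = t := rfl
    rw [h8, one_mul]
    nlinarith
  set g : ℝ → ℝ := fun t => (1 - F t) * Real.exp (t / c) with hg
  have hcpos : 0 < c := by rw [hc0]; linarith
  have hgder : ∀ t : ℝ, (p : ℝ) ≤ t → t ≤ p' → ∃ D, HasDerivAt g D t ∧ D ≤ 0 := by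
    intro t h1 h2
    obtain ⟨D, hD, hD2⟩ := hder t h1 h2
    have he : HasDerivAt (fun t : ℝ => Real.exp (t / c)) (Real.exp (t / c) * (1 / c)) t :=
      ((hasDerivAt_id' t).div_const c).exp
    have h3 := ((hasDerivAt_const t (1 : ℝ)).sub hD).mul he
    refine ⟨_, h3, ?_⟩
    simp only [Pi.sub_apply]
    have h4 := Real.exp_pos (t / c)
    have h5 : (1 - F t) * (1 / c) ≤ D := by
      rw [mul_one_div, div_le_iff₀ hcpos]
      linarith
    nlinarith
  have hpp' : (p : ℝ) < p' := hpp
  have hanti : AntitoneOn g (Set.Icc (p : ℝ) p') := by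
    refine antitoneOn_of_deriv_nonpos (convex_Icc _ _) ?_ ?_ ?_
    · intro t ht
      obtain ⟨D, hD, _⟩ := hgder t ht.1 ht.2
      exact hD.continuousAt.continuousWithinAt
    · intro t ht
      rw [interior_Icc] at ht
      obtain ⟨D, hD, _⟩ := hgder t ht.1.le ht.2.le
      exact hD.differentiableAt.differentiableWithinAt
    · intro t ht
      rw [interior_Icc] at ht
      obtain ⟨D, hD, hD2⟩ := hgder t ht.1.le ht.2.le
      rw [hD.deriv]; exact hD2
  have h1 := hanti (Set.left_mem_Icc.2 hpp'.le) (Set.right_mem_Icc.2 hpp'.le) hpp'.le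
  have h3 : 0 ≤ F p := by rw [hFq p]; exact measureReal_nonneg
  rw [← hFq p']
  simp only [hg] at h1
  have h4 : (1 - F p) * Real.exp (p / c) ≤ Real.exp (p / c) := by
    have := Real.exp_pos ((p : ℝ) / c)
    nlinarith
  have h5 : (1 - F p') ≤ Real.exp (-(((p' : ℝ) - p) / c)) := by
    have h6 : Real.exp (-(((p' : ℝ) - p) / c)) * Real.exp (p' / c) = Real.exp (p / c) := by
      rw [← Real.exp_add]; congr 1; field_simp; ring
    have h7 := Real.exp_pos ((p' : ℝ) / c)
    have h8 : (1 - F p') * Real.exp (p' / c) ≤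
        Real.exp (-(((p' : ℝ) - p) / c)) * Real.exp (p' / c) := by rw [h6]; linarith
    exact le_of_mul_le_mul_right h8 h7
  linarith

/-- the cluster of `0` is infinite -/
def Inf (d : ℕ) : Set (V d → Bool) :=
  {ω | {y | ω 0 = true ∧ (SG ω univ).Reachable 0 y}.Infinite}

lemma meas_reach (x y : V d) : MeasurableSet {ω : V d → Bool | (SG ω univ).Reachable x y} := by
  have : {ω : V d → Bool | (SG ω univ).Reachable x y} =
      ⋃ k : ℕ, {ω : V d → Bool | (SG ω (Q x k : Set (V d))).Reachable x y} := by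
    ext ω
    simp only [mem_ofPred_eq, mem_iUnion]
    constructor
    · intro h
      rw [SimpleGraph.reachable_iff_reflTransGen] at h
      induction h with
      | refl => exact ⟨0, SimpleGraph.Reachable.refl _⟩
      | @tail u v hu huv ih =>
        obtain ⟨k, hk⟩ := ih
        have h1 : u ∈ (Q x k : Set (V d)) := reach_mem hk (self_mem_Q _ _)
        refine ⟨k + 1, (hk.mono (SG_mono ?_)).trans (SimpleGraph.Adj.reachable ?_)⟩
        · exact_mod_cast Q_mono (Nat.le_succ k)
        · exact ⟨Q_mono (Nat.le_succ k) h1, Q_trans h1 (nb_Q huv.2.2.1), huv.2.2.1, huv.2.2.2⟩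
    · rintro ⟨k, hk⟩
      exact hk.mono (SG_mono (subset_univ _))
  rw [this]
  refine MeasurableSet.iUnion fun k => ?_
  refine meas_dep (F := Q x k) ?_
  intro ω ω' h
  simp only [mem_ofPred_eq]
  rw [SG_congr h]

/-- Duminil-Copin and Tassion for site percolation -/
theorem dct (hd1 : 1 ≤ d) {p p' : unitInterval} (hpp : p < p')
    (h0 : (pm fun _ : V d => p').real (Inf d) = 0) :
    ∃ S : Finset (V d), 0 ∈ S ∧ phi p S < 1 := by
  classical
  by_contra hcon
  push Not at hcon
  have hd' : (1 : ℝ) ≤ d := by exact_mod_cast hd1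
  set μ := pm fun _ : V d => p' with hμ
  set B : ℕ → Set (V d → Bool) := fun k =>
    {ω | ω 0 = true ∧ ∃ y : V d, y ∉ Q (0 : V d) k ∧ (SG ω univ).Reachable 0 y} with hB
  have hBm : ∀ k, MeasurableSet (B k) := by
    intro k
    have : B k = {ω | ω 0 = true} ∩ ⋃ y : V d, ⋃ (_ : y ∉ Q (0 : V d) k),
        {ω | (SG ω univ).Reachable 0 y} := by
      ext ω; simp [hB]
    rw [this]
    exact (meas_coord _ _).inter
      (MeasurableSet.iUnion fun y => MeasurableSet.iUnion fun _ => meas_reach _ _)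
  have hBanti : Antitone B := by
    intro k l hkl ω hω
    obtain ⟨h1, y, hy, hr⟩ := hω
    exact ⟨h1, y, fun h => hy (Q_mono hkl h), hr⟩
  have hsubP : (⋂ k, B k) ⊆ Inf d := by
    intro ω hω
    rw [mem_iInter] at hω
    show ({y | ω 0 = true ∧ (SG ω univ).Reachable 0 y}).Infinite
    intro hfin
    obtain ⟨M, hM⟩ : ∃ M : ℕ, ∀ v ∈ hfin.toFinset, v ∈ Q (0 : V d) M := by
      refine ⟨∑ v ∈ hfin.toFinset, ∑ i, (v i).natAbs, fun v hv => ?_⟩
      have h1 := Finset.single_le_sum (f := fun v : V d => ∑ i, (v i).natAbs)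
          (fun _ _ => Nat.zero_le _) hv
      rw [mem_Q]
      intro i
      have h3 : (v i).natAbs ≤ ∑ i, (v i).natAbs :=
        Finset.single_le_sum (f := fun i => (v i).natAbs) (fun _ _ => Nat.zero_le _)
          (Finset.mem_univ i)
      have h2 := h3.trans h1
      rw [Pi.zero_apply, sub_zero, Int.abs_eq_natAbs]
      exact_mod_cast h2
    obtain ⟨h1, y, hy, hr⟩ := hω M
    exact hy (hM y (by rw [Set.Finite.mem_toFinset]; exact ⟨h1, hr⟩))
  have hlow : ∀ k, 1 - Real.exp (-(((p' : ℝ) - p) / (2 * d))) ≤ μ.real (B k) := by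
    intro k
    refine (arm_lower hd1 p p' hpp hcon k).trans ?_
    refine measureReal_mono ?_ (measure_ne_top _ _)
    rintro ω ⟨b, hb, ho, hr⟩
    exact ⟨reach_open hr ho, b, hb.2, (hr.mono (SG_mono (subset_univ _))).symm⟩
  have hlim := tendsto_measure_iInter_atTop (μ := μ) (s := B)
    (fun k => (hBm k).nullMeasurableSet) hBanti ⟨0, measure_ne_top _ _⟩
  have hP : 1 - Real.exp (-(((p' : ℝ) - p) / (2 * d))) ≤ μ.real (⋂ k, B k) := by
    have h1 : Filter.Tendsto (fun k => μ.real (B k)) Filter.atTop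
        (nhds (μ.real (⋂ k, B k))) := by
      unfold Measure.real
      exact (ENNReal.tendsto_toReal (measure_ne_top _ _)).comp hlim
    exact ge_of_tendsto' h1 hlow
  have hP2 : μ.real (⋂ k, B k) ≤ μ.real (Inf d) := measureReal_mono hsubP (measure_ne_top _ _)
  have hexp : Real.exp (-(((p' : ℝ) - p) / (2 * d))) < 1 := by
    rw [Real.exp_lt_one_iff]
    have h1 : (p : ℝ) < p' := hpp
    have h2 : 0 < ((p' : ℝ) - p) / (2 * d) := div_pos (by linarith) (by linarith)
    linarith
  rw [h0] at hP2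
  linarith

end Pool.Agent.K7.H96.HDG
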