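import Pool.Agent.K7.H96.HDG.Bc
import Pool.Agent.H12R2.And11

set_option autoImplicit false

/-! The operator on `ℓ²`, the decoupling estimate and the absence of absolutely continuous spectrum
from a good initial scale. -/

namespace Pool.Agent.K7.H96.HDG

open Finset Complex MeasureTheory ProbabilityTheory Filter
open scoped ENNReal Topology InnerProductSpace
open Pool.Agent.H12R2.And (V ee Q mem_Q card_Q self_mem_Q Q_mono Q_trans Q_symm add_ee_mem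
  sub_ee_mem sum_ite_supp finrank_D mem_Q_shift sum_Q_shift numeric_step numeric_prob Rz sub_Rz
  norm_Rz_le gg singular_on fin_dense mutuallySingular_of_rnDeriv)

variable {d : ℕ}

/-- `H` acts as `-(discrete Laplacian) + ω` -/
def IsH (ω : V d → ℝ) (H : lp (fun _ : V d => ℂ) 2 →L[ℂ] lp (fun _ : V d => ℂ) 2) : Prop :=
  ∀ (u : lp (fun _ : V d => ℂ) 2) (j : V d), (H u) j = hop ω u j

lemma hop_single (ω : V d → ℝ) (i j : V d) :
    hop ω (Pi.single j (1 : ℂ) : V d → ℂ) i = (ker ω i j : ℂ) := by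
  rw [hop_eq_ker (D := {j}) (v := (Pi.single j (1 : ℂ) : V d → ℂ))]
  · simp
  · intro x hx
    rw [Finset.mem_singleton] at hx
    exact Pi.single_eq_of_ne hx _

lemma IsH.isSelfAdjoint {ω : V d → ℝ}
    {H : lp (fun _ : V d => ℂ) 2 →L[ℂ] lp (fun _ : V d => ℂ) 2} (hH : IsH ω H) :
    IsSelfAdjoint H := by
  rw [ContinuousLinearMap.isSelfAdjoint_iff']
  apply lp.ext_continuousLinearMap (by norm_num)
  intro i
  ext
  rename_i j
  simp only [ContinuousLinearMap.comp_apply, lp.singleContinuousLinearMap_apply]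
  have h1 : ∀ w : lp (fun _ : V d => ℂ) 2, w j = inner ℂ (lp.single 2 j (1 : ℂ)) w := by
    intro w
    rw [lp.inner_single_left]; simp
  rw [h1, ContinuousLinearMap.adjoint_inner_right, lp.inner_single_right, hH, hH]
  have e1 : hop ω (⇑(lp.single 2 j (1 : ℂ) : lp (fun _ : V d => ℂ) 2)) i = (ker ω i j : ℂ) := by
    rw [lp.coeFn_single]; exact hop_single ω i j
  have e2 : hop ω (⇑(lp.single 2 i (1 : ℂ) : lp (fun _ : V d => ℂ) 2)) j = (ker ω j i : ℂ) := by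
    rw [lp.coeFn_single]; exact hop_single ω j i
  rw [e1, e2, ker_symm ω j i]
  simp

/-- the decoupling estimate -/
lemma decouple {ω : V d → ℝ} {H : lp (fun _ : V d => ℂ) 2 →L[ℂ] lp (fun _ : V d => ℂ) 2}
    (hH : IsH ω H) {E : ℝ} {r M L R0 : ℕ} (hr : 1 ≤ r) (hM : M = 4 * r + 2 * d + 2) (hL : 1 ≤ L)
    (hL4 : 4 ^ d * (4 * d ^ 2) ≤ L) (hR0 : R0 < L)
    (hNR : NR ω E (Q (0 : V d) (2 * L - 1)) ((L : ℝ) ^ r)⁻¹)
    (hG : ∀ w : V d, w ∈ Q (0 : V d) (2 * L) → w ∉ Q (0 : V d) (2 * L - 1) →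
      Good ω E L (((L : ℝ) ^ M)⁻¹) w)
    {φ : lp (fun _ : V d => ℂ) 2} (hφ : ∀ x ∉ Q (0 : V d) R0, φ x = 0) :
    (inner ℂ φ (Rz H ((E : ℂ) + (((L : ℝ) ^ (3 * r))⁻¹ : ℝ) * I) φ)).im
      ≤ 7 * (L : ℝ)⁻¹ * ‖φ‖ ^ 2 := by
  classical
  have hL' : (1 : ℝ) ≤ L := by exact_mod_cast hL
  have hLp : (0 : ℝ) < L := by linarith
  have hsa := hH.isSelfAdjoint
  set ε : ℝ := ((L : ℝ) ^ (3 * r))⁻¹ with hε
  have hε0 : 0 < ε := by positivity
  set z : ℂ := (E : ℂ) + (ε : ℂ) * I with hz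
  have hzim : z.im = ε := by simp [hz]
  have hzim0 : z.im ≠ 0 := by rw [hzim]; exact hε0.ne'
  set u := Rz H z φ with hu
  have hsol : ∀ x, hop ω u x = z * u x + φ x := by
    intro x
    have h := sub_Rz hsa hzim0 φ
    have h2 : (H u) x - z * u x = φ x := by
      conv_rhs => rw [← h]
      rfl
    rw [← hH]; linear_combination h2
  have hun : ‖u‖ ≤ (L : ℝ) ^ (3 * r) * ‖φ‖ := by
    have h := norm_Rz_le hsa (z := z) (by rw [hzim]; exact hε0) φ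
    rw [hzim, hε, div_inv_eq_mul, mul_comm] at h
    exact h
  set T : ℝ := ((L : ℝ) ^ M)⁻¹ * ‖u‖ with hT
  have hT0 : 0 ≤ T := by positivity
  have hshell : ∀ w : V d, w ∈ Q (0 : V d) (2 * L) → w ∉ Q (0 : V d) (2 * L - 1) → ‖u w‖ ≤ T := by
    intro w hw hw'
    refine hG w hw hw' ε u ‖u‖ ?_ ?_
    · intro x hx
      rw [hsol x, hφ x, add_zero]
      intro hc
      apply hw'
      exact Q_mono (by omega) (Q_trans hc (Q_symm.1 hx))
    · intro x _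
      exact lp.norm_apply_le_norm (by norm_num) u x
  set D := Q (0 : V d) (2 * L - 1) with hD
  set v : V d → ℂ := fun x => if x ∈ D then u x else 0 with hv
  have hv0 : ∀ x ∉ D, v x = 0 := fun x hx => by simp [hv, hx]
  have hv1 : ∀ x ∈ D, v x = u x := fun x hx => by simp [hv, hx]
  set e : V d → ℂ := fun x => hop ω v x - hop ω u x with he
  have he1 : ∀ x ∈ D, ‖e x‖ ≤ 2 * d * T := by
    intro x hx
    refine hop_sub_of_eq_on (hv1 x hx) ?_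
    intro y hy
    by_cases hyD : y ∈ D
    · rw [hv1 y hyD, sub_self, norm_zero]; exact hT0
    · rw [hv0 y hyD, sub_zero]
      exact hshell y (Q_mono (by omega) (Q_trans hx hy)) hyD
  have he2 : ∀ x ∈ D, hop ω v x - z * v x = φ x + e x := by
    intro x hx
    simp only [he]
    rw [hsol x, hv1 x hx]; ring
  set A2 : ℝ := ∑ x ∈ D, ‖v x‖ ^ 2 with hA2
  set W : ℝ := D.card * (2 * d * T) ^ 2 with hW
  have hWe : ∑ x ∈ D, ‖e x‖ ^ 2 ≤ W := by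
    calc ∑ x ∈ D, ‖e x‖ ^ 2 ≤ ∑ x ∈ D, (2 * d * T) ^ 2 := by
          apply Finset.sum_le_sum
          intro x hx
          exact pow_le_pow_left₀ (norm_nonneg _) (he1 x hx) 2
      _ = W := by rw [Finset.sum_const, nsmul_eq_mul]
  have hφ2 : ∑ x ∈ D, ‖φ x‖ ^ 2 ≤ ‖φ‖ ^ 2 := by
    have h := lp.sum_rpow_le_norm_rpow (p := 2) (by norm_num) φ D
    simpa using h
  have hNR' := NR_complex hNR ε hv0
  have hA2W : (((L : ℝ) ^ r)⁻¹) ^ 2 * A2 ≤ 2 * ‖φ‖ ^ 2 + 2 * W := by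
    refine hNR'.trans ?_
    calc ∑ x ∈ D, ‖hop ω v x - ((E : ℂ) + ε * I) * v x‖ ^ 2
        ≤ ∑ x ∈ D, (2 * ‖φ x‖ ^ 2 + 2 * ‖e x‖ ^ 2) := by
          apply Finset.sum_le_sum
          intro x hx
          rw [he2 x hx]
          have h1 := norm_add_le (φ x) (e x)
          have h2 : 0 ≤ ‖φ x + e x‖ := norm_nonneg _
          nlinarith [sq_nonneg (‖φ x‖ - ‖e x‖)]
      _ = 2 * ∑ x ∈ D, ‖φ x‖ ^ 2 + 2 * ∑ x ∈ D, ‖e x‖ ^ 2 := by
          rw [Finset.sum_add_distrib, Finset.mul_sum, Finset.mul_sum]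
      _ ≤ _ := by linarith
  -- bound for W
  have hWb : W * (L : ℝ) ^ (2 * r + 2) ≤ ‖φ‖ ^ 2 := by
    have hc : (D.card : ℝ) ≤ (4 * L) ^ d := by
      rw [hD, card_Q]
      have : (2 * (2 * L - 1) + 1) ^ d ≤ (4 * L) ^ d := Nat.pow_le_pow_left (by omega) d
      exact_mod_cast this
    have h4 : ((4 : ℝ) ^ d * (4 * d ^ 2)) ≤ L := by exact_mod_cast hL4
    have hT2 : T * (L : ℝ) ^ M ≤ (L : ℝ) ^ (3 * r) * ‖φ‖ := by
      rw [hT]
      calc ((L : ℝ) ^ M)⁻¹ * ‖u‖ * (L : ℝ) ^ M = ‖u‖ := by field_simp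
        _ ≤ _ := hun
    have hT3 : T ^ 2 * (L : ℝ) ^ (2 * M) ≤ (L : ℝ) ^ (6 * r) * ‖φ‖ ^ 2 := by
      have h := pow_le_pow_left₀ (by positivity) hT2 2
      calc T ^ 2 * (L : ℝ) ^ (2 * M) = (T * (L : ℝ) ^ M) ^ 2 := by
            rw [mul_comm 2 M, pow_mul]; ring
        _ ≤ _ := h
        _ = _ := by rw [mul_pow, ← pow_mul]; congr 2; ring
    have hexp : (L : ℝ) ^ (2 * M) = (L : ℝ) ^ (6 * r) * ((L : ℝ) ^ (2 * r + 2) * (L : ℝ) ^ (d + 1)
        * (L : ℝ) ^ (3 * d + 1)) := by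
      rw [← pow_add, ← pow_add, ← pow_add, hM]; congr 1; ring
    have hT4 : T ^ 2 * ((L : ℝ) ^ (2 * r + 2) * (L : ℝ) ^ (d + 1) * (L : ℝ) ^ (3 * d + 1))
        ≤ ‖φ‖ ^ 2 := by
      rw [hexp] at hT3
      have h6 : 0 < (L : ℝ) ^ (6 * r) := by positivity
      refine le_of_mul_le_mul_left ?_ h6
      calc _ = T ^ 2 * ((L : ℝ) ^ (6 * r) * ((L : ℝ) ^ (2 * r + 2) * (L : ℝ) ^ (d + 1)
        * (L : ℝ) ^ (3 * d + 1))) := by ring
        _ ≤ _ := hT3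
    have hone : (1 : ℝ) ≤ (L : ℝ) ^ (3 * d + 1) := one_le_pow₀ hL'
    calc W * (L : ℝ) ^ (2 * r + 2) ≤ (4 * L) ^ d * (2 * d * T) ^ 2 * (L : ℝ) ^ (2 * r + 2) := by
          rw [hW]; gcongr
      _ = (4 ^ d * (4 * d ^ 2)) * (T ^ 2 * ((L : ℝ) ^ (2 * r + 2) * (L : ℝ) ^ d)) := by
          rw [mul_pow 4 (L : ℝ)]; ring
      _ ≤ L * (T ^ 2 * ((L : ℝ) ^ (2 * r + 2) * (L : ℝ) ^ d)) := by gcongr
      _ = T ^ 2 * ((L : ℝ) ^ (2 * r + 2) * (L : ℝ) ^ (d + 1)) * 1 := by ring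
      _ ≤ T ^ 2 * ((L : ℝ) ^ (2 * r + 2) * (L : ℝ) ^ (d + 1)) * (L : ℝ) ^ (3 * d + 1) := by gcongr
      _ = _ := by ring
      _ ≤ ‖φ‖ ^ 2 := hT4
  have hW0 : 0 ≤ W := by positivity
  have hW1 : W ≤ ‖φ‖ ^ 2 := by
    refine le_trans ?_ hWb
    exact le_mul_of_one_le_right hW0 (one_le_pow₀ hL')
  have hA2b : A2 ≤ 4 * (L : ℝ) ^ (2 * r) * ‖φ‖ ^ 2 := by
    have h1 : (((L : ℝ) ^ r)⁻¹) ^ 2 * A2 ≤ 4 * ‖φ‖ ^ 2 := by linarith
    rw [inv_pow, inv_mul_le_iff₀ (by positivity), ← pow_mul, mul_comm r 2] at h1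
    linarith
  have hA20 : 0 ≤ A2 := by positivity
  -- the imaginary part
  have him : (inner ℂ φ u).im = ε * A2 + (∑ x ∈ D, (starRingEnd ℂ) (v x) * e x).im := by
    have h1 : inner ℂ φ u = ∑ x ∈ D, (starRingEnd ℂ) (φ x) * v x := by
      rw [lp.inner_eq_tsum, tsum_eq_sum (s := D)]
      · apply Finset.sum_congr rfl
        intro x hx
        rw [hv1 x hx]
        simp [mul_comm]
      · intro x hx
        rw [hφ x (fun hc => hx (Q_mono (by omega) hc))]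
        simp
    have h2 : (∑ x ∈ D, (starRingEnd ℂ) (φ x) * v x).im
        = - (∑ x ∈ D, (starRingEnd ℂ) (v x) * φ x).im := by
      rw [← Complex.conj_im, map_sum]
      congr 1
      apply Finset.sum_congr rfl
      intro x _
      rw [map_mul, Complex.conj_conj, mul_comm]
    have h3 : ∑ x ∈ D, (starRingEnd ℂ) (v x) * φ x = ∑ x ∈ D, (starRingEnd ℂ) (v x) * hop ω v x
        - z * (A2 : ℂ) - ∑ x ∈ D, (starRingEnd ℂ) (v x) * e x := by
      rw [hA2]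
      push_cast
      rw [Finset.mul_sum, ← Finset.sum_sub_distrib, ← Finset.sum_sub_distrib]
      apply Finset.sum_congr rfl
      intro x hx
      have h4 := he2 x hx
      have h5 : (starRingEnd ℂ) (v x) * v x = (‖v x‖ : ℂ) ^ 2 := Complex.conj_mul' _
      have h6 : φ x = hop ω v x - z * v x - e x := by rw [h4]; ring
      rw [h6, ← h5]; ring
    rw [h1, h2, h3, Complex.sub_im, Complex.sub_im, im_form_zero hv0]
    have : (z * (A2 : ℂ)).im = ε * A2 := by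
      rw [Complex.mul_im]; simp [hzim]
    rw [this]; ring
  set s : ℝ := ((L : ℝ) ^ (2 * r + 1))⁻¹ with hs
  have hs0 : 0 < s := by positivity
  have hcross : (∑ x ∈ D, (starRingEnd ℂ) (v x) * e x).im ≤ s / 2 * A2 + (2 * s)⁻¹ * W := by
    calc (∑ x ∈ D, (starRingEnd ℂ) (v x) * e x).im
        ≤ ‖∑ x ∈ D, (starRingEnd ℂ) (v x) * e x‖ := (le_abs_self _).trans (Complex.abs_im_le_norm _)
      _ ≤ ∑ x ∈ D, ‖(starRingEnd ℂ) (v x) * e x‖ := norm_sum_le _ _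
      _ ≤ ∑ x ∈ D, (s / 2 * ‖v x‖ ^ 2 + (2 * s)⁻¹ * ‖e x‖ ^ 2) := by
          apply Finset.sum_le_sum
          intro x _
          rw [norm_mul, Complex.norm_conj]
          have h1 : s / 2 * ‖v x‖ ^ 2 + (2 * s)⁻¹ * ‖e x‖ ^ 2 - ‖v x‖ * ‖e x‖
              = (2 * s)⁻¹ * (s * ‖v x‖ - ‖e x‖) ^ 2 := by
            field_simp; ring
          have h2 : 0 ≤ (2 * s)⁻¹ * (s * ‖v x‖ - ‖e x‖) ^ 2 := by positivity
          linarith
      _ = s / 2 * A2 + (2 * s)⁻¹ * ∑ x ∈ D, ‖e x‖ ^ 2 := by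
          rw [Finset.sum_add_distrib, Finset.mul_sum, Finset.mul_sum]
      _ ≤ _ := by gcongr
  rw [him]
  have f1 : ε * A2 ≤ 4 * (L : ℝ)⁻¹ * ‖φ‖ ^ 2 := by
    calc ε * A2 ≤ ε * (4 * (L : ℝ) ^ (2 * r) * ‖φ‖ ^ 2) := by gcongr
      _ = 4 * ((L : ℝ) ^ r)⁻¹ * ‖φ‖ ^ 2 := by
          rw [hε, show 3 * r = 2 * r + r by ring, pow_add]
          field_simp
      _ ≤ 4 * (L : ℝ)⁻¹ * ‖φ‖ ^ 2 := by
          gcongr
          exact le_self_pow₀ hL' (by omega)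
  have f2 : s / 2 * A2 ≤ 2 * (L : ℝ)⁻¹ * ‖φ‖ ^ 2 := by
    calc s / 2 * A2 ≤ s / 2 * (4 * (L : ℝ) ^ (2 * r) * ‖φ‖ ^ 2) := by gcongr
      _ = _ := by
          rw [hs, pow_succ]
          field_simp
          ring
  have f3 : (2 * s)⁻¹ * W ≤ (L : ℝ)⁻¹ * ‖φ‖ ^ 2 := by
    have h1 : (2 * s)⁻¹ * W = (L : ℝ)⁻¹ * (W * (L : ℝ) ^ (2 * r + 2)) / 2 := by
      rw [hs, show 2 * r + 2 = (2 * r + 1) + 1 by ring, pow_succ (L : ℝ) (2 * r + 1)]
      field_simp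
    rw [h1]
    have h2 : (L : ℝ)⁻¹ * (W * (L : ℝ) ^ (2 * r + 2)) ≤ (L : ℝ)⁻¹ * ‖φ‖ ^ 2 := by gcongr
    have h3 : 0 ≤ (L : ℝ)⁻¹ * (W * (L : ℝ) ^ (2 * r + 2)) := by positivity
    linarith
  linarith

/-- If the local event `J` has probability close to one and implies the decay of solutions at all
energies in `B`, then there is no absolutely continuous spectrum in `B ∩ XX`. -/
theorem engine (ν : Measure ℝ) [IsProbabilityMeasure ν] (hd : 2 ≤ d) {L0 : ℕ}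
    {J : (V d → ℝ) → ℝ → V d → Prop}
    (hJ : ∀ (E : ℝ) (a : V d), Dep (Q a L0) {ω | J ω E a})
    (hJm : ∀ a : V d, MeasurableSet {p : (V d → ℝ) × ℝ | J p.1 p.2 a}) (h1L : 1 ≤ L0)
    (big1 : (2 * d * 17 ^ d) ^ 2 * 10 ^ (4 * (3 * d + 4) + 2 * d + 2) ≤ L0)
    (big2 : 6 * 17 ^ (2 * d) * 10 ^ (2 * d + 1) ≤ L0) (big4 : 4 ^ d * (4 * d ^ 2) ≤ L0)
    {B : Set ℝ} (hB : MeasurableSet B) {N0 : ℝ} (hN0 : 1 ≤ N0) (hBb : B ⊆ Set.Ioc (-N0) N0)
    (hP : ∀ E ∈ B, ∀ a : V d, (PP d ν).real {ω | ¬ J ω E a} ≤ ((L0 : ℝ) ^ (2 * d + 1))⁻¹)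
    (hgood : ∀ E ∈ B, ∀ (ω : V d → ℝ) (a : V d), J ω E a →
      Good ω E L0 (((L0 : ℝ) ^ (4 * (3 * d + 4) + 2 * d + 2))⁻¹) a) :
    ∀ᵐ ω ∂(PP d ν), ∀ (H : lp (fun _ : V d => ℂ) 2 →L[ℂ] lp (fun _ : V d => ℂ) 2), IsH ω H →
      ∀ (ψ : lp (fun _ : V d => ℂ) 2) (μ : Measure ℝ), IsFiniteMeasure μ →
        (∀ z : ℂ, z.im ≠ 0 → (∫ x, ((x : ℂ) - z)⁻¹ ∂μ) = inner ℂ ψ (Rz H z ψ)) →
        ∀ᵐ E ∂(volume.restrict (B ∩ XX d ν (3 * d + 4) L0)), μ.rnDeriv volume E = 0 := by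
  have hd1 : 1 ≤ d := by omega
  set SB : Set ℝ := B ∩ XX d ν (3 * d + 4) L0 with hSB
  have hSBm : MeasurableSet SB := hB.inter (measurableSet_XX ν _ _)
  have hfin : volume SB ≠ ∞ :=
    ne_top_of_le_ne_top (by simp : volume (Set.Ioc (-N0) N0) ≠ ∞)
      (measure_mono (Set.inter_subset_left.trans hBb))
  have hae := ae_ae_FF (d := d) ν (J := J) (r := 3 * d + 4) (L0 := L0)
    hJ hJm h1L big2 (fun E hE => hP E hE.1) (Set.inter_subset_right) hfin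
  filter_upwards [hae] with ω hω H hH ψ μ hμf hμ
  set r : ℕ := 3 * d + 4 with hr
  set N : ℝ := max N0 (2 * ‖H‖) with hN
  have hd' : (1 : ℝ) ≤ d := by exact_mod_cast hd1
  have hN1 : N0 ≤ N := le_max_left _ _
  set ε : ℕ → ℝ := fun k => ((((10 ^ k * L0 : ℕ) : ℝ)) ^ (3 * r))⁻¹ with hε
  have hLk : ∀ k, 1 ≤ 10 ^ k * L0 := fun k => Nat.one_le_iff_ne_zero.mpr (by positivity)
  have hLk' : ∀ k, (1 : ℝ) ≤ ((10 ^ k * L0 : ℕ) : ℝ) := fun k => by exact_mod_cast hLk k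
  have hε0 : ∀ k, 0 < ε k := fun k => by
    have := hLk' k
    simp only [hε]; positivity
  have hε1 : ∀ k, ε k ≤ N := fun k => by
    have h1 : ε k ≤ 1 := inv_le_one_of_one_le₀ (one_le_pow₀ (hLk' k))
    linarith
  have hLtend : Tendsto (fun k : ℕ => (((10 ^ k * L0 : ℕ) : ℝ))⁻¹) atTop (𝓝 0) := by
    apply tendsto_inv_atTop_zero.comp
    apply tendsto_natCast_atTop_atTop.comp
    apply tendsto_atTop_mono (f := fun k => k)
    · intro k
      calc k ≤ 10 ^ k := (Nat.lt_pow_self (by norm_num)).le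
        _ ≤ 10 ^ k * L0 := Nat.le_mul_of_pos_right _ h1L
    · exact tendsto_id
  have hεt : Tendsto ε atTop (𝓝 0) := by
    refine squeeze_zero (fun k => (hε0 k).le) (fun k => ?_) hLtend
    simp only [hε]
    apply inv_anti₀ (by linarith [hLk' k])
    exact le_self_pow₀ (hLk' k) (by rw [hr]; omega)
  have hBN : B ⊆ Set.Ioc (-N) N := by
    intro E hE
    have := hBb hE
    exact ⟨by linarith [this.1], by linarith [this.2]⟩
  refine singular_on hH.isSelfAdjoint (N := N)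
    (Set.inter_subset_left.trans hBN) (le_max_right _ _) hε0 hε1 hεt
    (fun ψ δ hδ => fin_dense ψ δ hδ) ?_ ψ hμ
  rintro φ ⟨R0, hφ⟩
  have hmem : ∀ᵐ E ∂(volume.restrict SB), E ∈ SB := ae_restrict_mem hSBm
  filter_upwards [hω, hmem] with E hE hES
  -- the good cubes
  have hGG := fun k => good_of_GG (r := r) (M := 4 * (3 * d + 4) + 2 * d + 2) hd1
    (by rw [hr]; omega) h1L big1 (hgood E hES.1) k ω
  have hev : ∀ᶠ k in atTop, gg H φ (ε k) E ≤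
      ENNReal.ofReal (7 * (((10 ^ k * L0 : ℕ) : ℝ))⁻¹ * ‖φ‖ ^ 2) := by
    have hR : ∀ᶠ k : ℕ in atTop, R0 < 10 ^ k * L0 := by
      filter_upwards [eventually_gt_atTop R0] with k hk
      calc R0 < k := hk
        _ ≤ 10 ^ k := (Nat.lt_pow_self (by norm_num)).le
        _ ≤ 10 ^ k * L0 := Nat.le_mul_of_pos_right _ h1L
    filter_upwards [hE, hR] with k hFF hRk
    apply ENNReal.ofReal_le_ofReal
    obtain ⟨hSh, hRR⟩ := hFF
    refine decouple hH (r := r) (M := 4 * (3 * d + 4) + 2 * d + 2) (R0 := R0) (by rw [hr]; omega)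
      (by rw [hr]) (hLk k) (big4.trans (Nat.le_mul_of_pos_left _ (by positivity))) hRk ?_ ?_ hφ
    · have := hRR 0 (by norm_num)
      simpa using this
    · intro w hw hw'
      apply hGG k w
      apply hSh w
      · simpa using hw
      · simpa using hw'
  have hlim : Tendsto (fun k : ℕ => ENNReal.ofReal (7 * (((10 ^ k * L0 : ℕ) : ℝ))⁻¹ * ‖φ‖ ^ 2))
      atTop (𝓝 0) := by
    have h1 : Tendsto (fun k : ℕ => 7 * (((10 ^ k * L0 : ℕ) : ℝ))⁻¹ * ‖φ‖ ^ 2) atTop (𝓝 0) := by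
      have := (hLtend.const_mul 7).mul_const (‖φ‖ ^ 2)
      simpa using this
    have h2 := (ENNReal.continuous_ofReal.tendsto 0).comp h1
    rw [ENNReal.ofReal_zero] at h2
    exact h2
  exact tendsto_of_tendsto_of_tendsto_of_le_of_le' tendsto_const_nhds hlim
    (Eventually.of_forall fun _ => zero_le) hev

end Pool.Agent.K7.H96.HDG
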