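import Pool.Agent.K7.H96.HDG.Clu
import Pool.Agent.K7.H96.HDG.Eng
import Pool.Agent.K7.H96.HDG.Atoms

set_option autoImplicit false

/-! No absolutely continuous spectrum at high disorder, away from the large atoms of the law. -/

namespace Pool.Agent.K7.H96.HDG

open Finset Complex MeasureTheory ProbabilityTheory Filter
open scoped ENNReal Topology InnerProductSpace
open Pool.Agent.H12R2.And (V ee Q mem_Q card_Q self_mem_Q Q_mono Q_trans Q_symm Rz
  mutuallySingular_of_rnDeriv)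

variable {d : ℕ}

/-- choice of the initial scale -/
lemma exists_scale (d : ℕ) {p q ε : ℝ} (hq0 : 0 ≤ q) (hq1 : q < 1) (hε : 0 < ε) (C : ℕ) :
    ∃ n : ℕ, C ≤ n + 1 ∧ (((n + 1 : ℕ) : ℝ))⁻¹ ≤ ε ∧
      p * (2 * d * (p * q ^ n)) ≤ 1 / 2 * (((n + 1 : ℕ) : ℝ) ^ (2 * d + 1))⁻¹ := by
  have h1 : Tendsto (fun n : ℕ => (n : ℝ) ^ (2 * d + 1) * q ^ n) atTop (𝓝 0) :=
    tendsto_pow_const_mul_const_pow_of_abs_lt_one _ (by rwa [abs_of_nonneg hq0])
  have h2 : ∀ᶠ n : ℕ in atTop, p * (2 * d * (p * q ^ n)) ≤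
      1 / 2 * (((n + 1 : ℕ) : ℝ) ^ (2 * d + 1))⁻¹ := by
    have h3 := h1.const_mul (p * (2 * d * p) * 2 ^ (2 * d + 1))
    rw [mul_zero] at h3
    have h4 := (tendsto_order.1 h3).2 (1 / 2) (by norm_num)
    filter_upwards [h4, eventually_ge_atTop 1] with n hn hn1
    have hn1' : (1 : ℝ) ≤ n := by exact_mod_cast hn1
    rw [← div_eq_mul_inv, le_div_iff₀ (by positivity)]
    have h5 : ((n + 1 : ℕ) : ℝ) ^ (2 * d + 1) ≤ 2 ^ (2 * d + 1) * (n : ℝ) ^ (2 * d + 1) := by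
      rw [← mul_pow]
      refine pow_le_pow_left₀ (by positivity) ?_ _
      push_cast
      linarith
    have h6 : 0 ≤ p * (2 * d * (p * q ^ n)) := by
      have : p * (2 * d * (p * q ^ n)) = 2 * d * q ^ n * (p * p) := by ring
      rw [this]
      have := mul_self_nonneg p
      positivity
    calc p * (2 * d * (p * q ^ n)) * ((n + 1 : ℕ) : ℝ) ^ (2 * d + 1) ≤
        p * (2 * d * (p * q ^ n)) * (2 ^ (2 * d + 1) * (n : ℝ) ^ (2 * d + 1)) := by gcongr
      _ = p * (2 * d * p) * 2 ^ (2 * d + 1) * ((n : ℝ) ^ (2 * d + 1) * q ^ n) := by ring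
      _ ≤ 1 / 2 := hn.le
  have h3 : ∀ᶠ n : ℕ in atTop, (((n + 1 : ℕ) : ℝ))⁻¹ ≤ ε := by
    have h4 : Tendsto (fun n : ℕ => (((n + 1 : ℕ) : ℝ))⁻¹) atTop (𝓝 0) := by
      have := tendsto_one_div_add_atTop_nhds_zero_nat (𝕜 := ℝ)
      refine this.congr fun n => ?_
      push_cast
      rw [one_div]
    filter_upwards [(tendsto_order.1 h4).2 ε hε] with n hn
    exact hn.le
  obtain ⟨n, h5, h6, h7⟩ := (h2.and (h3.and (eventually_ge_atTop C))).exists
  exact ⟨n, by omega, h6, h5⟩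

/-- energies away from the large atoms -/
def ZZ (d : ℕ) (μ : Measure ℝ) (K' lam : ℝ) : Set ℝ :=
  {E | ∀ v : ℝ, ENNReal.ofReal (1 / (2 * d - 1)) ≤ μ {v} → K' ≤ |E - lam * v|}

lemma isClosed_ZZ (μ : Measure ℝ) (K' lam : ℝ) : IsClosed (ZZ d μ K' lam) := by
  have : ZZ d μ K' lam = ⋂ (v : ℝ) (_ : ENNReal.ofReal (1 / (2 * d - 1)) ≤ μ {v}),
      {E : ℝ | K' ≤ |E - lam * v|} := by
    ext E
    simp only [ZZ, Set.mem_ofPred_eq, Set.mem_iInter]
  rw [this]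
  refine isClosed_iInter fun v => isClosed_iInter fun _ => ?_
  exact isClosed_le continuous_const (by fun_prop)

theorem main (hd : 2 ≤ d) (μ : Measure ℝ) [IsProbabilityMeasure μ]
    {R : ℝ} (hR : ∀ᵐ v ∂μ, |v| ≤ R) {ε : ℝ} (hε : 0 < ε) :
    ∃ K' lam0 : ℝ, 0 < K' ∧ 1 ≤ lam0 ∧ ∀ lam : ℝ, lam0 ≤ lam → ∃ S : Set ℝ, MeasurableSet S ∧
      volume (ZZ d μ K' lam \ S) ≤ ENNReal.ofReal ε ∧
      ∀ᵐ ω ∂(PP d (μ.map fun v => lam * v)),
        ∀ (H : lp (fun _ : V d => ℂ) 2 →L[ℂ] lp (fun _ : V d => ℂ) 2), IsH ω H →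
          ∀ (ψ : lp (fun _ : V d => ℂ) 2) (m : Measure ℝ), IsFiniteMeasure m →
            (∀ z : ℂ, z.im ≠ 0 → (∫ x, ((x : ℂ) - z)⁻¹ ∂m) = inner ℂ ψ (Rz H z ψ)) →
            (m.restrict S) ⟂ₘ volume := by
  have hd1 : 1 ≤ d := by omega
  have hd' : (2 : ℝ) ≤ d := by exact_mod_cast hd
  have hden : (0 : ℝ) < 2 * d - 1 := by linarith
  obtain ⟨p, hp0, hp1, δ, hδ0, hδ⟩ := atoms μ hR (p0 := 1 / (2 * d - 1)) (by positivity)
  set q : ℝ := (2 * d - 1) * p with hq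
  have hq0 : 0 ≤ q := by positivity
  have hq1 : q < 1 := by
    rw [hq, mul_comm]
    rwa [lt_div_iff₀ hden] at hp1
  obtain ⟨n, hC, hLε, hpn⟩ := exists_scale d (p := p) hq0 hq1 (half_pos hε)
    ((2 * d * 17 ^ d) ^ 2 * 10 ^ (4 * (3 * d + 4) + 2 * d + 2) +
      6 * 17 ^ (2 * d) * 10 ^ (2 * d + 1) + 4 ^ d * (4 * d ^ 2) + 12 * 17 ^ d)
  set L0 : ℕ := n + 1 with hL0
  have hL1 : 1 ≤ L0 := by omega
  have hLr : (1 : ℝ) ≤ L0 := by exact_mod_cast hL1
  set M : ℕ := 4 * (3 * d + 4) + 2 * d + 2 with hM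
  set η : ℝ := 1 / 2 * ((L0 : ℝ) ^ (2 * d + 1))⁻¹ with hη
  have hη0 : 0 < η := by positivity
  set C1 : ℝ := 2 ^ ((2 * L0 + 1) ^ d) * (2 * (2 * (L0 : ℝ) + 1) ^ d) / η with hC1
  have hC10 : 0 < C1 := by positivity
  set τ : ℝ := min 1 (ε / 2 / C1) with hτ
  have hτ0 : 0 < τ := lt_min one_pos (by positivity)
  have hτ1 : τ ≤ 1 := min_le_left _ _
  have hτC : 2 ^ ((2 * L0 + 1) ^ d) * (2 * τ * (2 * (L0 : ℝ) + 1) ^ d) / η ≤ ε / 2 := by
    have h1 : τ ≤ ε / 2 / C1 := min_le_right _ _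
    rw [le_div_iff₀ hC10] at h1
    refine le_trans (le_of_eq ?_) h1
    rw [hC1]
    ring
  set K : ℝ := τ⁻¹ * (2 * d * (2 * (L0 : ℝ) + 1) ^ d) * (2 * d) * (L0 : ℝ) ^ M with hK
  have hdpos : (0 : ℝ) < d := by linarith
  have hK0 : 0 < K := by positivity
  have hκ : τ⁻¹ * (2 * d * (2 * (L0 : ℝ) + 1) ^ d) * (2 * d / K) = ((L0 : ℝ) ^ M)⁻¹ := by
    rw [hK]
    field_simp
  set lam0 : ℝ := max 1 (K / δ + 1) with hlam0
  refine ⟨K + 2 * d + 1, lam0, by positivity, le_max_left _ _, fun lam hlam => ?_⟩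
  have hlam1 : 1 ≤ lam := (le_max_left _ _).trans hlam
  have hlampos : 0 < lam := by linarith
  have hrδ : K / lam < δ := by
    have h1 : K / δ < lam := by
      have := (le_max_right _ _).trans hlam
      linarith
    rw [div_lt_iff₀ hδ0] at h1
    rw [div_lt_iff₀ hlampos]
    linarith
  set ν : Measure ℝ := μ.map fun v => lam * v with hν
  have hgm : Measurable fun v : ℝ => lam * v := by fun_prop
  have hνp : IsProbabilityMeasure ν := Measure.isProbabilityMeasure_map hgm.aemeasurable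
  have hball : ∀ E ∈ ZZ d μ (K + 2 * d + 1) lam,
      ν {v | |2 * d + v - E| ≤ K} ≤ ENNReal.ofReal p := by
    intro E hE
    have hms : MeasurableSet {v : ℝ | |2 * d + v - E| ≤ K} :=
      (isClosed_le (by fun_prop) continuous_const).measurableSet
    rw [hν, Measure.map_apply hgm hms]
    have e1 : (fun v : ℝ => lam * v) ⁻¹' {v : ℝ | |2 * d + v - E| ≤ K} =
        Metric.closedBall ((E - 2 * d) / lam) (K / lam) := by
      ext v
      simp only [Set.mem_preimage, Set.mem_ofPred_eq, Metric.mem_closedBall, Real.dist_eq]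
      have h2 : v - (E - 2 * d) / lam = (2 * d + lam * v - E) / lam := by
        field_simp
        ring
      rw [h2, abs_div, abs_of_pos hlampos, div_le_div_iff_of_pos_right hlampos]
    rw [e1]
    refine hδ _ _ hrδ fun v hv => ?_
    have h2 : v - (E - 2 * d) / lam = (2 * d + lam * v - E) / lam := by
      field_simp
      ring
    rw [h2, abs_div, abs_of_pos hlampos, div_lt_div_iff_of_pos_right hlampos]
    have h3 := hE v hv
    have h4 : |E - lam * v| ≤ |2 * d + lam * v - E| + |2 * (d : ℝ)| := by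
      have : E - lam * v = -(2 * d + lam * v - E) + 2 * d := by ring
      rw [this]
      refine (abs_add_le _ _).trans ?_
      rw [abs_neg]
    rw [abs_of_pos (by positivity : (0 : ℝ) < 2 * d)] at h4
    linarith
  set B0 : Set ℝ := ZZ d μ (K + 2 * d + 1) lam ∩ YY d ν τ η L0 with hB0
  have hB0m : MeasurableSet B0 :=
    (isClosed_ZZ μ _ _).measurableSet.inter (measurableSet_YY ν τ η L0)
  set X := XX d ν (3 * d + 4) L0 with hX
  have hXm : MeasurableSet X := measurableSet_XX ν _ _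
  set B : ℕ → Set ℝ := fun k => B0 ∩ Set.Ioc (-((k : ℝ) + 1)) ((k : ℝ) + 1) with hB
  have hBm : ∀ k, MeasurableSet (B k) := fun k => hB0m.inter measurableSet_Ioc
  refine ⟨B0 ∩ X, hB0m.inter hXm, ?_, ?_⟩
  · have hsub : ZZ d μ (K + 2 * d + 1) lam \ (B0 ∩ X) ⊆ (YY d ν τ η L0)ᶜ ∪ Xᶜ := by
      intro E hE
      by_contra hc
      rw [Set.mem_union, not_or, Set.mem_compl_iff, Set.mem_compl_iff, not_not, not_not] at hc
      exact hE.2 ⟨⟨hE.1, hc.1⟩, hc.2⟩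
    have h1 : volume (YY d ν τ η L0)ᶜ ≤ ENNReal.ofReal (ε / 2) :=
      (volume_compl_YY ν hτ0.le hη0 L0).trans (ENNReal.ofReal_le_ofReal hτC)
    have h2 : volume Xᶜ ≤ ENNReal.ofReal (ε / 2) := by
      refine (volume_compl_XX ν rfl ?_).trans (ENNReal.ofReal_le_ofReal hLε)
      omega
    refine (measure_mono hsub).trans ((measure_union_le _ _).trans ((add_le_add h1 h2).trans ?_))
    rw [← ENNReal.ofReal_add (by positivity) (by positivity)]
    exact ENNReal.ofReal_le_ofReal (by linarith)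
  · have hk : ∀ k : ℕ, ∀ᵐ ω ∂(PP d ν),
        ∀ (H : lp (fun _ : V d => ℂ) 2 →L[ℂ] lp (fun _ : V d => ℂ) 2), IsH ω H →
          ∀ (ψ : lp (fun _ : V d => ℂ) 2) (m : Measure ℝ), IsFiniteMeasure m →
            (∀ z : ℂ, z.im ≠ 0 → (∫ x, ((x : ℂ) - z)⁻¹ ∂m) = inner ℂ ψ (Rz H z ψ)) →
            ∀ᵐ E ∂(volume.restrict (B k ∩ X)), m.rnDeriv volume E = 0 := by
      intro k
      refine engine ν hd (L0 := L0) (J := J K τ L0) (fun E a => dep_J K τ L0 E a)
        (fun a => meas_J K τ L0 a) hL1 (by rw [hM] at hC; omega) (by omega) (by omega) (hBm k)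
        (N0 := (k : ℝ) + 1) ?_ (fun E hE => hE.2) (fun E hE a => ?_) (fun E hE ω a hJ => ?_)
      · have : (0 : ℝ) ≤ k := Nat.cast_nonneg k
        linarith
      · refine (prob_J ν hd1 (hball E hE.1.1) hp0.le hE.1.2 a).trans ?_
        have h5 : p * (2 * d * (p * ((2 * d - 1) * p) ^ n)) ≤ η := hpn
        have h6 : η + η = ((L0 : ℝ) ^ (2 * d + 1))⁻¹ := by
          rw [hη]
          ring
        linarith
      · have h7 := good_of_J hd1 hL1 hK0 hτ0 hτ1 hJ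
        rwa [hκ] at h7
    filter_upwards [ae_all_iff.2 hk] with ω hω H hH ψ m hm hBT
    apply mutuallySingular_of_rnDeriv (hB0m.inter hXm)
    have hU : B0 ∩ X = ⋃ k : ℕ, B k ∩ X := by
      ext E
      simp only [hB, Set.mem_iUnion, Set.mem_inter_iff, Set.mem_Ioc]
      constructor
      · rintro ⟨h1, h2⟩
        obtain ⟨k, hk⟩ := exists_nat_gt |E|
        have h3 := abs_lt.1 hk
        exact ⟨k, ⟨h1, by linarith [h3.1], by linarith [h3.2]⟩, h2⟩
      · rintro ⟨k, ⟨h1, _⟩, h2⟩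
        exact ⟨h1, h2⟩
    rw [hU, ae_restrict_iUnion_iff]
    intro k
    exact hω k H hH ψ m hm hBT

end Pool.Agent.K7.H96.HDG
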