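import Pool.Agent.K7.H96.HDG.Clu2
import Pool.Agent.K7.H96.HDG.Eng
import Pool.Agent.K7.H96.HDG.Atoms

set_option autoImplicit false

/-! No absolutely continuous spectrum at high disorder, except in the bands of the percolating
atoms. -/

namespace Pool.Agent.K7.H96.HDG

open Finset Complex MeasureTheory ProbabilityTheory Filter
open scoped ENNReal Topology InnerProductSpace
open Pool.Agent.W783.PC (pm)
open Pool.Agent.H12R2.And (V ee Q mem_Q card_Q self_mem_Q Q_mono Q_trans Q_symm Rz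
  mutuallySingular_of_rnDeriv)

variable {d : ℕ}

/-- no absolutely continuous spectrum in `S` -/
def NoAC (d : ℕ) (ν : Measure ℝ) (S : Set ℝ) : Prop :=
  ∀ᵐ ω ∂(PP d ν), ∀ (H : lp (fun _ : V d => ℂ) 2 →L[ℂ] lp (fun _ : V d => ℂ) 2), IsH ω H →
    ∀ (ψ : lp (fun _ : V d => ℂ) 2) (m : Measure ℝ), IsFiniteMeasure m →
      (∀ z : ℂ, z.im ≠ 0 → (∫ x, ((x : ℂ) - z)⁻¹ ∂m) = inner ℂ ψ (Rz H z ψ)) →
      ∀ᵐ E ∂(volume.restrict S), m.rnDeriv volume E = 0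

lemma NoAC.iUnion {ν : Measure ℝ} {ι : Type} [Countable ι] {S : ι → Set ℝ}
    (h : ∀ i, NoAC d ν (S i)) : NoAC d ν (⋃ i, S i) := by
  filter_upwards [ae_all_iff.2 h] with ω hω H hH ψ m hm hBT
  rw [ae_restrict_iUnion_iff]
  exact fun i => hω i H hH ψ m hm hBT

lemma NoAC.mono {ν : Measure ℝ} {S T : Set ℝ} (h : NoAC d ν T) (hST : S ⊆ T) :
    NoAC d ν S := by
  filter_upwards [h] with ω hω H hH ψ m hm hBT
  exact ae_mono (Measure.restrict_mono hST le_rfl) (hω H hH ψ m hm hBT)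

/-- the engine without the boundedness of the set of energies -/
lemma engine2 (ν : Measure ℝ) [IsProbabilityMeasure ν] (hd : 2 ≤ d) {L0 : ℕ}
    {J : (V d → ℝ) → ℝ → V d → Prop}
    (hJ : ∀ (E : ℝ) (a : V d), Dep (Q a L0) {ω | J ω E a})
    (hJm : ∀ a : V d, MeasurableSet {p : (V d → ℝ) × ℝ | J p.1 p.2 a}) (h1L : 1 ≤ L0)
    (big1 : (2 * d * 17 ^ d) ^ 2 * 10 ^ (4 * (3 * d + 4) + 2 * d + 2) ≤ L0)
    (big2 : 6 * 17 ^ (2 * d) * 10 ^ (2 * d + 1) ≤ L0) (big4 : 4 ^ d * (4 * d ^ 2) ≤ L0)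
    {B : Set ℝ} (hB : MeasurableSet B)
    (hP : ∀ E ∈ B, ∀ a : V d, (PP d ν).real {ω | ¬ J ω E a} ≤ ((L0 : ℝ) ^ (2 * d + 1))⁻¹)
    (hgood : ∀ E ∈ B, ∀ (ω : V d → ℝ) (a : V d), J ω E a →
      Good ω E L0 (((L0 : ℝ) ^ (4 * (3 * d + 4) + 2 * d + 2))⁻¹) a) :
    NoAC d ν (B ∩ XX d ν (3 * d + 4) L0) := by
  have hk : ∀ k : ℕ, NoAC d ν ((B ∩ Set.Ioc (-((k : ℝ) + 1)) ((k : ℝ) + 1)) ∩
      XX d ν (3 * d + 4) L0) := by
    intro k
    refine engine ν hd hJ hJm h1L big1 big2 big4 (hB.inter measurableSet_Ioc) (N0 := (k : ℝ) + 1)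
      ?_ (fun E hE => hE.2) (fun E hE => hP E hE.1) (fun E hE => hgood E hE.1)
    have : (0 : ℝ) ≤ k := Nat.cast_nonneg k
    linarith
  refine (NoAC.iUnion hk).mono ?_
  rintro E ⟨h1, h2⟩
  obtain ⟨k, hk⟩ := exists_nat_gt |E|
  have h3 := abs_lt.1 hk
  exact Set.mem_iUnion.2 ⟨k, ⟨h1, by linarith [h3.1], by linarith [h3.2]⟩, h2⟩

/-- choice of the initial scale -/
lemma exists_scale2 {q ε : ℝ} (hq0 : 0 ≤ q) (hq1 : q < 1) (hε : 0 < ε) (C l M : ℕ) :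
    ∃ k : ℕ, C ≤ k * (l + 1) + 1 ∧ (((k * (l + 1) + 1 : ℕ) : ℝ))⁻¹ ≤ ε ∧
      q ^ k ≤ 1 / 2 * (((k * (l + 1) + 1 : ℕ) : ℝ) ^ M)⁻¹ := by
  have h1 : Tendsto (fun n : ℕ => (n : ℝ) ^ M * q ^ n) atTop (𝓝 0) :=
    tendsto_pow_const_mul_const_pow_of_abs_lt_one _ (by rwa [abs_of_nonneg hq0])
  have h2 : ∀ᶠ n : ℕ in atTop, q ^ n ≤ 1 / 2 * (((n * (l + 1) + 1 : ℕ) : ℝ) ^ M)⁻¹ := by
    have h3 := h1.const_mul (((l : ℝ) + 2) ^ M)
    rw [mul_zero] at h3
    have h4 := (tendsto_order.1 h3).2 (1 / 2) (by norm_num)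
    filter_upwards [h4, eventually_ge_atTop 1] with n hn hn1
    have hn1' : (1 : ℝ) ≤ n := by exact_mod_cast hn1
    rw [← div_eq_mul_inv, le_div_iff₀ (by positivity)]
    have h5 : ((n * (l + 1) + 1 : ℕ) : ℝ) ^ M ≤ ((l : ℝ) + 2) ^ M * (n : ℝ) ^ M := by
      rw [← mul_pow]
      refine pow_le_pow_left₀ (by positivity) ?_ _
      push_cast
      nlinarith
    calc q ^ n * ((n * (l + 1) + 1 : ℕ) : ℝ) ^ M ≤
        q ^ n * (((l : ℝ) + 2) ^ M * (n : ℝ) ^ M) := by gcongr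
      _ = ((l : ℝ) + 2) ^ M * ((n : ℝ) ^ M * q ^ n) := by ring
      _ ≤ 1 / 2 := hn.le
  have hle : ∀ n : ℕ, n ≤ n * (l + 1) := fun n => Nat.le_mul_of_pos_right n (by omega)
  have h3 : ∀ᶠ n : ℕ in atTop, (((n * (l + 1) + 1 : ℕ) : ℝ))⁻¹ ≤ ε := by
    have h4 : Tendsto (fun n : ℕ => (((n + 1 : ℕ) : ℝ))⁻¹) atTop (𝓝 0) := by
      have := tendsto_one_div_add_atTop_nhds_zero_nat (𝕜 := ℝ)
      refine this.congr fun n => ?_
      push_cast
      rw [one_div]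
    filter_upwards [(tendsto_order.1 h4).2 ε hε] with n hn
    refine le_trans ?_ hn.le
    have : ((n + 1 : ℕ) : ℝ) ≤ ((n * (l + 1) + 1 : ℕ) : ℝ) := by
      have := hle n
      exact_mod_cast Nat.succ_le_succ this
    exact inv_anti₀ (by positivity) this
  obtain ⟨n, h5, h6, h7⟩ := (h2.and (h3.and (eventually_ge_atTop C))).exists
  exact ⟨n, by have := hle n; omega, h6, h5⟩

/-- energies away from the large atoms -/
def Z1 (μ : Measure ℝ) (p0 K' lam : ℝ) : Set ℝ :=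
  {E | ∀ v : ℝ, ENNReal.ofReal p0 ≤ μ {v} → K' ≤ |E - lam * v|}

lemma isClosed_Z1 (μ : Measure ℝ) (p0 K' lam : ℝ) : IsClosed (Z1 μ p0 K' lam) := by
  have : Z1 μ p0 K' lam = ⋂ (v : ℝ) (_ : ENNReal.ofReal p0 ≤ μ {v}),
      {E : ℝ | K' ≤ |E - lam * v|} := by
    ext E
    simp only [Z1, Set.mem_ofPred_eq, Set.mem_iInter]
  rw [this]
  refine isClosed_iInter fun v => isClosed_iInter fun _ => ?_
  exact isClosed_le continuous_const (by fun_prop)

theorem regime1 (hd : 2 ≤ d) (μ : Measure ℝ) [IsProbabilityMeasure μ]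
    {R : ℝ} (hR : ∀ᵐ v ∂μ, |v| ≤ R) {p0 : ℝ} (hp0 : 0 < p0)
    (hsub : ∀ a : unitInterval, (a : ℝ) < p0 → ∃ S : Finset (V d), 0 ∈ S ∧ phi a S < 1)
    {ε : ℝ} (hε : 0 < ε) :
    ∃ K' lam0 : ℝ, 0 < K' ∧ 1 ≤ lam0 ∧ ∀ lam : ℝ, lam0 ≤ lam → ∃ S : Set ℝ, MeasurableSet S ∧
      volume (Z1 μ p0 K' lam \ S) ≤ ENNReal.ofReal ε ∧ NoAC d (μ.map fun v => lam * v) S := by
  have hd1 : 1 ≤ d := by omega
  have hd' : (2 : ℝ) ≤ d := by exact_mod_cast hd
  obtain ⟨p, hpp0, hp1, δ, hδ0, hδ⟩ := atoms μ hR (p0 := p0) hp0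
  set a₁ : unitInterval := ⟨min p 1, le_min hpp0.le zero_le_one, min_le_right _ _⟩ with ha₁
  obtain ⟨S0, hS0, hphi⟩ := hsub a₁ ((min_le_left _ _).trans_lt hp1)
  obtain ⟨l, hl⟩ := decay a₁ hS0
  have hq0 : 0 ≤ phi a₁ S0 := Finset.sum_nonneg fun _ _ => Finset.sum_nonneg fun _ _ =>
    measureReal_nonneg
  obtain ⟨k, hC, hLε, hpn⟩ := exists_scale2 hq0 hphi (half_pos hε)
    ((2 * d * 17 ^ d) ^ 2 * 10 ^ (4 * (3 * d + 4) + 2 * d + 2) +
      6 * 17 ^ (2 * d) * 10 ^ (2 * d + 1) + 4 ^ d * (4 * d ^ 2) + 12 * 17 ^ d) l (2 * d + 1)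
  set n : ℕ := k * (l + 1) with hn
  set L0 : ℕ := n + 1 with hL0
  have hL1 : 1 ≤ L0 := by omega
  have hLr : (1 : ℝ) ≤ L0 := by exact_mod_cast hL1
  set M : ℕ := 4 * (3 * d + 4) + 2 * d + 2 with hM
  set η : ℝ := 1 / 2 * ((L0 : ℝ) ^ (2 * d + 1))⁻¹ with hη
  have hη0 : 0 < η := by positivity
  set C1 : ℝ := 2 ^ ((2 * L0 + 1) ^ d) * (2 * (2 * (L0 : ℝ) + 1) ^ d) / η with hC1
  have hC10 : 0 < C1 := by positivity
  set τ : ℝ := min 1 (ε / 2 / C1) with hτ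
  have hτ0 : 0 < τ := lt_min one_pos (by positivity)
  have hτ1 : τ ≤ 1 := min_le_left _ _
  have hτC : 2 ^ ((2 * L0 + 1) ^ d) * (2 * τ * (2 * (L0 : ℝ) + 1) ^ d) / η ≤ ε / 2 := by
    have h1 : τ ≤ ε / 2 / C1 := min_le_right _ _
    rw [le_div_iff₀ hC10] at h1
    refine le_trans (le_of_eq ?_) h1
    rw [hC1]
    ring
  set K : ℝ := τ⁻¹ * (2 * d * (2 * (L0 : ℝ) + 1) ^ d) * (2 * d) * (L0 : ℝ) ^ M with hK
  have hdpos : (0 : ℝ) < d := by linarith
  have hK0 : 0 < K := by positivity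
  have hκ : τ⁻¹ * (2 * d * (2 * (L0 : ℝ) + 1) ^ d) * (2 * d / K) = ((L0 : ℝ) ^ M)⁻¹ := by
    rw [hK]
    field_simp
  set lam0 : ℝ := max 1 (K / δ + 1) with hlam0
  refine ⟨K + 2 * d + 1, lam0, by positivity, le_max_left _ _, fun lam hlam => ?_⟩
  have hlam1 : 1 ≤ lam := (le_max_left _ _).trans hlam
  have hlampos : 0 < lam := by linarith
  have hrδ : K / lam < δ := by
    have h1 : K / δ < lam := by
      have := (le_max_right _ _).trans hlam
      linarith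
    rw [div_lt_iff₀ hδ0] at h1
    rw [div_lt_iff₀ hlampos]
    linarith
  set ν : Measure ℝ := μ.map fun v => lam * v with hν
  have hgm : Measurable fun v : ℝ => lam * v := by fun_prop
  have hνp : IsProbabilityMeasure ν := Measure.isProbabilityMeasure_map hgm.aemeasurable
  have hball : ∀ E ∈ Z1 μ p0 (K + 2 * d + 1) lam,
      ν {v | |2 * d + v - E| ≤ K} ≤ ENNReal.ofReal a₁ := by
    intro E hE
    have hms : MeasurableSet {v : ℝ | |2 * d + v - E| ≤ K} :=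
      (isClosed_le (by fun_prop) continuous_const).measurableSet
    have hgoal : ν {v | |2 * d + v - E| ≤ K} ≤ ENNReal.ofReal p := by
      rw [hν, Measure.map_apply hgm hms]
      have e1 : (fun v : ℝ => lam * v) ⁻¹' {v : ℝ | |2 * d + v - E| ≤ K} =
          Metric.closedBall ((E - 2 * d) / lam) (K / lam) := by
        ext v
        simp only [Set.mem_preimage, Set.mem_ofPred_eq, Metric.mem_closedBall, Real.dist_eq]
        have h2 : v - (E - 2 * d) / lam = (2 * d + lam * v - E) / lam := by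
          field_simp
          ring
        rw [h2, abs_div, abs_of_pos hlampos, div_le_div_iff_of_pos_right hlampos]
      rw [e1]
      refine hδ _ _ hrδ fun v hv => ?_
      have h2 : v - (E - 2 * d) / lam = (2 * d + lam * v - E) / lam := by
        field_simp
        ring
      rw [h2, abs_div, abs_of_pos hlampos, div_lt_div_iff_of_pos_right hlampos]
      have h3 := hE v hv
      have h4 : |E - lam * v| ≤ |2 * d + lam * v - E| + |2 * (d : ℝ)| := by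
        have : E - lam * v = -(2 * d + lam * v - E) + 2 * d := by ring
        rw [this]
        refine (abs_add_le _ _).trans ?_
        rw [abs_neg]
      rw [abs_of_pos (by positivity : (0 : ℝ) < 2 * d)] at h4
      linarith
    show _ ≤ ENNReal.ofReal (min p 1)
    rcases min_choice p 1 with h | h
    · rw [h]; exact hgoal
    · rw [h, ENNReal.ofReal_one]; exact prob_le_one
  set B0 : Set ℝ := Z1 μ p0 (K + 2 * d + 1) lam ∩ YY d ν τ η L0 with hB0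
  have hB0m : MeasurableSet B0 :=
    (isClosed_Z1 μ _ _ _).measurableSet.inter (measurableSet_YY ν τ η L0)
  set X := XX d ν (3 * d + 4) L0 with hX
  have hXm : MeasurableSet X := measurableSet_XX ν _ _
  refine ⟨B0 ∩ X, hB0m.inter hXm, ?_, ?_⟩
  · have hsub : Z1 μ p0 (K + 2 * d + 1) lam \ (B0 ∩ X) ⊆ (YY d ν τ η L0)ᶜ ∪ Xᶜ := by
      intro E hE
      by_contra hc
      rw [Set.mem_union, not_or, Set.mem_compl_iff, Set.mem_compl_iff, not_not, not_not] at hc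
      exact hE.2 ⟨⟨hE.1, hc.1⟩, hc.2⟩
    have h1 : volume (YY d ν τ η L0)ᶜ ≤ ENNReal.ofReal (ε / 2) :=
      (volume_compl_YY ν hτ0.le hη0 L0).trans (ENNReal.ofReal_le_ofReal hτC)
    have h2 : volume Xᶜ ≤ ENNReal.ofReal (ε / 2) := by
      refine (volume_compl_XX ν rfl ?_).trans (ENNReal.ofReal_le_ofReal hLε)
      omega
    refine (measure_mono hsub).trans ((measure_union_le _ _).trans ((add_le_add h1 h2).trans ?_))
    rw [← ENNReal.ofReal_add (by positivity) (by positivity)]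
    exact ENNReal.ofReal_le_ofReal (by linarith)
  · refine engine2 ν hd (L0 := L0) (J := J2 K τ L0) (fun E a => dep_J2 K τ hL1 E a)
      (fun a => meas_J2 K τ L0 a) hL1 (by rw [hM] at hC; omega) (by omega) (by omega) hB0m
      (fun E hE a => ?_) (fun E hE ω a hJ => ?_)
    · refine (prob_J2 ν (hball E hE.1) (hl k) hE.2 a).trans ?_
      have h6 : η + η = ((L0 : ℝ) ^ (2 * d + 1))⁻¹ := by
        rw [hη]
        ring
      have h5 : phi a₁ S0 ^ k ≤ η := hpn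
      linarith
    · have h7 := good_of_J2 hd1 hL1 hK0 hτ0 hτ1 hJ
      rwa [hκ] at h7

end Pool.Agent.K7.H96.HDG
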