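import Pool.Agent.K7.H96.HDG.Fin2

set_option autoImplicit false

/-! Energies near the band of a large atom, but outside of it. -/

namespace Pool.Agent.K7.H96.HDG

open Finset Complex MeasureTheory ProbabilityTheory Filter
open scoped ENNReal Topology InnerProductSpace
open Pool.Agent.W783.PC (pm)
open Pool.Agent.H12R2.And (V ee Q mem_Q card_Q self_mem_Q Q_mono Q_trans Q_symm Rz
  mutuallySingular_of_rnDeriv)

variable {d : ℕ}

/-- no site is resonant -/
def J3 (K : ℝ) (L : ℕ) (ω : V d → ℝ) (E : ℝ) (a : V d) : Prop := ∀ x ∈ Q a L, ¬ Rs K ω E x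

lemma good_of_J3 {K E : ℝ} (hK : 0 < K) {L : ℕ} {ω : V d → ℝ} {a : V d} (h : J3 K L ω E a) :
    Good ω E L ((2 * d / K) ^ (L + 1)) a := by
  intro ε u S hu hS
  have key : ∀ j : ℕ, j ≤ L + 1 → ∀ x ∈ Q a (L + 1 - j), ‖u x‖ ≤ (2 * d / K) ^ j * S := by
    intro j
    induction j with
    | zero => intro _ x hx; simpa using hS x hx
    | succ j ih =>
      intro hj x hx
      have hxL : x ∈ Q a L := Q_mono (by omega) hx
      have h1 := bound_of_not_Rs hK (h x hxL) (hu x hxL) (S := (2 * d / K) ^ j * S)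
        fun y hy => ih (by omega) y (by
          have h1 := Q_trans hx (nb_Q hy)
          have h2 : L + 1 - (j + 1) + 1 = L + 1 - j := by omega
          rwa [h2] at h1)
      refine h1.trans (le_of_eq ?_)
      rw [pow_succ]
      ring
  exact key (L + 1) le_rfl a (self_mem_Q _ _)

lemma dep_J3 (K : ℝ) (L : ℕ) (E : ℝ) (a : V d) : Dep (Q a L) {ω | J3 K L ω E a} := by
  intro ω ω' h1 h2 x hx hc
  exact h2 x hx (Rs_congr (h1 x hx).symm hc)

lemma meas_J3 (K : ℝ) (L : ℕ) (a : V d) :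
    MeasurableSet {p : (V d → ℝ) × ℝ | J3 K L p.1 p.2 a} := by
  have : {p : (V d → ℝ) × ℝ | J3 K L p.1 p.2 a} = ⋂ (x : V d) (_ : x ∈ Q a L),
      {p : (V d → ℝ) × ℝ | Rs K p.1 p.2 x}ᶜ := by
    ext p
    simp only [J3, Set.mem_ofPred_eq, Set.mem_iInter, Set.mem_compl_iff]
  rw [this]
  exact MeasurableSet.iInter fun x => MeasurableSet.iInter fun _ => (meas_Rs K x).compl

lemma prob_J3 (ν : Measure ℝ) [IsProbabilityMeasure ν] {K E c : ℝ} (hc : 0 ≤ c) {L : ℕ}
    (hp : ν {v | |2 * d + v - E| ≤ K} ≤ ENNReal.ofReal c) (a : V d) :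
    (PP d ν).real {ω | ¬ J3 K L ω E a} ≤ (2 * L + 1) ^ d * c := by
  have hRs : ∀ x : V d, (PP d ν).real {ω | Rs K ω E x} ≤ c := by
    intro x
    have h1 : (PP d ν) {ω | Rs K ω E x} = ν {v | |2 * d + v - E| ≤ K} := by
      have hmp : MeasurePreserving (fun ω : V d → ℝ => ω x) (PP d ν) ν :=
        measurePreserving_eval_infinitePi (fun _ : V d => ν) x
      have hms : MeasurableSet {v : ℝ | |2 * d + v - E| ≤ K} :=
        (isClosed_le (by fun_prop) continuous_const).measurableSet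
      exact hmp.measure_preimage hms.nullMeasurableSet
    unfold Measure.real
    rw [h1]
    exact ENNReal.toReal_le_of_le_ofReal hc hp
  have h1 : {ω : V d → ℝ | ¬ J3 K L ω E a} ⊆ ⋃ x ∈ Q a L, {ω | Rs K ω E x} := by
    intro ω hω
    simp only [J3, Set.mem_ofPred_eq, not_forall, not_not] at hω
    obtain ⟨x, hx, h⟩ := hω
    simp only [Set.mem_iUnion]
    exact ⟨x, hx, h⟩
  refine (measureReal_mono h1 (measure_ne_top _ _)).trans
    ((measureReal_biUnion_finset_le _ _).trans ((Finset.sum_le_sum fun x _ => hRs x).trans ?_))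
  rw [Finset.sum_const, card_Q, nsmul_eq_mul]
  push_cast
  exact le_rfl

/-- energies near the band of the value `v`, but outside of it -/
def Z2 (d : ℕ) (K' ε' lam v : ℝ) : Set ℝ :=
  {E | |E - lam * v| ≤ K' ∧ 2 * d + ε' < |2 * d + lam * v - E|}

lemma measurableSet_Z2 (K' ε' lam v : ℝ) : MeasurableSet (Z2 d K' ε' lam v) := by
  have h1 : IsClosed {E : ℝ | |E - lam * v| ≤ K'} := isClosed_le (by fun_prop) continuous_const
  have h2 : IsOpen {E : ℝ | 2 * d + ε' < |2 * d + lam * v - E|} :=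
    isOpen_lt continuous_const (by fun_prop)
  exact h1.measurableSet.inter h2.measurableSet

theorem regime2 (hd : 2 ≤ d) (μ : Measure ℝ) [IsProbabilityMeasure μ] (v : ℝ) {K' : ℝ}
    (hK' : 0 ≤ K') {ε' : ℝ} (hε' : 0 < ε') {ε : ℝ} (hε : 0 < ε) :
    ∃ lam0 : ℝ, ∀ lam : ℝ, lam0 ≤ lam → ∃ S : Set ℝ, MeasurableSet S ∧
      volume (Z2 d K' ε' lam v \ S) ≤ ENNReal.ofReal ε ∧ NoAC d (μ.map fun v => lam * v) S := by
  have hd1 : 1 ≤ d := by omega
  have hd' : (2 : ℝ) ≤ d := by exact_mod_cast hd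
  set K : ℝ := 2 * d + ε' with hK
  have hK0 : 0 < K := by positivity
  set q : ℝ := 2 * d / K with hq
  have hq0 : 0 ≤ q := by positivity
  have hq1 : q < 1 := by
    rw [hq, div_lt_one hK0, hK]
    linarith
  set M : ℕ := 4 * (3 * d + 4) + 2 * d + 2 with hM
  obtain ⟨k, hC, hLε, hpn⟩ := exists_scale2 hq0 hq1 hε
    ((2 * d * 17 ^ d) ^ 2 * 10 ^ (4 * (3 * d + 4) + 2 * d + 2) +
      6 * 17 ^ (2 * d) * 10 ^ (2 * d + 1) + 4 ^ d * (4 * d ^ 2) + 12 * 17 ^ d) 0 M
  set L0 : ℕ := k * (0 + 1) + 1 with hL0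
  have hkL : k ≤ L0 + 1 := by rw [hL0]; omega
  have hL1 : 1 ≤ L0 := by omega
  have hLr : (1 : ℝ) ≤ L0 := by exact_mod_cast hL1
  set c : ℝ := ((L0 : ℝ) ^ (2 * d + 1))⁻¹ / (2 * L0 + 1) ^ d with hc
  have hc0 : 0 < c := by positivity
  obtain ⟨δ, hδ0, hδ⟩ := small_punctured μ v (c := ENNReal.ofReal c) (by simpa using hc0)
  set ρ : ℝ := K + 2 * d + K' with hρ
  refine ⟨max 1 (ρ / δ), fun lam hlam => ?_⟩
  have hlam1 : 1 ≤ lam := (le_max_left _ _).trans hlam
  have hlampos : 0 < lam := by linarith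
  have hrδ : ρ / lam ≤ δ := by
    have h1 : ρ / δ ≤ lam := (le_max_right _ _).trans hlam
    rw [div_le_iff₀ hδ0] at h1
    rw [div_le_iff₀ hlampos]
    linarith
  set ν : Measure ℝ := μ.map fun v => lam * v with hν
  have hgm : Measurable fun v : ℝ => lam * v := by fun_prop
  have hνp : IsProbabilityMeasure ν := Measure.isProbabilityMeasure_map hgm.aemeasurable
  have hball : ∀ E ∈ Z2 d K' ε' lam v, ν {v | |2 * d + v - E| ≤ K} ≤ ENNReal.ofReal c := by
    intro E hE
    have hms : MeasurableSet {v : ℝ | |2 * d + v - E| ≤ K} :=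
      (isClosed_le (by fun_prop) continuous_const).measurableSet
    rw [hν, Measure.map_apply hgm hms]
    refine (measure_mono ?_).trans hδ
    intro w hw
    have hw' : |2 * d + lam * w - E| ≤ K := hw
    refine ⟨?_, ?_⟩
    · rw [Metric.mem_closedBall, Real.dist_eq]
      refine le_trans ?_ hrδ
      rw [le_div_iff₀ hlampos]
      have h1 : |w - v| * lam = |(2 * d + lam * w - E) + -(2 * (d : ℝ)) + (E - lam * v)| := by
        rw [← abs_of_pos hlampos, ← abs_mul, abs_of_pos hlampos]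
        congr 1
        ring
      rw [h1]
      refine (abs_add_three _ _ _).trans ?_
      rw [abs_neg, abs_of_nonneg (by positivity : (0 : ℝ) ≤ 2 * d), hρ]
      have := hE.1
      linarith
    · rw [Set.mem_singleton_iff]
      rintro rfl
      have := hE.2
      linarith
  set X := XX d ν (3 * d + 4) L0 with hX
  have hXm : MeasurableSet X := measurableSet_XX ν _ _
  have hBm : MeasurableSet (Z2 d K' ε' lam v) := measurableSet_Z2 _ _ _ _
  refine ⟨Z2 d K' ε' lam v ∩ X, hBm.inter hXm, ?_, ?_⟩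
  · have hsub : Z2 d K' ε' lam v \ (Z2 d K' ε' lam v ∩ X) ⊆ Xᶜ := by
      intro E hE hc
      exact hE.2 ⟨hE.1, hc⟩
    refine (measure_mono hsub).trans ((volume_compl_XX ν rfl ?_).trans
      (ENNReal.ofReal_le_ofReal hLε))
    omega
  · refine engine2 ν hd (L0 := L0) (J := J3 K L0) (fun E a => dep_J3 K L0 E a)
      (fun a => meas_J3 K L0 a) hL1 (by omega) (by omega) (by omega) hBm
      (fun E hE a => ?_) (fun E hE ω a hJ => ?_)
    · refine (prob_J3 ν hc0.le (hball E hE) a).trans (le_of_eq ?_)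
      rw [hc]
      field_simp
    · have h7 := good_of_J3 hK0 hJ
      intro ε u S hu hS
      refine (h7 ε u S hu hS).trans ?_
      have hS0 : 0 ≤ S := (norm_nonneg _).trans (hS a (self_mem_Q a _))
      refine mul_le_mul_of_nonneg_right ?_ hS0
      have h8 : (2 * (d : ℝ) / K) ^ (L0 + 1) ≤ q ^ k := pow_le_pow_of_le_one hq0 hq1.le hkL
      have h9 : 0 < ((L0 : ℝ) ^ M)⁻¹ := by positivity
      refine h8.trans (hpn.trans ?_)
      linarith

end Pool.Agent.K7.H96.HDG
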