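import Pool.Agent.K7.H96.HDG.Fin3

set_option autoImplicit false

/-! The a.c. spectrum at high disorder is contained in the bands of the percolating atoms, up to
small measure. -/

namespace Pool.Agent.K7.H96.HDG

open Finset Complex MeasureTheory ProbabilityTheory Filter
open scoped ENNReal Topology InnerProductSpace
open Pool.Agent.W783.PC (pm)
open Pool.Agent.H12R2.And (V ee Q mem_Q card_Q self_mem_Q Q_mono Q_trans Q_symm Rz
  mutuallySingular_of_rnDeriv)

variable {d : ℕ}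

/-- energies outside of the bands of the large atoms -/
def ZB (d : ℕ) (μ : Measure ℝ) (p0 lam : ℝ) : Set ℝ :=
  {E | ∀ v : ℝ, p0 ≤ μ.real {v} → E ∉ Set.Icc (lam * v) (lam * v + 4 * d)}

theorem main4 (hd : 2 ≤ d) (μ : Measure ℝ) [IsProbabilityMeasure μ]
    {R : ℝ} (hR : ∀ᵐ v ∂μ, |v| ≤ R) {p0 : ℝ} (hp0 : 0 < p0)
    (hsub : ∀ a : unitInterval, (a : ℝ) < p0 → ∃ S : Finset (V d), 0 ∈ S ∧ phi a S < 1)
    {ε : ℝ} (hε : 0 < ε) :
    ∃ lam0 : ℝ, ∀ lam : ℝ, lam0 ≤ lam → ∃ S : Set ℝ, MeasurableSet S ∧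
      volume (ZB d μ p0 lam \ S) ≤ ENNReal.ofReal ε ∧ NoAC d (μ.map fun v => lam * v) S := by
  have hfin : Set.Finite {v : ℝ | ENNReal.ofReal p0 ≤ μ {v}} := by
    refine Measure.finite_const_le_meas_of_disjoint_iUnion μ (As := fun v : ℝ => {v})
      (by simpa using hp0) (fun v => measurableSet_singleton v) ?_ (measure_ne_top _ _)
    intro a b hab
    simpa using hab
  set F : Finset ℝ := hfin.toFinset with hF
  have hFm : ∀ v : ℝ, v ∈ F ↔ ENNReal.ofReal p0 ≤ μ {v} := fun v => by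
    rw [hF, Set.Finite.mem_toFinset]; rfl
  have hFm2 : ∀ v : ℝ, v ∈ F ↔ p0 ≤ μ.real {v} := fun v => by
    rw [hFm, ENNReal.ofReal_le_iff_le_toReal (measure_ne_top _ _)]; rfl
  set N : ℝ := F.card + 1 with hN
  have hN0 : 0 < N := by positivity
  have hFN : (F.card : ℝ) ≤ N := by rw [hN]; linarith
  obtain ⟨K', lam1, hK', -, h1⟩ := regime1 hd μ hR hp0 hsub (ε := ε / 3) (by positivity)
  set ε' : ℝ := ε / (6 * N) with hε'
  have hε'0 : 0 < ε' := by positivity
  set ε2 : ℝ := ε / (3 * N) with hε2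
  have hε20 : 0 < ε2 := by positivity
  choose lamf hlamf using fun v : ℝ => regime2 (d := d) hd μ v hK'.le hε'0 hε20
  refine ⟨max lam1 (∑ v ∈ F, |lamf v|), fun lam hlam => ?_⟩
  have hl1 : lam1 ≤ lam := (le_max_left _ _).trans hlam
  have hl2 : ∀ v ∈ F, lamf v ≤ lam := fun v hv =>
    ((le_abs_self _).trans (Finset.single_le_sum (f := fun v => |lamf v|)
      (fun _ _ => abs_nonneg _) hv)).trans ((le_max_right _ _).trans hlam)
  obtain ⟨S1, hS1m, hS1v, hS1⟩ := h1 lam hl1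
  choose! T hTm hTv hT using fun (v : ℝ) (hv : v ∈ F) => hlamf v lam (hl2 v hv)
  have hTF : MeasurableSet (⋃ v ∈ F, T v) := F.measurableSet_biUnion fun v hv => hTm v hv
  refine ⟨S1 ∪ ⋃ v ∈ F, T v, hS1m.union hTF, ?_, ?_⟩
  · have hsub : ZB d μ p0 lam \ (S1 ∪ ⋃ v ∈ F, T v) ⊆
        (Z1 μ p0 K' lam \ S1) ∪ ⋃ v ∈ F, ((Z2 d K' ε' lam v \ T v) ∪
          (Set.Icc (lam * v - ε') (lam * v) ∪
            Set.Icc (lam * v + 4 * d) (lam * v + 4 * d + ε'))) := by
      rintro E ⟨hE, hES⟩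
      rw [Set.mem_union, not_or] at hES
      by_cases hZ : E ∈ Z1 μ p0 K' lam
      · exact Or.inl ⟨hZ, hES.1⟩
      right
      simp only [Z1, Set.mem_ofPred_eq, not_forall, not_le] at hZ
      obtain ⟨v, hv, hvE⟩ := hZ
      have hvF : v ∈ F := (hFm v).2 hv
      have hET : E ∉ T v := fun hc => hES.2 (Set.mem_biUnion hvF hc)
      have hEb := hE v ((hFm2 v).1 hvF)
      refine Set.mem_biUnion hvF ?_
      by_cases h2 : 2 * d + ε' < |2 * d + lam * v - E|
      · exact Or.inl ⟨⟨hvE.le, h2⟩, hET⟩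
      right
      rw [not_lt, abs_le] at h2
      rw [Set.mem_Icc, not_and_or, not_le, not_le] at hEb
      rcases hEb with h3 | h3
      · left
        exact ⟨by linarith [h2.2], h3.le⟩
      · right
        exact ⟨h3.le, by linarith [h2.1]⟩
    refine (measure_mono hsub).trans ((measure_union_le _ _).trans ?_)
    have h3 : volume (⋃ v ∈ F, ((Z2 d K' ε' lam v \ T v) ∪
          (Set.Icc (lam * v - ε') (lam * v) ∪
            Set.Icc (lam * v + 4 * d) (lam * v + 4 * d + ε')))) ≤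
        ∑ v ∈ F, ENNReal.ofReal (ε2 + 2 * ε') := by
      refine (measure_biUnion_finset_le _ _).trans (Finset.sum_le_sum fun v hv => ?_)
      refine (measure_union_le _ _).trans ?_
      rw [ENNReal.ofReal_add hε20.le (by positivity)]
      refine add_le_add (hTv v hv) ((measure_union_le _ _).trans ?_)
      rw [Real.volume_Icc, Real.volume_Icc, ← ENNReal.ofReal_add (by linarith) (by linarith)]
      refine ENNReal.ofReal_le_ofReal (by linarith)
    refine (add_le_add hS1v h3).trans ?_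
    rw [Finset.sum_const, nsmul_eq_mul, ← ENNReal.ofReal_natCast,
      ← ENNReal.ofReal_mul (by positivity), ← ENNReal.ofReal_add (by positivity) (by positivity)]
    refine ENNReal.ofReal_le_ofReal ?_
    have h4 : (F.card : ℝ) * (ε2 + 2 * ε') ≤ N * (ε2 + 2 * ε') :=
      mul_le_mul_of_nonneg_right hFN (by positivity)
    have h5 : N * (ε2 + 2 * ε') = 2 * ε / 3 := by
      rw [hε2, hε']
      field_simp
      ring
    linarith
  · have h4 : NoAC d (μ.map fun v => lam * v) (⋃ v : {v // v ∈ F}, T v.1) :=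
      NoAC.iUnion fun v => hT v.1 v.2
    have h5 : NoAC d (μ.map fun v => lam * v) (⋃ b : Bool, cond b S1 (⋃ v : {v // v ∈ F}, T v.1)) := by
      refine NoAC.iUnion fun b => ?_
      cases b
      · exact h4
      · exact hS1
    refine h5.mono ?_
    rintro E (hE | hE)
    · exact Set.mem_iUnion.2 ⟨true, hE⟩
    · refine Set.mem_iUnion.2 ⟨false, ?_⟩
      simp only [Set.mem_iUnion] at hE
      obtain ⟨v, hv, hE⟩ := hE
      exact Set.mem_iUnion.2 ⟨⟨v, hv⟩, hE⟩

/-- the form with the critical probability -/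
theorem main5 (hd : 2 ≤ d) (μ : Measure ℝ) [IsProbabilityMeasure μ]
    {R : ℝ} (hR : ∀ᵐ v ∂μ, |v| ≤ R) {P : Set ℝ}
    (hP : ∀ p ∈ P, ∃ q : unitInterval, (q : ℝ) = p ∧ (pm fun _ : V d => q).real (Inf d) = 0)
    {ε : ℝ} (hε : 0 < ε) :
    ∃ lam0 : ℝ, ∀ lam : ℝ, lam0 ≤ lam → ∃ S : Set ℝ, MeasurableSet S ∧
      volume (ZB d μ (sSup P) lam \ S) ≤ ENNReal.ofReal ε ∧
      ∀ᵐ ω ∂(PP d (μ.map fun v => lam * v)),
        ∀ (H : lp (fun _ : V d => ℂ) 2 →L[ℂ] lp (fun _ : V d => ℂ) 2), IsH ω H →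
          ∀ (ψ : lp (fun _ : V d => ℂ) 2) (m : Measure ℝ), IsFiniteMeasure m →
            (∀ z : ℂ, z.im ≠ 0 → (∫ x, ((x : ℂ) - z)⁻¹ ∂m) = inner ℂ ψ (Rz H z ψ)) →
            (m.restrict S) ⟂ₘ volume := by
  have hd1 : 1 ≤ d := by omega
  by_cases hs : 0 < sSup P
  · obtain ⟨lam0, h⟩ := main4 hd μ hR hs (fun a ha => by
      have hne : P.Nonempty := by
        by_contra hne
        rw [Set.not_nonempty_iff_eq_empty] at hne
        rw [hne, Real.sSup_empty] at hs
        exact lt_irrefl _ hs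
      obtain ⟨p, hp, hap⟩ := exists_lt_of_lt_csSup hne ha
      obtain ⟨q, hq, hq0⟩ := hP p hp
      exact dct hd1 (by rw [← Subtype.coe_lt_coe, hq]; exact hap) hq0) hε
    refine ⟨lam0, fun lam hlam => ?_⟩
    obtain ⟨S, hSm, hSv, hS⟩ := h lam hlam
    refine ⟨S, hSm, hSv, ?_⟩
    filter_upwards [hS] with ω hω H hH ψ m hm hBT
    exact mutuallySingular_of_rnDeriv hSm (hω H hH ψ m hm hBT)
  · refine ⟨1, fun lam hlam => ⟨∅, MeasurableSet.empty, ?_, ?_⟩⟩
    · have : ZB d μ (sSup P) lam = ∅ := by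
        ext E
        simp only [ZB, Set.mem_ofPred_eq, Set.mem_empty_iff_false, iff_false, not_forall, not_not]
        have hpos : 0 < lam := by linarith
        refine ⟨E / lam, (not_lt.1 hs).trans measureReal_nonneg, ?_⟩
        rw [mul_div_cancel₀ _ hpos.ne', Set.mem_Icc]
        have : (0 : ℝ) ≤ d := Nat.cast_nonneg d
        exact ⟨le_rfl, by linarith⟩
      rw [this, Set.empty_sdiff, measure_empty]
      exact zero_le
    · exact ae_of_all _ fun ω H _ ψ m _ _ => by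
        rw [Measure.restrict_empty]
        exact Measure.MutuallySingular.zero_left

end Pool.Agent.K7.H96.HDG
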