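import Pool.Agent.K7.H96.HDG.Bc

set_option autoImplicit false

/-! The initial scale at high disorder: clusters of resonant sites. -/

namespace Pool.Agent.K7.H96.HDG

open Finset Complex MeasureTheory ProbabilityTheory Filter
open scoped ENNReal Topology
open Pool.Agent.H12R2.And (V ee Q mem_Q card_Q self_mem_Q Q_mono Q_trans Q_symm add_ee_mem
  sub_ee_mem sum_ite_supp)

variable {d : ℕ}

/-- resonant site -/
def Rs (K : ℝ) (ω : V d → ℝ) (E : ℝ) (x : V d) : Prop := |2 * d + ω x - E| ≤ K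

/-- nearest neighbours -/
noncomputable def nb (x : V d) : Finset (V d) :=
  (Finset.univ.image fun i : Fin d => x + ee i) ∪ (Finset.univ.image fun i : Fin d => x - ee i)

lemma mem_nb {x y : V d} : y ∈ nb x ↔ (∃ i, x + ee i = y) ∨ ∃ i, x - ee i = y := by
  unfold nb
  simp

lemma card_nb (x : V d) : (nb x).card ≤ 2 * d := by
  unfold nb
  refine (Finset.card_union_le _ _).trans ?_
  have h1 : (Finset.univ.image fun i : Fin d => x + ee i).card ≤ d := by
    refine Finset.card_image_le.trans ?_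
    simp
  have h2 : (Finset.univ.image fun i : Fin d => x - ee i).card ≤ d := by
    refine Finset.card_image_le.trans ?_
    simp
  omega

lemma nb_Q {x y : V d} (h : y ∈ nb x) : y ∈ Q x 1 := by
  rw [mem_nb] at h
  rcases h with ⟨i, rfl⟩ | ⟨i, rfl⟩
  · exact add_ee_mem x i
  · exact sub_ee_mem x i

lemma nb_symm {x y : V d} (h : y ∈ nb x) : x ∈ nb y := by
  rw [mem_nb] at h ⊢
  rcases h with ⟨i, rfl⟩ | ⟨i, rfl⟩
  · exact Or.inr ⟨i, by abel⟩
  · exact Or.inl ⟨i, by abel⟩

lemma nb_ne {x y : V d} (h : y ∈ nb x) : y ≠ x := by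
  rw [mem_nb] at h
  rcases h with ⟨i, rfl⟩ | ⟨i, rfl⟩
  · intro h
    have := congrFun h i
    simp at this
  · intro h
    have := congrFun h i
    simp at this

/-- there is a self-avoiding path of `n` steps of resonant sites which starts at `x` and avoids
`F` -/
def Path (K : ℝ) (ω : V d → ℝ) (E : ℝ) : ℕ → Finset (V d) → V d → Prop
  | 0, _, x => Rs K ω E x
  | n + 1, F, x => Rs K ω E x ∧ ∃ y ∈ nb x, y ∉ insert x F ∧ Path K ω E n (insert x F) y

lemma meas_Rs (K : ℝ) (x : V d) : MeasurableSet {p : (V d → ℝ) × ℝ | Rs K p.1 p.2 x} := by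
  have : IsClosed {p : (V d → ℝ) × ℝ | |2 * d + p.1 x - p.2| ≤ K} :=
    isClosed_le (by fun_prop) continuous_const
  exact this.measurableSet

lemma meas_Path (K : ℝ) : ∀ (n : ℕ) (F : Finset (V d)) (x : V d),
    MeasurableSet {p : (V d → ℝ) × ℝ | Path K p.1 p.2 n F x} := by
  intro n
  induction n with
  | zero => intro F x; simpa only [Path] using meas_Rs K x
  | succ n ih =>
    intro F x
    have : {p : (V d → ℝ) × ℝ | Path K p.1 p.2 (n + 1) F x} =
        {p : (V d → ℝ) × ℝ | Rs K p.1 p.2 x} ∩ ⋃ (y : V d) (_ : y ∈ nb x) (_ : y ∉ insert x F),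
          {p : (V d → ℝ) × ℝ | Path K p.1 p.2 n (insert x F) y} := by
      ext p
      simp only [Path, Set.mem_ofPred_eq, Set.mem_inter_iff, Set.mem_iUnion]
      constructor
      · rintro ⟨h1, y, h2, h3, h4⟩
        exact ⟨h1, y, h2, h3, h4⟩
      · rintro ⟨h1, y, h2, h3, h4⟩
        exact ⟨h1, y, h2, h3, h4⟩
    rw [this]
    exact (meas_Rs K x).inter (MeasurableSet.iUnion fun y => MeasurableSet.iUnion fun _ =>
      MeasurableSet.iUnion fun _ => ih _ y)

lemma Rs_congr {K E : ℝ} {ω ω' : V d → ℝ} {x : V d} (h : ω x = ω' x) (h2 : Rs K ω E x) :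
    Rs K ω' E x := by
  unfold Rs at *
  rwa [← h]

lemma dep_Path (K E : ℝ) : ∀ (n : ℕ) (F : Finset (V d)) (x : V d), x ∉ F →
    Dep (Q x n \ F) {ω | Path K ω E n F x} := by
  intro n
  induction n with
  | zero =>
    intro F x hx ω ω' h1 h2
    exact Rs_congr (h1 x (Finset.mem_sdiff.2 ⟨self_mem_Q x 0, hx⟩)) h2
  | succ n ih =>
    rintro F x hx ω ω' h1 ⟨h2, y, h3, h4, h5⟩
    refine ⟨Rs_congr (h1 x (Finset.mem_sdiff.2 ⟨self_mem_Q x _, hx⟩)) h2, y, h3, h4, ?_⟩
    refine ih (insert x F) y h4 ω ω' (fun z hz => h1 z ?_) h5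
    rw [Finset.mem_sdiff] at hz ⊢
    refine ⟨?_, fun hc => hz.2 (Finset.mem_insert_of_mem hc)⟩
    have := Q_trans (nb_Q h3) hz.1
    rwa [add_comm] at this

variable (ν : Measure ℝ) [IsProbabilityMeasure ν]

lemma prob_step {K E p B : ℝ} (hp : ∀ x : V d, (PP d ν).real {ω | Rs K ω E x} ≤ p) (n : ℕ)
    (F : Finset (V d)) (x : V d) (hB : ∀ y ∈ nb x, y ∉ insert x F →
      (PP d ν).real {ω | Path K ω E n (insert x F) y} ≤ B) (hB0 : 0 ≤ B) {c : ℕ}
    (hc : ((nb x).filter fun y => y ∉ insert x F).card ≤ c) :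
    (PP d ν).real {ω | Path K ω E (n + 1) F x} ≤ p * (c * B) := by
  have hp0 : 0 ≤ p := measureReal_nonneg.trans (hp x)
  set N := (nb x).filter fun y => y ∉ insert x F with hN
  set A1 : Set (V d → ℝ) := {ω | Rs K ω E x} with hA1
  set A2 : Set (V d → ℝ) := {ω | ∃ y ∈ N, Path K ω E n (insert x F) y} with hA2
  have e1 : {ω | Path K ω E (n + 1) F x} = A1 ∩ A2 := by
    ext ω
    simp only [Path, hA1, hA2, hN, Set.mem_ofPred_eq, Set.mem_inter_iff, Finset.mem_filter]
    constructor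
    · rintro ⟨h1, y, h2, h3, h4⟩
      exact ⟨h1, y, ⟨h2, h3⟩, h4⟩
    · rintro ⟨h1, y, ⟨h2, h3⟩, h4⟩
      exact ⟨h1, y, h2, h3, h4⟩
  have e2 : A2 = ⋃ y ∈ N, {ω | Path K ω E n (insert x F) y} := by
    ext ω
    simp only [hA2, Set.mem_ofPred_eq, Set.mem_iUnion]
    simp
  have m1 : MeasurableSet A1 := meas_sec (P := fun ω E => Rs K ω E x) (meas_Rs K x) E
  have m2 : MeasurableSet A2 := by
    rw [e2]
    exact Finset.measurableSet_biUnion _ fun y _ =>
      meas_sec (P := fun ω E => Path K ω E n (insert x F) y) (meas_Path K n (insert x F) y) E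
  have d1 : Dep {x} A1 := by
    intro ω ω' h1 h2
    exact Rs_congr (h1 x (Finset.mem_singleton_self x)) h2
  have d2 : Dep (Q x (n + 1) \ insert x F) A2 := by
    rintro ω ω' h1 ⟨y, hy, h2⟩
    rw [hN, Finset.mem_filter] at hy
    refine ⟨y, ?_, dep_Path K E n (insert x F) y hy.2 ω ω' (fun z hz => h1 z ?_) h2⟩
    · rw [hN, Finset.mem_filter]; exact hy
    · rw [Finset.mem_sdiff] at hz ⊢
      refine ⟨?_, hz.2⟩
      have := Q_trans (nb_Q hy.1) hz.1
      rwa [add_comm] at this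
  have hdisj : Disjoint {x} (Q x (n + 1) \ insert x F) := by
    rw [Finset.disjoint_singleton_left, Finset.mem_sdiff]
    rintro ⟨_, h⟩
    exact h (Finset.mem_insert_self x F)
  rw [e1, d1.indep d2 m1 m2 hdisj]
  refine mul_le_mul (hp x) ?_ measureReal_nonneg hp0
  rw [e2]
  refine (measureReal_biUnion_finset_le _ _).trans ?_
  have h3 : ∑ y ∈ N, (PP d ν).real {ω | Path K ω E n (insert x F) y} ≤ ∑ _y ∈ N, B := by
    refine Finset.sum_le_sum fun y hy => ?_
    rw [hN, Finset.mem_filter] at hy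
    exact hB y hy.1 hy.2
  refine h3.trans ?_
  rw [Finset.sum_const, nsmul_eq_mul]
  refine mul_le_mul_of_nonneg_right ?_ hB0
  exact_mod_cast hc

lemma prob_path {K E p : ℝ} (hd : 1 ≤ d) (hp : ∀ x : V d, (PP d ν).real {ω | Rs K ω E x} ≤ p) :
    ∀ (n : ℕ) (F : Finset (V d)) (x : V d), (∃ y ∈ nb x, y ∈ F) →
      (PP d ν).real {ω | Path K ω E n F x} ≤ p * ((2 * d - 1) * p) ^ n := by
  have hp0 : 0 ≤ p := measureReal_nonneg.trans (hp 0)
  have hd' : (1 : ℝ) ≤ d := by exact_mod_cast hd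
  have hq : 0 ≤ (2 * (d : ℝ) - 1) * p := mul_nonneg (by linarith) hp0
  intro n
  induction n with
  | zero =>
    intro F x _
    simpa [Path] using hp x
  | succ n ih =>
    intro F x hx
    have h1 := prob_step ν hp n F x (B := p * ((2 * d - 1) * p) ^ n) (c := 2 * d - 1)
      (fun y hy _ => ih (insert x F) y ⟨x, nb_symm hy, Finset.mem_insert_self x F⟩)
      (mul_nonneg hp0 (pow_nonneg hq _)) (by
        obtain ⟨y, hy, hyF⟩ := hx
        have h2 : ((nb x).filter fun y => y ∉ insert x F) ⊆ (nb x).erase y := by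
          intro z hz
          rw [Finset.mem_filter] at hz
          rw [Finset.mem_erase]
          refine ⟨?_, hz.1⟩
          rintro rfl
          exact hz.2 (Finset.mem_insert_of_mem hyF)
        have h3 := Finset.card_le_card h2
        rw [Finset.card_erase_of_mem hy] at h3
        have h4 := card_nb x
        omega)
    refine h1.trans (le_of_eq ?_)
    have : ((2 * d - 1 : ℕ) : ℝ) = 2 * d - 1 := by
      rw [Nat.cast_sub (by omega)]
      push_cast
      ring
    rw [this, pow_succ]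
    ring

lemma prob_path0 {K E p : ℝ} (hd : 1 ≤ d) (hp : ∀ x : V d, (PP d ν).real {ω | Rs K ω E x} ≤ p)
    (n : ℕ) (x : V d) : (PP d ν).real {ω | Path K ω E (n + 1) ∅ x} ≤
      p * (2 * d * (p * ((2 * d - 1) * p) ^ n)) := by
  have hp0 : 0 ≤ p := measureReal_nonneg.trans (hp 0)
  have hd' : (1 : ℝ) ≤ d := by exact_mod_cast hd
  have hq : 0 ≤ (2 * (d : ℝ) - 1) * p := mul_nonneg (by linarith) hp0
  have h1 := prob_step ν hp n ∅ x (B := p * ((2 * d - 1) * p) ^ n) (c := 2 * d)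
      (fun y hy _ => prob_path ν hd hp n (insert x ∅) y
        ⟨x, nb_symm hy, Finset.mem_insert_self x ∅⟩)
      (mul_nonneg hp0 (pow_nonneg hq _)) ((Finset.card_filter_le _ _).trans (card_nb x))
  refine h1.trans (le_of_eq ?_)
  push_cast
  ring


end Pool.Agent.K7.H96.HDG
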