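import Pool.Agent.K7.H96.HDG.Res

set_option autoImplicit false

/-! The multiscale analysis at a fixed energy, with an arbitrary local initial event. -/

namespace Pool.Agent.K7.H96.HDG

open Finset Complex MeasureTheory ProbabilityTheory
open scoped ENNReal
open Pool.Agent.H12R2.And (V ee Q mem_Q card_Q self_mem_Q Q_mono Q_trans Q_symm add_ee_mem
  sub_ee_mem sum_ite_supp finrank_D mem_Q_shift sum_Q_shift numeric_step numeric_prob)

variable {d : ℕ}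

/-- non-resonance of three concentric cubes at scale `L` -/
def RR (r : ℕ) (ω : V d → ℝ) (E : ℝ) (L : ℕ) (a : V d) : Prop :=
  ∀ j : ℕ, j < 3 → NR ω E (Q a ((3 * j + 2) * L - 1)) ((L : ℝ) ^ r)⁻¹

lemma Good.mono {ω : V d → ℝ} {E κ κ' : ℝ} {L : ℕ} {a : V d} (h : Good ω E L κ a)
    (hκ : κ ≤ κ') : Good ω E L κ' a := by
  intro ε u S hu hS
  have hS0 : 0 ≤ S := (norm_nonneg _).trans (hS a (self_mem_Q a _))
  exact (h ε u S hu hS).trans (mul_le_mul_of_nonneg_right hκ hS0)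

lemma dep_RR (r : ℕ) (E : ℝ) (L : ℕ) (a : V d) : Dep (Q a (8 * L)) {ω | RR r ω E L a} := by
  intro ω ω' h1 h2 j hj
  refine dep_NR E _ _ ω ω' (fun x hx => h1 x (Q_mono ?_ hx)) (h2 j hj)
  have : (3 * j + 2) * L ≤ 8 * L := Nat.mul_le_mul_right _ (by omega)
  omega

lemma joint_RR (r L : ℕ) (a : V d) :
    MeasurableSet {p : (V d → ℝ) × ℝ | RR r p.1 p.2 L a} := by
  have : {p : (V d → ℝ) × ℝ | RR r p.1 p.2 L a} = ⋂ (j : ℕ) (_ : j < 3),
      {p : (V d → ℝ) × ℝ | NR p.1 p.2 (Q a ((3 * j + 2) * L - 1)) ((L : ℝ) ^ r)⁻¹} := by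
    ext p
    simp only [RR, Set.mem_ofPred_eq, Set.mem_iInter]
  rw [this]
  exact MeasurableSet.iInter fun j => MeasurableSet.iInter fun _ => meas_NR _ _

/-- sections of jointly measurable events -/
lemma meas_sec {P : (V d → ℝ) → ℝ → Prop} (h : MeasurableSet {p : (V d → ℝ) × ℝ | P p.1 p.2})
    (E : ℝ) : MeasurableSet {ω | P ω E} := by
  have h1 : Measurable fun ω : V d → ℝ => (ω, E) := by fun_prop
  exact h1 h

lemma RR_shift (r : ℕ) (a : V d) (ω : V d → ℝ) (E : ℝ) (L : ℕ) :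
    RR r (shift a ω) E L 0 ↔ RR r ω E L a := by
  unfold RR
  exact forall_congr' fun j => imp_congr_right fun _ => NR_shift a ω E _ _

lemma real_not_RR (ν : Measure ℝ) [IsProbabilityMeasure ν] (r : ℕ) (a : V d) (E : ℝ) (L : ℕ) :
    (PP d ν).real {ω | ¬ RR r ω E L a} = (PP d ν).real {ω | ¬ RR r ω E L 0} := by
  have h1 : {ω : V d → ℝ | ¬ RR r ω E L a} = shift a ⁻¹' {ω | ¬ RR r ω E L 0} := by
    ext ω
    simp only [Set.mem_ofPred_eq, Set.mem_preimage, RR_shift]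
  rw [h1, real_shift]
  exact (meas_sec (P := fun ω E => RR r ω E L 0) (joint_RR r L 0) E).compl

/-- the good events of the multiscale analysis -/
def GG (J : (V d → ℝ) → ℝ → V d → Prop) (r L0 : ℕ) : ℕ → (V d → ℝ) → ℝ → V d → Prop
  | 0, ω, E, a => J ω E a
  | k + 1, ω, E, a => RR r ω E (10 ^ k * L0) a ∧ ∃ i j : ℕ, i < j ∧ j < 3 ∧
      (∀ w : V d, w ∈ Q a ((3 * i + 2) * (10 ^ k * L0)) →
        w ∉ Q a ((3 * i + 2) * (10 ^ k * L0) - 1) → GG J r L0 k ω E w) ∧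
      (∀ w : V d, w ∈ Q a ((3 * j + 2) * (10 ^ k * L0)) →
        w ∉ Q a ((3 * j + 2) * (10 ^ k * L0) - 1) → GG J r L0 k ω E w)

lemma good_of_GG {J : (V d → ℝ) → ℝ → V d → Prop} {r L0 M : ℕ} (hd : 1 ≤ d) (hM : 2 * (r + d) + 1 ≤ M) (h1 : 1 ≤ L0)
    (hL0 : (2 * d * 17 ^ d) ^ 2 * 10 ^ M ≤ L0) {E : ℝ}
    (h0 : ∀ (ω : V d → ℝ) (a : V d), J ω E a → Good ω E L0 (((L0 : ℝ) ^ M)⁻¹) a) :
    ∀ (k : ℕ) (ω : V d → ℝ) (a : V d), GG J r L0 k ω E a →
      Good ω E (10 ^ k * L0) ((((10 ^ k * L0 : ℕ) : ℝ) ^ M)⁻¹) a := by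
  intro k
  induction k with
  | zero => intro ω a h; simpa using h0 ω a h
  | succ k ih =>
    rintro ω a ⟨hR, i, j, hij, hj, hi', hj'⟩
    set L := 10 ^ k * L0 with hLdef
    have hL1 : 1 ≤ L := Nat.one_le_iff_ne_zero.mpr (by positivity)
    have hLL0 : L0 ≤ L := Nat.le_mul_of_pos_left _ (by positivity)
    have hL' : (1 : ℝ) ≤ L := by exact_mod_cast hL1
    have hd' : (1 : ℝ) ≤ d := by exact_mod_cast hd
    have e10 : 10 ^ (k + 1) * L0 = 10 * L := by rw [hLdef]; ring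
    rw [e10]
    have hKκ := numeric_step (d := d) hM hL1 (hL0.trans hLL0)
    refine Good.mono ?_ hKκ
    have hi3 : i < 3 := by omega
    refine good_of_two_shells (τ := ((L : ℝ) ^ r)⁻¹) (L := L) (ρ₁ := (3 * i + 2) * L)
      (ρ₂ := (3 * j + 2) * L) (by positivity) (by positivity) ?_ ?_ ?_ ?_ ?_ (hR i hi3) (hR j hj)
      (fun w hw hw' => ih ω w (hi' w hw hw')) (fun w hw hw' => ih ω w (hj' w hw hw'))
    · have : (1 : ℝ) ≤ 2 * d * 17 ^ d := by
        have : (1 : ℝ) ≤ 17 ^ d := one_le_pow₀ (by norm_num)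
        nlinarith
      have h2 : (1 : ℝ) ≤ (L : ℝ) ^ (r + d) := one_le_pow₀ hL'
      nlinarith
    · nlinarith
    · nlinarith
    · nlinarith
    · rw [inv_inv]
      have h8 : (2 * (((3 * j + 2) * L : ℕ) : ℝ) + 1) ≤ 17 * L := by
        have : (3 * j + 2) * L ≤ 8 * L := Nat.mul_le_mul_right _ (by omega)
        have h9 : (((3 * j + 2) * L : ℕ) : ℝ) ≤ 8 * L := by exact_mod_cast this
        linarith
      have h0' : (0 : ℝ) ≤ 2 * (((3 * j + 2) * L : ℕ) : ℝ) + 1 := by positivity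
      calc (L : ℝ) ^ r * (2 * d * (2 * (((3 * j + 2) * L : ℕ) : ℝ) + 1) ^ d)
          ≤ (L : ℝ) ^ r * (2 * d * (17 * L) ^ d) := by gcongr
        _ = 2 * d * 17 ^ d * (L : ℝ) ^ (r + d) := by
            rw [mul_pow, pow_add]; ring

lemma dep_GG (J : (V d → ℝ) → ℝ → V d → Prop) {r L0 : ℕ} (hJ : ∀ (E : ℝ) (a : V d), Dep (Q a L0) {ω | J ω E a}) (E : ℝ) : ∀ (k : ℕ) (a : V d),
    Dep (Q a (10 ^ k * L0)) {ω | GG J r L0 k ω E a} := by
  intro k
  induction k with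
  | zero => intro a; simpa [GG] using hJ E a
  | succ k ih =>
    intro a
    have e10 : 10 ^ (k + 1) * L0 = 10 * (10 ^ k * L0) := by ring
    rw [e10]
    set L := 10 ^ k * L0 with hLdef
    have key : ∀ (ω ω' : V d → ℝ), (∀ x ∈ Q a (10 * L), ω x = ω' x) → ∀ j, j < 3 →
        (∀ w : V d, w ∈ Q a ((3 * j + 2) * L) → w ∉ Q a ((3 * j + 2) * L - 1) →
          GG J r L0 k ω E w) →
        (∀ w : V d, w ∈ Q a ((3 * j + 2) * L) → w ∉ Q a ((3 * j + 2) * L - 1) →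
          GG J r L0 k ω' E w) := by
      intro ω ω' h1 j hj h w hw hw'
      refine ih w ω ω' (fun x hx => h1 x ?_) (h w hw hw')
      refine Q_mono ?_ (Q_trans hw hx)
      have : (3 * j + 2) * L ≤ 8 * L := Nat.mul_le_mul_right _ (by omega)
      omega
    rintro ω ω' h1 ⟨hR, i, j, hij, hj, hi', hj'⟩
    refine ⟨dep_RR r E L a ω ω' (fun x hx => h1 x (Q_mono (by omega) hx)) hR, i, j, hij, hj,
      key ω ω' h1 i (by omega) hi', key ω ω' h1 j hj hj'⟩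

lemma joint_GG (J : (V d → ℝ) → ℝ → V d → Prop) {r L0 : ℕ}
    (hJ : ∀ a : V d, MeasurableSet {p : (V d → ℝ) × ℝ | J p.1 p.2 a}) : ∀ (k : ℕ) (a : V d),
    MeasurableSet {p : (V d → ℝ) × ℝ | GG J r L0 k p.1 p.2 a} := by
  intro k
  induction k with
  | zero => intro a; simpa only [GG] using hJ a
  | succ k ih =>
    intro a
    simp only [GG]
    refine measurableSet_setOfPred.2 ((measurableSet_setOfPred.1 (joint_RR r _ a)).and ?_)
    refine Measurable.exists fun i => Measurable.exists fun j => ?_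
    refine measurable_const.and (measurable_const.and (Measurable.and ?_ ?_))
    · exact Measurable.forall fun w => Measurable.imp measurable_const
        (Measurable.imp measurable_const (measurableSet_setOfPred.1 (ih w)))
    · exact Measurable.forall fun w => Measurable.imp measurable_const
        (Measurable.imp measurable_const (measurableSet_setOfPred.1 (ih w)))

/-- the event that all cubes around a shell are good -/
def Sh (J : (V d → ℝ) → ℝ → V d → Prop) (r L0 k : ℕ) (E : ℝ) (a : V d) (j : ℕ) : Set (V d → ℝ) :=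
  {ω | ∀ w : V d, w ∈ Q a ((3 * j + 2) * (10 ^ k * L0)) →
        w ∉ Q a ((3 * j + 2) * (10 ^ k * L0) - 1) → GG J r L0 k ω E w}

lemma dep_Sh (J : (V d → ℝ) → ℝ → V d → Prop) {r L0 : ℕ} (hJ : ∀ (E : ℝ) (a : V d), Dep (Q a L0) {ω | J ω E a}) (hL0 : 1 ≤ L0) (k : ℕ) (E : ℝ) (a : V d)
    (j : ℕ) : Dep (Q a ((3 * j + 2) * (10 ^ k * L0) + 10 ^ k * L0) \
      Q a ((3 * j + 2) * (10 ^ k * L0) - (10 ^ k * L0 + 1))) (Sh J r L0 k E a j) := by
  intro ω ω' h1 h2 w hw hw'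
  refine dep_GG J hJ E k w ω ω' (fun x hx => h1 x ?_) (h2 w hw hw')
  rw [Finset.mem_sdiff]
  refine ⟨Q_trans hw hx, fun hc => hw' ?_⟩
  have := Q_trans hc (Q_symm.1 hx)
  refine Q_mono ?_ this
  have hL : 1 ≤ 10 ^ k * L0 := Nat.one_le_iff_ne_zero.mpr (by positivity)
  have : 2 * (10 ^ k * L0) ≤ (3 * j + 2) * (10 ^ k * L0) := Nat.mul_le_mul_right _ (by omega)
  omega

lemma prob_Sh (ν : Measure ℝ) [IsProbabilityMeasure ν] (J : (V d → ℝ) → ℝ → V d → Prop) {r L0 : ℕ} (k : ℕ) (E : ℝ) (a : V d) {j : ℕ} (hL0 : 1 ≤ L0)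
    (hj : j < 3) {q : ℝ} (hq : ∀ a : V d, (PP d ν).real {ω | ¬ GG J r L0 k ω E a} ≤ q) :
    (PP d ν).real (Sh J r L0 k E a j)ᶜ ≤ (17 * (10 ^ k * L0 : ℕ)) ^ d * q := by
  have hq0 : 0 ≤ q := measureReal_nonneg.trans (hq a)
  have h1 : (Sh J r L0 k E a j)ᶜ ⊆
      ⋃ w ∈ Q a ((3 * j + 2) * (10 ^ k * L0)), {ω | ¬ GG J r L0 k ω E w} := by
    intro ω hω
    simp only [Sh, Set.mem_compl_iff, Set.mem_ofPred_eq, not_forall] at hω
    obtain ⟨w, hw, _, h⟩ := hω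
    simp only [Set.mem_iUnion]
    exact ⟨w, hw, h⟩
  calc (PP d ν).real (Sh J r L0 k E a j)ᶜ ≤ _ := measureReal_mono h1 (measure_ne_top _ _)
    _ ≤ ∑ w ∈ Q a ((3 * j + 2) * (10 ^ k * L0)), (PP d ν).real {ω | ¬ GG J r L0 k ω E w} :=
        measureReal_biUnion_finset_le _ _
    _ ≤ ∑ w ∈ Q a ((3 * j + 2) * (10 ^ k * L0)), q := Finset.sum_le_sum fun w _ => hq w
    _ = ((2 * ((3 * j + 2) * (10 ^ k * L0)) + 1) ^ d : ℕ) * q := by
        rw [Finset.sum_const, card_Q, nsmul_eq_mul]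
    _ ≤ (17 * (10 ^ k * L0 : ℕ)) ^ d * q := by
        have h8 : 2 * ((3 * j + 2) * (10 ^ k * L0)) + 1 ≤ 17 * (10 ^ k * L0) := by
          have : (3 * j + 2) * (10 ^ k * L0) ≤ 8 * (10 ^ k * L0) :=
            Nat.mul_le_mul_right _ (by omega)
          have hL : 1 ≤ 10 ^ k * L0 := Nat.one_le_iff_ne_zero.mpr (by positivity)
          omega
        have h9 : ((2 * ((3 * j + 2) * (10 ^ k * L0)) + 1 : ℕ) : ℝ) ≤ 17 * (10 ^ k * L0 : ℕ) := by
          exact_mod_cast h8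
        rw [Nat.cast_pow]
        gcongr

lemma joint_Sh (J : (V d → ℝ) → ℝ → V d → Prop) {r L0 : ℕ}
    (hJ : ∀ a : V d, MeasurableSet {p : (V d → ℝ) × ℝ | J p.1 p.2 a}) (k : ℕ) (a : V d) (j : ℕ) :
    MeasurableSet {p : (V d → ℝ) × ℝ | p.1 ∈ Sh J r L0 k p.2 a j} := by
  have : {p : (V d → ℝ) × ℝ | p.1 ∈ Sh J r L0 k p.2 a j} =
    ⋂ (w : V d) (_ : w ∈ Q a ((3 * j + 2) * (10 ^ k * L0)))
      (_ : w ∉ Q a ((3 * j + 2) * (10 ^ k * L0) - 1)),
      {p : (V d → ℝ) × ℝ | GG J r L0 k p.1 p.2 w} := by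
    ext p
    simp only [Sh, Set.mem_ofPred_eq, Set.mem_iInter]
  rw [this]
  exact MeasurableSet.iInter fun w => MeasurableSet.iInter fun _ => MeasurableSet.iInter fun _ =>
    joint_GG J hJ k w

/-- the probabilistic step -/
lemma prob_GG (ν : Measure ℝ) [IsProbabilityMeasure ν] {J : (V d → ℝ) → ℝ → V d → Prop} {r L0 : ℕ} (hJ : ∀ (E : ℝ) (a : V d), Dep (Q a L0) {ω | J ω E a})
    (hJm : ∀ a : V d, MeasurableSet {p : (V d → ℝ) × ℝ | J p.1 p.2 a}) (h1 : 1 ≤ L0)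
    (hL0 : 6 * 17 ^ (2 * d) * 10 ^ (2 * d + 1) ≤ L0) {E : ℝ}
    (h0 : ∀ a : V d, (PP d ν).real {ω | ¬ J ω E a} ≤ ((L0 : ℝ) ^ (2 * d + 1))⁻¹)
    (hres : ∀ k, (PP d ν).real {ω | ¬ RR r ω E (10 ^ k * L0) (0 : V d)}
      ≤ (((10 ^ k * L0 : ℕ) : ℝ) ^ (2 * d + 2))⁻¹) :
    ∀ (k : ℕ) (a : V d), (PP d ν).real {ω | ¬ GG J r L0 k ω E a}
      ≤ (((10 ^ k * L0 : ℕ) : ℝ) ^ (2 * d + 1))⁻¹ := by
  intro k
  induction k with
  | zero => intro a; simpa [GG] using h0 a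
  | succ k ih =>
    intro a
    have e10 : 10 ^ (k + 1) * L0 = 10 * (10 ^ k * L0) := by ring
    have hLL0 : L0 ≤ 10 ^ k * L0 := Nat.le_mul_of_pos_left _ (by positivity)
    have hL1 : 1 ≤ 10 ^ k * L0 := h1.trans hLL0
    rw [e10]
    refine le_trans ?_ (numeric_prob hL1 (hL0.trans hLL0))
    set B : ℕ → Set (V d → ℝ) := fun j => (Sh J r L0 k E a j)ᶜ with hB
    have hsub : {ω : V d → ℝ | ¬ GG J r L0 (k + 1) ω E a} ⊆
        ((B 0 ∩ B 1) ∪ (B 0 ∩ B 2) ∪ (B 1 ∩ B 2)) ∪ {ω | ¬ RR r ω E (10 ^ k * L0) a} := by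
      intro ω hω
      by_contra hc
      simp only [Set.mem_union, Set.mem_inter_iff, not_or, not_and, hB, Set.mem_compl_iff,
        not_not, Set.mem_ofPred_eq] at hc
      obtain ⟨⟨⟨c1, c2⟩, c3⟩, c4⟩ := hc
      apply hω
      refine ⟨c4, ?_⟩
      by_cases g0 : ω ∈ Sh J r L0 k E a 0
      · by_cases g1 : ω ∈ Sh J r L0 k E a 1
        · exact ⟨0, 1, by norm_num, by norm_num, g0, g1⟩
        · exact ⟨0, 2, by norm_num, by norm_num, g0, c3 g1⟩
      · exact ⟨1, 2, by norm_num, by norm_num, c1 g0, c2 g0⟩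
    have hind : ∀ i j : ℕ, i < j → j < 3 → (PP d ν).real (B i ∩ B j) ≤
        ((17 * ((10 ^ k * L0 : ℕ) : ℝ)) ^ d * (((10 ^ k * L0 : ℕ) : ℝ) ^ (2 * d + 1))⁻¹) ^ 2 := by
      intro i j hij hj
      have hdisj : Disjoint (Q a ((3 * i + 2) * (10 ^ k * L0) + 10 ^ k * L0) \
          Q a ((3 * i + 2) * (10 ^ k * L0) - (10 ^ k * L0 + 1)))
          (Q a ((3 * j + 2) * (10 ^ k * L0) + 10 ^ k * L0) \
          Q a ((3 * j + 2) * (10 ^ k * L0) - (10 ^ k * L0 + 1))) := by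
        rw [Finset.disjoint_left]
        intro x hx hx'
        rw [Finset.mem_sdiff] at hx hx'
        apply hx'.2
        refine Q_mono ?_ hx.1
        have : (3 * i + 2) * (10 ^ k * L0) + 3 * (10 ^ k * L0) ≤ (3 * j + 2) * (10 ^ k * L0) := by
          rw [← add_mul]; exact Nat.mul_le_mul_right _ (by omega)
        omega
      rw [(dep_Sh J hJ h1 k E a i).compl.indep (dep_Sh J hJ h1 k E a j).compl
        (meas_sec (P := fun ω E => ω ∈ Sh J r L0 k E a i) (joint_Sh J hJm k a i) E).compl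
        (meas_sec (P := fun ω E => ω ∈ Sh J r L0 k E a j) (joint_Sh J hJm k a j) E).compl hdisj, sq]
      have p1 := prob_Sh ν J k E a h1 (by omega : i < 3) ih
      have p2 := prob_Sh ν J k E a h1 hj ih
      exact mul_le_mul p1 p2 measureReal_nonneg (by positivity)
    calc (PP d ν).real {ω : V d → ℝ | ¬ GG J r L0 (k + 1) ω E a}
        ≤ (PP d ν).real (((B 0 ∩ B 1) ∪ (B 0 ∩ B 2) ∪ (B 1 ∩ B 2))
            ∪ {ω | ¬ RR r ω E (10 ^ k * L0) a}) := measureReal_mono hsub (measure_ne_top _ _)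
      _ ≤ (PP d ν).real ((B 0 ∩ B 1) ∪ (B 0 ∩ B 2) ∪ (B 1 ∩ B 2))
            + (PP d ν).real {ω | ¬ RR r ω E (10 ^ k * L0) a} := measureReal_union_le _ _
      _ ≤ ((PP d ν).real ((B 0 ∩ B 1) ∪ (B 0 ∩ B 2)) + (PP d ν).real (B 1 ∩ B 2))
            + (PP d ν).real {ω | ¬ RR r ω E (10 ^ k * L0) a} := by
          gcongr; exact measureReal_union_le _ _
      _ ≤ (((PP d ν).real (B 0 ∩ B 1) + (PP d ν).real (B 0 ∩ B 2)) + (PP d ν).real (B 1 ∩ B 2))
            + (PP d ν).real {ω | ¬ RR r ω E (10 ^ k * L0) a} := by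
          gcongr; exact measureReal_union_le _ _
      _ ≤ _ := by
          rw [real_not_RR]
          have q1 := hind 0 1 (by norm_num) (by norm_num)
          have q2 := hind 0 2 (by norm_num) (by norm_num)
          have q3 := hind 1 2 (by norm_num) (by norm_num)
          have q4 := hres k
          linarith

end Pool.Agent.K7.H96.HDG
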