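import Pool.Agent.K7.H96.HDG.Clu
import Pool.Agent.W424.PC.Russo
import Pool.Agent.W45.PC.PT1
import Pool.Agent.W400.PC.PT

set_option autoImplicit false

/-! Site percolation on `ℤ^d`: graphs and clusters (adapted from `Pool.Agent.W462.PC.LatS`). -/

namespace Pool.Agent.K7.H96.HDG

open MeasureTheory Set
open Pool.Agent.W783.PC (pm bern DepOn Inc)
open Pool.Agent.W424.PC (upd upd_self upd_ne upd_of Piv EE I1 dep_mono dep_Piv meas_coord)
open Pool.Agent.H12R2.And (V ee Q mem_Q card_Q self_mem_Q Q_mono Q_trans Q_symm)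

variable {d : ℕ}

/-- open nearest-neighbour sites inside `R` -/
def SG (ω : V d → Bool) (R : Set (V d)) : SimpleGraph (V d) where
  Adj x y := x ∈ R ∧ y ∈ R ∧ y ∈ nb x ∧ ω x = true ∧ ω y = true
  symm := ⟨fun _ _ ⟨h1, h2, h3, h4, h5⟩ => ⟨h2, h1, nb_symm h3, h5, h4⟩⟩
  loopless := ⟨fun _ h => nb_ne h.2.2.1 rfl⟩

lemma SG_congr {ω ω' : V d → Bool} {R : Set (V d)} (h : ∀ c ∈ R, ω c = ω' c) :
    SG ω R = SG ω' R := by
  ext x y
  constructor
  · rintro ⟨h1, h2, h3, h4, h5⟩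
    exact ⟨h1, h2, h3, by rw [← h _ h1]; exact h4, by rw [← h _ h2]; exact h5⟩
  · rintro ⟨h1, h2, h3, h4, h5⟩
    exact ⟨h1, h2, h3, by rw [h _ h1]; exact h4, by rw [h _ h2]; exact h5⟩

lemma SG_mono {ω : V d → Bool} {R R' : Set (V d)} (h : R ⊆ R') : SG ω R ≤ SG ω R' := by
  intro x y hxy
  exact ⟨h hxy.1, h hxy.2.1, hxy.2.2⟩

lemma SG_le {ω ω' : V d → Bool} {R : Set (V d)} (h : ∀ c, ω c = true → ω' c = true) :
    SG ω R ≤ SG ω' R := by
  intro x y hxy
  exact ⟨hxy.1, hxy.2.1, hxy.2.2.1, h _ hxy.2.2.2.1, h _ hxy.2.2.2.2⟩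

/-- the cluster of the open sites of a set -/
def clu (ω : V d → Bool) (R A : Set (V d)) : Set (V d) :=
  {v | ∃ a ∈ A, ω a = true ∧ (SG ω R).Reachable a v}

lemma reach_mem {ω : V d → Bool} {R : Set (V d)} {x y : V d} (h : (SG ω R).Reachable x y)
    (hx : x ∈ R) : y ∈ R := by
  rw [SimpleGraph.reachable_iff_reflTransGen] at h
  induction h with
  | refl => exact hx
  | tail _ h _ => exact h.2.1

lemma reach_open {ω : V d → Bool} {R : Set (V d)} {x y : V d} (h : (SG ω R).Reachable x y)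
    (hx : ω x = true) : ω y = true := by
  rw [SimpleGraph.reachable_iff_reflTransGen] at h
  induction h with
  | refl => exact hx
  | tail _ h _ => exact h.2.2.2.2

lemma clu_le {ω ω' : V d → Bool} {R A : Set (V d)} (h : ∀ c, ω c = true → ω' c = true) :
    clu ω R A ⊆ clu ω' R A := by
  rintro v ⟨a, ha, h1, h2⟩
  exact ⟨a, ha, h _ h1, h2.mono (SG_le h)⟩

/-- sites explored by the cluster `C` of `A` -/
def wS (R A C : Set (V d)) : Set (V d) := {v | v ∈ R ∧ (v ∈ A ∨ v ∈ C ∨ ∃ u ∈ C, v ∈ nb u)}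

lemma dep_clu (R A C : Set (V d)) (hA : A ⊆ R) :
    DepOn {ω : V d → Bool | clu ω R A = C} (wS R A C) := by
  have key : ∀ ω ω' : V d → Bool, (∀ i ∈ wS R A C, ω i = ω' i) → clu ω R A = C →
      clu ω' R A = C := by
    intro ω ω' h hC
    have hopA : ∀ a ∈ A, ω a = ω' a := fun a ha => h _ ⟨hA ha, Or.inl ha⟩
    have hopC : ∀ a ∈ C, a ∈ R → ω a = ω' a := fun a ha haR =>
      h _ ⟨haR, Or.inr (Or.inl ha)⟩
    have hopN : ∀ a ∈ C, ∀ b ∈ R, b ∈ nb a → ω b = ω' b := fun a ha b hb hab =>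
      h _ ⟨hb, Or.inr (Or.inr ⟨a, ha, hab⟩)⟩
    ext v
    constructor
    · rintro ⟨a, ha, ho, hr⟩
      rw [SimpleGraph.reachable_iff_reflTransGen] at hr
      induction hr with
      | refl => rw [← hC]; exact ⟨a, ha, by rw [hopA a ha]; exact ho, SimpleGraph.Reachable.refl _⟩
      | @tail c d _ hcd ih =>
        have h1 : ω d = true := by
          rw [hopN c ih d hcd.2.1 hcd.2.2.1]; exact hcd.2.2.2.2
        rw [← hC] at ih ⊢
        obtain ⟨a', ha', ho', hr'⟩ := ih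
        exact ⟨a', ha', ho', hr'.trans (SimpleGraph.Adj.reachable
          ⟨hcd.1, hcd.2.1, hcd.2.2.1, reach_open hr' ho', h1⟩)⟩
    · intro hv
      rw [← hC] at hv
      obtain ⟨a, ha, ho, hr⟩ := hv
      refine ⟨a, ha, by rw [← hopA a ha]; exact ho, ?_⟩
      rw [SimpleGraph.reachable_iff_reflTransGen] at hr
      induction hr with
      | refl => exact SimpleGraph.Reachable.refl _
      | @tail c d hac hcd ih =>
        have hcC : c ∈ C := by
          rw [← hC]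
          exact ⟨a, ha, ho, (SimpleGraph.reachable_iff_reflTransGen a c).2 hac⟩
        refine ih.trans (SimpleGraph.Adj.reachable ⟨hcd.1, hcd.2.1, hcd.2.2.1, ?_, ?_⟩)
        · rw [← hopC c hcC hcd.1]; exact hcd.2.2.2.1
        · rw [← hopN c hcC d hcd.2.1 hcd.2.2.1]; exact hcd.2.2.2.2
  intro ω ω' h
  exact ⟨key ω ω' h, key ω' ω fun i hi => (h i hi).symm⟩

/-- `x` is open and connected to `y` inside `R` -/
def Cn (R : Set (V d)) (x y : V d) : Set (V d → Bool) :=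
  {ω | ω x = true ∧ (SG ω R).Reachable x y}

lemma dep_Cn (R : Set (V d)) (x y : V d) (hx : x ∈ R) : DepOn (Cn R x y) R := by
  intro ω ω' h
  unfold Cn
  simp only [mem_ofPred_eq]
  rw [SG_congr h, h _ hx]

lemma Cn_inc (R : Set (V d)) (x y : V d) : Inc (Cn R x y) := by
  intro ω ω' h hω
  exact ⟨h _ hω.1, hω.2.mono (SG_le h)⟩

/-- closed sites at the boundary of the cluster -/
lemma wS_closed {ω : V d → Bool} {R A C : Set (V d)} (hA : A ⊆ R) (hC : clu ω R A = C) {v : V d}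
    (hv : v ∈ wS R A C) (hvC : v ∉ C) : ω v = false := by
  by_contra hne
  rw [Bool.not_eq_false] at hne
  obtain ⟨hR, h | h | ⟨u, hu, huv⟩⟩ := hv
  · apply hvC
    rw [← hC]
    exact ⟨v, h, hne, SimpleGraph.Reachable.refl _⟩
  · exact hvC h
  · apply hvC
    rw [← hC] at hu ⊢
    obtain ⟨a, ha, ho, hr⟩ := hu
    exact ⟨a, ha, ho, hr.trans (SimpleGraph.Adj.reachable
      ⟨reach_mem hr (hA ha), hR, huv, reach_open hr ho, hne⟩)⟩

lemma upd_le (e : V d) (ω : V d → Bool) : ∀ c, ω c = true → upd e true ω c = true := by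
  intro c hc
  by_cases h : c = e
  · subst h; exact upd_self _ _ _
  · rw [upd_ne h]; exact hc

/-- opening a site at the boundary of the cluster -/
lemma wS_piv {ω : V d → Bool} {R A C : Set (V d)} (hA : A ⊆ R) (hC : clu ω R A = C) {v : V d}
    (hv : v ∈ wS R A C) (hvC : v ∉ C) : v ∈ clu (upd v true ω) R A := by
  obtain ⟨hR, h | h | ⟨u, hu, huv⟩⟩ := hv
  · exact ⟨v, h, upd_self _ _ _, SimpleGraph.Reachable.refl _⟩
  · exact absurd h hvC
  · rw [← hC] at hu
    have hu' := clu_le (upd_le v ω) hu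
    obtain ⟨a, ha, ho, hr⟩ := hu'
    exact ⟨a, ha, ho, hr.trans (SimpleGraph.Adj.reachable
      ⟨reach_mem hr (hA ha), hR, huv, reach_open hr ho, upd_self _ _ _⟩)⟩

/-- the boundary of a cube -/
noncomputable def Bd (k : ℕ) : Set (V d) := (Q (0 : V d) (k + 1) : Set (V d)) \ Q (0 : V d) k

lemma Bd_sub (k : ℕ) : (Bd k : Set (V d)) ⊆ (Q (0 : V d) (k + 1) : Set (V d)) := fun _ h => h.1

/-- the arm event -/
def arm (d k : ℕ) : Set (V d → Bool) := {ω | (0 : V d) ∈ clu ω (Q (0 : V d) (k + 1)) (Bd k)}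

lemma arm_inc (k : ℕ) : Inc (arm d k) := by
  rintro ω ω' h hω
  exact clu_le h hω

lemma arm_dep (k : ℕ) : DepOn (arm d k) (Q (0 : V d) (k + 1) : Set (V d)) := by
  intro ω ω' h
  unfold arm clu
  simp only [mem_ofPred_eq]
  rw [SG_congr h]
  refine exists_congr fun a => and_congr_right fun ha => ?_
  rw [h _ (Bd_sub k ha)]

lemma meas_dep {A : Set (V d → Bool)} {F : Finset (V d)} (h : DepOn A (F : Set (V d))) :
    MeasurableSet A := Pool.Agent.W45.PC.s_depmeas _ F A h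

end Pool.Agent.K7.H96.HDG
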