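import Pool.Agent.K7.H96.HDG.Ops

set_option autoImplicit false

/-! Probabilistic tools: independent identically distributed potentials on `ℤ^d`. -/

namespace Pool.Agent.K7.H96.HDG

open Finset Complex MeasureTheory ProbabilityTheory
open scoped ENNReal
open Pool.Agent.H12R2.And (V ee Q mem_Q card_Q self_mem_Q Q_mono Q_trans Q_symm add_ee_mem
  sub_ee_mem sum_ite_supp)

variable {d : ℕ}

/-- the law of the potential -/
noncomputable def PP (d : ℕ) (ν : Measure ℝ) : Measure (V d → ℝ) :=
  Measure.infinitePi (fun _ : Fin d → ℤ => ν)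

instance (ν : Measure ℝ) [IsProbabilityMeasure ν] : IsProbabilityMeasure (PP d ν) := by
  unfold PP; infer_instance

/-- `A` depends only on the coordinates in `F` -/
def Dep (F : Finset (V d)) (A : Set (V d → ℝ)) : Prop :=
  ∀ ω ω' : V d → ℝ, (∀ x ∈ F, ω x = ω' x) → ω ∈ A → ω' ∈ A

lemma Dep.mono {F G : Finset (V d)} {A : Set (V d → ℝ)} (h : Dep F A) (hFG : F ⊆ G) :
    Dep G A := fun ω ω' h1 h2 => h ω ω' (fun x hx => h1 x (hFG hx)) h2

lemma Dep.compl {F : Finset (V d)} {A : Set (V d → ℝ)} (h : Dep F A) : Dep F Aᶜ :=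
  fun ω ω' h1 h2 h3 => h2 (h ω' ω (fun x hx => (h1 x hx).symm) h3)

open Classical in
/-- extension by zero -/
noncomputable def ext (F : Finset (V d)) (c : F → ℝ) : V d → ℝ :=
  fun x => if h : x ∈ F then c ⟨x, h⟩ else 0

lemma ext_mem (F : Finset (V d)) (c : F → ℝ) {x : V d} (h : x ∈ F) : ext F c x = c ⟨x, h⟩ := by
  unfold ext
  rw [dif_pos h]

lemma measurable_ext (F : Finset (V d)) : Measurable (ext F) := by
  refine measurable_pi_iff.2 fun x => ?_
  by_cases h : x ∈ F
  · simp only [ext, dif_pos h]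
    exact measurable_pi_apply _
  · simp only [ext, dif_neg h]
    exact measurable_const

lemma Dep.eq_preimage {F : Finset (V d)} {A : Set (V d → ℝ)} (h : Dep F A) :
    A = (fun (ω : V d → ℝ) (x : F) => ω x) ⁻¹' (ext F ⁻¹' A) := by
  ext ω
  constructor
  · intro hω
    refine h ω _ (fun x hx => ?_) hω
    rw [ext_mem F _ hx]
  · intro h2
    refine h _ ω (fun x hx => ?_) h2
    rw [ext_mem F _ hx]

lemma Dep.indep {ν : Measure ℝ} [IsProbabilityMeasure ν] {F G : Finset (V d)}
    {A B : Set (V d → ℝ)} (hA : Dep F A) (hB : Dep G B) (mA : MeasurableSet A)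
    (mB : MeasurableSet B) (hFG : Disjoint F G) :
    (PP d ν).real (A ∩ B) = (PP d ν).real A * (PP d ν).real B := by
  have h1 : iIndepFun (fun (i : V d) (ω : V d → ℝ) => ω i) (PP d ν) := by
    unfold PP
    exact iIndepFun_infinitePi (X := fun _ ω => ω) (fun _ => measurable_id)
  have h2 := h1.indepFun_finset F G hFG (fun i => measurable_pi_apply i)
  rw [indepFun_iff_measure_inter_preimage_eq_mul] at h2
  have h3 := h2 (ext F ⁻¹' A) (ext G ⁻¹' B) (measurable_ext F mA) (measurable_ext G mB)
  rw [← hA.eq_preimage, ← hB.eq_preimage] at h3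
  unfold Measure.real
  rw [h3, ENNReal.toReal_mul]

/-- translation of configurations -/
def shift (a : V d) (ω : V d → ℝ) : V d → ℝ := fun x => ω (x + a)

lemma map_shift (ν : Measure ℝ) [IsProbabilityMeasure ν] (a : V d) :
    (PP d ν).map (shift a) = PP d ν := by
  have h := Measure.map_infinitePi_infinitePi_of_inj
    (P := fun _ : V d => ν) (f := fun x : V d => x + a)
    (fun x y h => by simpa using h)
  exact h

lemma measurable_shift (a : V d) : Measurable (shift (d := d) a) := by
  unfold shift; fun_prop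

lemma real_shift (ν : Measure ℝ) [IsProbabilityMeasure ν] (a : V d) {A : Set (V d → ℝ)}
    (hA : MeasurableSet A) : (PP d ν).real (shift a ⁻¹' A) = (PP d ν).real A := by
  have := map_measureReal_apply (measurable_shift a) hA (μ := PP d ν)
  rw [map_shift] at this
  exact this.symm

end Pool.Agent.K7.H96.HDG
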