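import Pool.Agent.K7.H96.HDG.Dct

set_option autoImplicit false

/-! The inequality of Simon and Lieb for site percolation on `ℤ^d`. -/

namespace Pool.Agent.K7.H96.HDG

open MeasureTheory Set
open Pool.Agent.W783.PC (pm bern DepOn Inc)
open Pool.Agent.W424.PC (dep_mono meas_coord)
open Pool.Agent.H12R2.And (V ee Q mem_Q card_Q self_mem_Q Q_mono Q_trans Q_symm)
open Pool.Agent.W45.PC (s_indep s_depmeas)
open Pool.Agent.W400.PC (s_mono)

variable {d : ℕ}

/-- `x` is open and connected to the complement of the cube of radius `n` around `x` off `W` -/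
def AR (n : ℕ) (W : Set (V d)) (x : V d) : Set (V d → Bool) :=
  {ω | ω x = true ∧ ∃ w, w ∉ Q x n ∧ (SG ω ((Q x (n + 1) : Set (V d)) \ W)).Reachable x w}

lemma AR_sub (n : ℕ) (W : Set (V d)) (x : V d) : AR n W x ⊆ AR n ∅ x := by
  rintro ω ⟨h1, w, h2, h3⟩
  refine ⟨h1, w, h2, h3.mono (SG_mono ?_)⟩
  rw [sdiff_empty]
  exact sdiff_subset

lemma dep_AR (n : ℕ) (W : Set (V d)) (x : V d) (hx : x ∉ W) :
    DepOn (AR n W x) ((Q x (n + 1) : Set (V d)) \ W) := by
  intro ω ω' h
  unfold AR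
  simp only [mem_ofPred_eq]
  rw [SG_congr h, h x ⟨self_mem_Q _ _, hx⟩]

lemma meas_AR (n : ℕ) (W : Set (V d)) (x : V d) (hx : x ∉ W) : MeasurableSet (AR n W x) :=
  meas_dep (F := Q x (n + 1)) (dep_mono (dep_AR n W x hx) sdiff_subset)

lemma AR_inc (n : ℕ) (W : Set (V d)) (x : V d) : Inc (AR n W x) := by
  rintro ω ω' h ⟨h1, w, h2, h3⟩
  exact ⟨h _ h1, w, h2, h3.mono (SG_le h)⟩

/-- first exit -/
lemma first_exit {ω : V d → Bool} {R : Set (V d)} {x w : V d} (n : ℕ)
    (hw : w ∉ Q x n) (h : (SG ω R).Reachable x w) :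
    ∃ w', w' ∉ Q x n ∧ (SG ω ((Q x (n + 1) : Set (V d)) ∩ R)).Reachable x w' := by
  have key : ∀ u, (SG ω R).Reachable x u →
      (∃ w', w' ∉ Q x n ∧ (SG ω ((Q x (n + 1) : Set (V d)) ∩ R)).Reachable x w') ∨
      (u ∈ Q x n ∧ (SG ω ((Q x (n + 1) : Set (V d)) ∩ R)).Reachable x u) := by
    intro u hu
    rw [SimpleGraph.reachable_iff_reflTransGen] at hu
    induction hu with
    | refl => exact Or.inr ⟨self_mem_Q _ _, SimpleGraph.Reachable.refl _⟩
    | @tail u v hu huv ih =>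
      rcases ih with h1 | ⟨h1, h2⟩
      · exact Or.inl h1
      · have hv : v ∈ Q x (n + 1) := Q_trans h1 (nb_Q huv.2.2.1)
        have h3 : (SG ω ((Q x (n + 1) : Set (V d)) ∩ R)).Reachable x v :=
          h2.trans (SimpleGraph.Adj.reachable
            ⟨⟨Q_mono (Nat.le_succ n) h1, huv.1⟩, ⟨hv, huv.2.1⟩, huv.2.2.1, huv.2.2.2⟩)
        by_cases h4 : v ∈ Q x n
        · exact Or.inr ⟨h4, h3⟩
        · exact Or.inl ⟨v, h4, h3⟩
  rcases key w h with h1 | h1
  · exact h1
  · exact absurd h1.1 hw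

/-- last exit from a cluster -/
lemma last_exit {ω : V d → Bool} {R S C : Set (V d)} {x w : V d} (hxS : x ∈ S) (hox : ω x = true)
    (hC : clu ω S {x} = C) (hw : w ∉ C) (h : (SG ω R).Reachable x w) :
    ∃ y ∈ C, ∃ z, z ∈ nb y ∧ z ∉ S ∧ z ∈ R ∧ ω z = true ∧
      (SG ω (R \ wS S {x} C)).Reachable z w := by
  have hAS : ({x} : Set (V d)) ⊆ S := by
    intro y hy
    rw [mem_singleton_iff] at hy
    rw [hy]; exact hxS
  have hcS : ∀ v ∈ C, v ∈ S := by
    intro v hv
    rw [← hC] at hv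
    obtain ⟨a, ha, ho, hr⟩ := hv
    exact reach_mem hr (hAS ha)
  have hout : ∀ v, ω v = true → v ∉ C → v ∉ wS S {x} C := by
    intro v hv hvC hvW
    have := wS_closed hAS hC hvW hvC
    rw [hv] at this
    exact Bool.noConfusion this
  have key : ∀ u, (SG ω R).Reachable x u → u ∈ C ∨
      ∃ y ∈ C, ∃ z, z ∈ nb y ∧ z ∉ S ∧ z ∈ R ∧ ω z = true ∧
        (SG ω (R \ wS S {x} C)).Reachable z u := by
    intro u hu
    rw [SimpleGraph.reachable_iff_reflTransGen] at hu
    induction hu with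
    | refl =>
      left
      rw [← hC]
      exact ⟨x, rfl, hox, SimpleGraph.Reachable.refl _⟩
    | @tail u v hu huv ih =>
      by_cases hvC : v ∈ C
      · exact Or.inl hvC
      right
      by_cases huC : u ∈ C
      · refine ⟨u, huC, v, huv.2.2.1, fun hvS => hvC ?_, huv.2.1, huv.2.2.2.2,
          SimpleGraph.Reachable.refl _⟩
        have huC' := huC
        rw [← hC] at huC ⊢
        obtain ⟨a, ha, ho, hr⟩ := huC
        exact ⟨a, ha, ho, hr.trans (SimpleGraph.Adj.reachable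
          ⟨hcS u huC', hvS, huv.2.2.1, huv.2.2.2⟩)⟩
      · rcases ih with h1 | ⟨y, hy, z, h1, h2, h3, h4, h5⟩
        · exact absurd h1 huC
        · refine ⟨y, hy, z, h1, h2, h3, h4, h5.trans (SimpleGraph.Adj.reachable ?_)⟩
          exact ⟨⟨huv.1, hout u huv.2.2.2.1 huC⟩, ⟨huv.2.1, hout v huv.2.2.2.2 hvC⟩, huv.2.2⟩
  rcases key w h with h1 | h1
  · exact absurd h1 hw
  · exact h1

lemma reach_shift {ω : V d → Bool} {n : ℕ} {z w : V d}
    (h : (SG ω (Q z n : Set (V d))).Reachable z w) :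
    (SG (fun c => ω (c + z)) (Q (0 : V d) n : Set (V d))).Reachable 0 (w - z) := by
  rw [SimpleGraph.reachable_iff_reflTransGen] at h
  induction h with
  | refl => rw [sub_self]
  | @tail u v hu huv ih =>
    refine ih.trans (SimpleGraph.Adj.reachable ⟨?_, ?_, ?_, ?_, ?_⟩)
    · have h1 : u ∈ Q z n := huv.1
      rw [mem_Q] at h1
      show u - z ∈ Q (0 : V d) n
      rw [mem_Q]
      intro i
      simpa using h1 i
    · have h1 : v ∈ Q z n := huv.2.1
      rw [mem_Q] at h1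
      show v - z ∈ Q (0 : V d) n
      rw [mem_Q]
      intro i
      simpa using h1 i
    · have h1 := huv.2.2.1
      rw [mem_nb] at h1 ⊢
      rcases h1 with ⟨i, rfl⟩ | ⟨i, rfl⟩
      · exact Or.inl ⟨i, by abel⟩
      · exact Or.inr ⟨i, by abel⟩
    · simpa using huv.2.2.2.1
    · simpa using huv.2.2.2.2

lemma prob_AR_shift (a : unitInterval) (n : ℕ) (z : V d) :
    (pm fun _ : V d => a).real (AR n ∅ z) ≤ (pm fun _ : V d => a).real (AR n ∅ (0 : V d)) := by
  have h1 := Pool.Agent.W400.PC.s_equiv (V d) (fun _ => a) (Equiv.addRight z) (AR n ∅ (0 : V d))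
    (meas_AR n ∅ 0 (by simp))
  have h2 : AR n ∅ z ⊆ {ω : V d → Bool | (fun c => ω ((Equiv.addRight z) c)) ∈
      AR n ∅ (0 : V d)} := by
    rintro ω ⟨h3, w, h4, h5⟩
    rw [sdiff_empty] at h5
    refine ⟨?_, w - z, ?_, ?_⟩
    · simpa using h3
    · intro h6
      apply h4
      rw [mem_Q] at h6 ⊢
      intro i
      simpa using h6 i
    · rw [sdiff_empty]
      exact reach_shift h5
  unfold Measure.real
  rw [h1]
  exact ENNReal.toReal_mono (measure_ne_top _ _) (measure_mono h2)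

/-- the inequality of Simon and Lieb -/
theorem simon_lieb (a : unitInterval) {S : Finset (V d)} (h0 : (0 : V d) ∈ S) {l : ℕ}
    (hS : S ⊆ Q (0 : V d) l) {n m : ℕ} (hm : n + l + 1 ≤ m) :
    (pm fun _ : V d => a).real (AR m ∅ (0 : V d)) ≤
      phi a S * (pm fun _ : V d => a).real (AR n ∅ (0 : V d)) := by
  classical
  set μ := pm fun _ : V d => a with hμ
  set EC : Finset (V d) → Set (V d → Bool) :=
    fun C => {ω | clu ω (S : Set (V d)) {0} = (C : Set (V d))} with hEC
  have hAS : ({0} : Set (V d)) ⊆ (S : Set (V d)) := by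
    intro y hy
    rw [mem_singleton_iff] at hy
    rw [hy]; exact h0
  have hin : ∀ ω, ∀ v ∈ clu ω (S : Set (V d)) {0}, v ∈ S := by
    rintro ω v ⟨a, ha, ho, hr⟩
    exact reach_mem hr (hAS ha)
  have dEC : ∀ C : Finset (V d), DepOn (EC C) (wS (S : Set (V d)) {0} (C : Set (V d))) :=
    fun C => dep_clu _ _ _ hAS
  have mEC : ∀ C, MeasurableSet (EC C) := fun C =>
    meas_dep (F := S) (dep_mono (dEC C) fun v hv => hv.1)
  have hdisj : ∀ C C' : Finset (V d), C ≠ C' → Disjoint (EC C) (EC C') := by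
    intro C C' hne
    rw [Set.disjoint_left]
    intro ω h1 h2
    apply hne
    have h1' : clu ω (S : Set (V d)) {0} = (C : Set (V d)) := h1
    have h2' : clu ω (S : Set (V d)) {0} = (C' : Set (V d)) := h2
    exact Finset.coe_injective (h1'.symm.trans h2')
  have hcov : AR m ∅ (0 : V d) ⊆ ⋃ C ∈ S.powerset, ⋃ y ∈ C, ⋃ z ∈ nb y \ S,
      EC C ∩ AR n (wS (S : Set (V d)) {0} (C : Set (V d))) z := by
    rintro ω ⟨h1, w, h2, h3⟩
    rw [sdiff_empty] at h3
    set C : Finset (V d) := S.filter (fun v => v ∈ clu ω (S : Set (V d)) {0}) with hCdef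
    have hC : clu ω (S : Set (V d)) {0} = (C : Set (V d)) := by
      ext v
      rw [Finset.mem_coe, hCdef, Finset.mem_filter]
      exact ⟨fun h => ⟨hin ω v h, h⟩, fun h => h.2⟩
    have hwC : w ∉ (C : Set (V d)) := by
      intro hw
      rw [Finset.mem_coe, hCdef, Finset.mem_filter] at hw
      exact h2 (Q_mono (by omega) (hS hw.1))
    obtain ⟨y, hy, z, hz1, hz2, hz3, hz4, hz5⟩ := last_exit (by exact_mod_cast h0) h1 hC hwC h3
    simp only [mem_iUnion, exists_prop]
    refine ⟨C, ?_, y, by exact_mod_cast hy, z, ?_, hC, hz4, ?_⟩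
    · rw [Finset.mem_powerset]
      exact Finset.filter_subset _ _
    · rw [Finset.mem_sdiff]
      exact ⟨hz1, by exact_mod_cast hz2⟩
    · have hyS : y ∈ S := (Finset.mem_filter.1 hy).1
      have hzW : z ∉ wS (S : Set (V d)) {0} (C : Set (V d)) := fun h => hz2 h.1
      have hwz : w ∉ Q z n := by
        intro hc
        apply h2
        have h4 : z ∈ Q (0 : V d) (l + 1) := Q_trans (hS hyS) (nb_Q hz1)
        exact Q_mono (by omega) (Q_trans h4 hc)
      obtain ⟨w', h5, h6⟩ := first_exit n hwz hz5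
      refine ⟨w', h5, h6.mono (SG_mono ?_)⟩
      rintro v ⟨h7, h8⟩
      exact ⟨h7, h8.2⟩
  have hind : ∀ C ∈ S.powerset, ∀ y ∈ C, ∀ z ∈ nb y \ S,
      μ.real (EC C ∩ AR n (wS (S : Set (V d)) {0} (C : Set (V d))) z) ≤
        μ.real (EC C) * μ.real (AR n ∅ (0 : V d)) := by
    intro C hC y hy z hz
    have hzW : z ∉ wS (S : Set (V d)) {0} (C : Set (V d)) :=
      fun h => (Finset.mem_sdiff.1 hz).2 (by exact_mod_cast h.1)
    have h1 := s_indep (V d) (fun _ => a) _ _ _ _ (dEC C)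
      (dep_AR n (wS (S : Set (V d)) {0} (C : Set (V d))) z hzW)
      (by
        rw [Set.disjoint_left]
        intro x hx hx2
        exact hx2.2 hx) (mEC C) (meas_AR _ _ _ hzW)
    have h2 : μ.real (EC C ∩ AR n (wS (S : Set (V d)) {0} (C : Set (V d))) z) =
        μ.real (EC C) * μ.real (AR n (wS (S : Set (V d)) {0} (C : Set (V d))) z) := by
      unfold Measure.real
      rw [h1, ENNReal.toReal_mul]
    rw [h2]
    refine mul_le_mul_of_nonneg_left ?_ measureReal_nonneg
    exact (measureReal_mono (AR_sub _ _ _) (measure_ne_top _ _)).trans (prob_AR_shift a n z)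
  have h1 : μ.real (AR m ∅ (0 : V d)) ≤ ∑ C ∈ S.powerset, ∑ y ∈ C, ∑ z ∈ nb y \ S,
      μ.real (EC C) * μ.real (AR n ∅ (0 : V d)) := by
    refine (measureReal_mono hcov (measure_ne_top _ _)).trans ?_
    refine (measureReal_biUnion_finset_le _ _).trans (Finset.sum_le_sum fun C hC => ?_)
    refine (measureReal_biUnion_finset_le _ _).trans (Finset.sum_le_sum fun y hy => ?_)
    refine (measureReal_biUnion_finset_le _ _).trans (Finset.sum_le_sum fun z hz => ?_)
    exact hind C hC y hy z hz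
  refine h1.trans (le_of_eq ?_)
  -- reorganize
  have h2 : ∀ y ∈ S, μ.real (Cn (S : Set (V d)) 0 y) =
      ∑ C ∈ S.powerset.filter (fun C => y ∈ C), μ.real (EC C) := by
    intro y hy
    rw [← measureReal_biUnion_finset (fun C _ C' _ hne => hdisj C C' hne) (fun C _ => mEC C)]
    congr 1
    ext ω
    simp only [mem_iUnion, exists_prop, Finset.mem_filter, Finset.mem_powerset]
    constructor
    · rintro ⟨h3, h4⟩
      refine ⟨S.filter (fun v => v ∈ clu ω (S : Set (V d)) {0}), ⟨Finset.filter_subset _ _, ?_⟩, ?_⟩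
      · rw [Finset.mem_filter]
        exact ⟨hy, 0, rfl, h3, h4⟩
      · show clu ω (S : Set (V d)) {0} = _
        ext v
        rw [Finset.mem_coe, Finset.mem_filter]
        exact ⟨fun h => ⟨hin ω v h, h⟩, fun h => h.2⟩
    · rintro ⟨C, ⟨_, h4⟩, h5⟩
      have h6 : clu ω (S : Set (V d)) {0} = (C : Set (V d)) := h5
      have h7 : y ∈ clu ω (S : Set (V d)) {0} := by rw [h6]; exact_mod_cast h4
      obtain ⟨b, hb, ho, hr⟩ := h7
      rw [mem_singleton_iff] at hb
      subst hb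
      exact ⟨ho, hr⟩
  unfold phi
  rw [Finset.sum_mul]
  have h3 : ∀ y ∈ S, (∑ _z ∈ nb y \ S, μ.real (Cn (S : Set (V d)) 0 y)) *
      μ.real (AR n ∅ (0 : V d)) = ∑ C ∈ S.powerset, if y ∈ C then
        ∑ z ∈ nb y \ S, μ.real (EC C) * μ.real (AR n ∅ (0 : V d)) else 0 := by
    intro y hy
    rw [← Finset.sum_filter, h2 y hy, Finset.sum_mul, Finset.sum_comm]
    refine Finset.sum_congr rfl fun z _ => ?_
    rw [Finset.sum_mul]
  rw [Finset.sum_congr rfl h3, Finset.sum_comm]
  refine Finset.sum_congr rfl fun C hC => ?_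
  rw [← Finset.sum_filter]
  refine Finset.sum_congr ?_ fun _ _ => rfl
  ext y
  rw [Finset.mem_filter]
  exact ⟨fun h => ⟨Finset.mem_powerset.1 hC h, h⟩, fun h => h.2⟩

/-- exponential decay -/
theorem decay (a : unitInterval) {S : Finset (V d)} (h0 : (0 : V d) ∈ S) :
    ∃ l : ℕ, ∀ k : ℕ, (pm fun _ : V d => a).real (AR (k * (l + 1)) ∅ (0 : V d)) ≤ phi a S ^ k := by
  obtain ⟨l, hl⟩ : ∃ l : ℕ, S ⊆ Q (0 : V d) l := by
    refine ⟨∑ v ∈ S, ∑ i, (v i).natAbs, fun v hv => ?_⟩
    have h1 := Finset.single_le_sum (f := fun v : V d => ∑ i, (v i).natAbs)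
        (fun _ _ => Nat.zero_le _) hv
    rw [mem_Q]
    intro i
    have h3 : (v i).natAbs ≤ ∑ i, (v i).natAbs :=
      Finset.single_le_sum (f := fun i => (v i).natAbs) (fun _ _ => Nat.zero_le _)
        (Finset.mem_univ i)
    have h2 := h3.trans h1
    rw [Pi.zero_apply, sub_zero, Int.abs_eq_natAbs]
    exact_mod_cast h2
  have hphi : 0 ≤ phi a S := Finset.sum_nonneg fun _ _ => Finset.sum_nonneg fun _ _ =>
    measureReal_nonneg
  refine ⟨l, fun k => ?_⟩
  induction k with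
  | zero => rw [pow_zero]; exact measureReal_le_one
  | succ k ih =>
    refine (simon_lieb a h0 hl (n := k * (l + 1)) (m := (k + 1) * (l + 1)) ?_).trans ?_
    · rw [Nat.add_mul]; omega
    · rw [pow_succ, mul_comm]
      exact mul_le_mul_of_nonneg_right ih hphi

end Pool.Agent.K7.H96.HDG
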